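import Mathlib

/-!
# Abel's identity and the splitting probabilities
-/

namespace Pool.Agent.Helper30

open Finset Polynomial

/-- `gam m = (m+1)^(m-1)`, the number of trees on `m+1` labelled vertices (`gam 0 = 1`). -/
def gam (m : ℕ) : ℕ := (m + 1) ^ (m - 1)

theorem gam_pos (m : ℕ) : 0 < gam m := by unfold gam; positivity

/-- Abel polynomial sum. -/
noncomputable def abelSum (n : ℕ) : ℚ[X] :=
  ∑ i ∈ range (n + 1), C ((n.choose i : ℚ) * gam (n - i)) * (X + C (i : ℚ)) ^ i

theorem alternating_sum (n : ℕ) :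
    ∑ i ∈ range (n + 2), (-1 : ℚ) ^ i * ((n + 1).choose i) * ((n : ℚ) + 2 - i) ^ n = 0 := by
  have h := congrFun (fwdDiff_iter_pow_eq_zero_of_lt (R := ℚ) (Nat.lt_succ_self n)) 1
  rw [fwdDiff_iter_eq_sum_shift, Pi.zero_apply] at h
  rw [← h, ← Finset.sum_range_reflect]
  refine Finset.sum_congr rfl (fun j hj => ?_)
  rw [mem_range] at hj
  have e1 : n + 2 - 1 - j = n + 1 - j := by omega
  rw [e1, Nat.choose_symm (by omega : j ≤ n + 1)]
  have e2 : ((n + 1 - j : ℕ) : ℚ) = (n : ℚ) + 1 - j := by
    rw [Nat.cast_sub (by omega)]; push_cast; ring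
  rw [e2, Nat.succ_eq_add_one, zsmul_eq_mul]
  push_cast
  have e3 : (n : ℚ) + 2 - (n + 1 - j) = 1 + j • 1 := by
    rw [nsmul_eq_mul]; ring
  rw [e3]

theorem abelSum_eval (n : ℕ) : (abelSum (n + 1)).eval (-((n : ℚ) + 2)) = 0 := by
  unfold abelSum
  rw [eval_finsetSum]
  rw [← alternating_sum n]
  refine Finset.sum_congr rfl (fun i hi => ?_)
  rw [mem_range] at hi
  simp only [eval_mul, eval_C, eval_pow, eval_add, eval_X]
  have e1 : -((n : ℚ) + 2) + i = (-1) * ((n : ℚ) + 2 - i) := by ring
  rw [e1, mul_pow]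
  have e2 : ((gam (n + 1 - i) : ℕ) : ℚ) * ((n : ℚ) + 2 - i) ^ i = ((n : ℚ) + 2 - i) ^ n := by
    unfold gam
    rcases Nat.lt_or_ge n i with h | h
    · have hi' : i = n + 1 := by omega
      subst hi'
      push_cast
      simp only [Nat.sub_self, Nat.zero_sub, pow_zero, one_mul]
      have : (n : ℚ) + 2 - (n + 1) = 1 := by ring
      rw [this, one_pow, one_pow]
    · have e3 : n + 1 - i - 1 = n - i := by omega
      have e4 : ((n + 1 - i + 1 : ℕ) : ℚ) = (n : ℚ) + 2 - i := by
        rw [Nat.cast_add, Nat.cast_sub (by omega)]; push_cast; ring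
      rw [Nat.cast_pow, e4, e3, ← pow_add]
      congr 1
      omega
  rw [← e2]
  ring

theorem abelSum_eq (n : ℕ) : abelSum n = (X + C ((n : ℚ) + 1)) ^ n := by
  induction n with
  | zero => simp [abelSum, gam]
  | succ n ih =>
    have hder : derivative (abelSum (n + 1) - (X + C (((n + 1 : ℕ) : ℚ) + 1)) ^ (n + 1)) = 0 := by
      rw [derivative_sub, sub_eq_zero]
      have h1 : derivative (abelSum (n + 1)) = C ((n : ℚ) + 1) * (abelSum n).comp (X + C 1) := by
        unfold abelSum
        rw [derivative_sum, Finset.sum_range_succ', ]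
        simp only [Nat.cast_zero, pow_zero, mul_one, derivative_C, add_zero]
        rw [Polynomial.sum_comp, Finset.mul_sum]
        refine Finset.sum_congr rfl (fun i hi => ?_)
        rw [mem_range] at hi
        rw [derivative_C_mul, derivative_pow, derivative_add, derivative_X, derivative_C, add_zero,
          mul_one]
        simp only [mul_comp, C_comp, pow_comp, add_comp, X_comp]
        have e1 : n + 1 - (i + 1) = n - i := by omega
        have e2 : ((n + 1).choose (i + 1) : ℚ) * ((i : ℚ) + 1) = ((n : ℚ) + 1) * (n.choose i) := by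
          have := Nat.add_one_mul_choose_eq n i
          have h := congrArg (Nat.cast (R := ℚ)) this
          push_cast at h
          linarith
        rw [e1, Nat.add_sub_cancel]
        have e3 : (X : ℚ[X]) + C (((i + 1 : ℕ) : ℚ)) = X + C 1 + C (i : ℚ) := by
          rw [add_assoc, ← C_add]; congr 2; push_cast; ring
        rw [e3]
        have e4 : C (((n + 1).choose (i + 1) : ℚ) * (gam (n - i) : ℚ)) * (C (((i + 1 : ℕ) : ℚ))) =
            C ((n : ℚ) + 1) * C ((n.choose i : ℚ) * (gam (n - i) : ℚ)) := by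
          rw [← C_mul, ← C_mul]
          congr 1
          push_cast
          linear_combination (gam (n - i) : ℚ) * e2
        linear_combination (X + C 1 + C (i : ℚ)) ^ i * e4
      rw [h1, ih, derivative_pow, derivative_add, derivative_X, derivative_C, add_zero, mul_one]
      simp only [pow_comp, add_comp, X_comp, C_comp, Nat.add_sub_cancel]
      push_cast
      have e5 : (X : ℚ[X]) + C 1 + (C (n : ℚ) + C 1) = X + (C (n : ℚ) + C 1 + C 1) := by ring
      simp only [C_add] 
      rw [e5]
    obtain ⟨c, hc⟩ : ∃ c, abelSum (n + 1) - (X + C (((n + 1 : ℕ) : ℚ) + 1)) ^ (n + 1) = C c :=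
      ⟨_, Polynomial.eq_C_of_derivative_eq_zero hder⟩
    have hev := congrArg (Polynomial.eval (-((n : ℚ) + 2))) hc
    rw [eval_sub, abelSum_eval, eval_C] at hev
    have hc0 : c = 0 := by
      rw [← hev]
      simp only [eval_pow, eval_add, eval_X, eval_C]
      push_cast
      have : -((n : ℚ) + 2) + (n + 1 + 1) = 0 := by ring
      rw [this, zero_pow (Nat.succ_ne_zero n), sub_zero]
    rw [hc0, C_0, sub_eq_zero] at hc
    exact hc

/-- **Abel's identity** (a special case): `∑ C(n,i) (i+1)^i gam(n-i) = gam (n+1)`. -/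
theorem abel (n : ℕ) :
    ∑ i ∈ range (n + 1), n.choose i * (i + 1) ^ i * gam (n - i) = gam (n + 1) := by
  have h := congrArg (Polynomial.eval (1 : ℚ)) (abelSum_eq n)
  unfold abelSum at h
  rw [eval_finsetSum] at h
  simp only [eval_mul, eval_C, eval_pow, eval_add, eval_X] at h
  have h2 : ((∑ i ∈ range (n + 1), n.choose i * (i + 1) ^ i * gam (n - i) : ℕ) : ℚ) =
      ((gam (n + 1) : ℕ) : ℚ) := by
    unfold gam at h ⊢
    push_cast at h ⊢
    have e : (n : ℚ) + 1 + 1 = 1 + (n + 1) := by ring
    rw [e, ← h]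
    refine Finset.sum_congr rfl (fun i _ => ?_)
    rw [add_comm (1 : ℚ) i]
    ring
  exact_mod_cast h2

end Pool.Agent.Helper30
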