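import Mathlib

set_option autoImplicit false

/-!
# Arcs in affine planes over prime fields: Segre's envelope in elementary form
-/

namespace Pool.Agent.Helper30.ArcA

open Polynomial

/-! ### Polynomials in two variables of bounded total degree -/

/-- The total degree of `G` is at most `m`. -/
def TD {L : Type*} [Field L] (m : ℕ) (G : L[X][X]) : Prop :=
  ∀ i j : ℕ, m < i + j → (G.coeff j).coeff i = 0

section TD

variable {L : Type*} [Field L]

theorem TD.add {m : ℕ} {G H : L[X][X]} (hG : TD m G) (hH : TD m H) : TD m (G + H) := by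
  intro i j h
  rw [coeff_add, coeff_add, hG i j h, hH i j h, add_zero]

theorem TD.zero (m : ℕ) : TD m (0 : L[X][X]) := fun i j _ => by simp

theorem TD.mono {a b : ℕ} (hab : a ≤ b) {G : L[X][X]} (hG : TD a G) : TD b G :=
  fun i j h => hG i j (by omega)

theorem TD.mul {a b : ℕ} {G H : L[X][X]} (hG : TD a G) (hH : TD b H) : TD (a + b) (G * H) := by
  intro i j h
  rw [coeff_mul, finsetSum_coeff]
  refine Finset.sum_eq_zero fun x hx => ?_
  rw [coeff_mul]
  refine Finset.sum_eq_zero fun y hy => ?_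
  rw [Finset.HasAntidiagonal.mem_antidiagonal] at hx hy
  by_cases h1 : a < y.1 + x.1
  · rw [hG _ _ h1, zero_mul]
  · rw [hH _ _ (by omega), mul_zero]

theorem TD.const {m : ℕ} {c : L[X]} (hc : c.natDegree ≤ m) : TD m (C c) := by
  intro i j h
  rw [coeff_C]
  split_ifs with hj
  · exact coeff_eq_zero_of_natDegree_lt (by omega)
  · simp

theorem TD.lin {c : L[X]} (hc : c.natDegree ≤ 1) : TD 1 (X - C c : L[X][X]) := by
  intro i j h
  rw [coeff_sub, coeff_X, coeff_C]
  rcases j with _ | _ | j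
  · have h1 : c.coeff i = 0 := coeff_eq_zero_of_natDegree_lt (by omega)
    simp [h1]
  · have h1 : i ≠ 0 := by omega
    simp [coeff_one, h1]
  · simp

theorem TD.prod {ι : Type*} (S : Finset ι) (ℓ : ι → L[X]) (h : ∀ w ∈ S, (ℓ w).natDegree ≤ 1) :
    TD S.card (∏ w ∈ S, (X - C (ℓ w)) : L[X][X]) := by
  classical
  induction S using Finset.induction_on with
  | empty =>
    rw [Finset.prod_empty, Finset.card_empty, ← C_1]
    exact TD.const (by simp)
  | insert a s ha ih =>
    rw [Finset.prod_insert ha, Finset.card_insert_of_notMem ha, add_comm]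
    exact TD.mul (TD.lin (h a (Finset.mem_insert_self a s)))
      (ih fun w hw => h w (Finset.mem_insert_of_mem hw))

theorem TD.eval_natDegree {m : ℕ} {G : L[X][X]} (hG : TD m G) {c : L[X]}
    (hc : c.natDegree ≤ 1) : (G.eval c).natDegree ≤ m := by
  rw [eval_eq_sum_range]
  refine natDegree_sum_le_of_forall_le _ _ fun j _ => ?_
  by_cases h0 : G.coeff j = 0
  · simp [h0]
  · have h1 : (G.coeff j).natDegree + j ≤ m := by
      by_contra hlt
      push Not at hlt
      exact h0 (leadingCoeff_eq_zero.1 (hG _ _ hlt))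
    calc (G.coeff j * c ^ j).natDegree ≤ (G.coeff j).natDegree + (c ^ j).natDegree :=
          natDegree_mul_le
      _ ≤ (G.coeff j).natDegree + j * 1 := by
          have := natDegree_pow_le_of_le j hc
          omega
      _ ≤ m := by omega

theorem TD.map_natDegree {m : ℕ} {G : L[X][X]} (hG : TD m G) (δ : L) :
    (G.map (evalRingHom δ)).natDegree ≤ m := by
  rw [natDegree_le_iff_coeff_eq_zero]
  intro j hj
  rw [coeff_map]
  have h1 : G.coeff j = 0 := by
    ext i
    rw [hG i j (by omega), coeff_zero]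
  rw [h1, map_zero]

theorem map_eval {G : L[X][X]} (δ : L) (c : L[X]) :
    (G.map (evalRingHom δ)).eval (c.eval δ) = (G.eval c).eval δ := by
  have h := hom_eval₂ G (RingHom.id _) (evalRingHom δ) c
  rw [RingHom.comp_id] at h
  rw [eval_map]
  exact h.symm

theorem TD.div {m : ℕ} {G : L[X][X]} (hG : TD (m + 1) G) (δ : L)
    (h0 : G.map (evalRingHom δ) = 0) : ∃ G' : L[X][X], TD m G' ∧ G = C (X - C δ) * G' := by
  have h1 : (C (X - C δ) : L[X][X]) ∣ G := by
    rw [C_dvd_iff_dvd_coeff]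
    intro j
    rw [dvd_iff_isRoot, IsRoot]
    have h2 : (G.map (evalRingHom δ)).coeff j = 0 := by rw [h0, coeff_zero]
    rw [coeff_map] at h2
    exact h2
  obtain ⟨G', hG'⟩ := h1
  refine ⟨G', ?_, hG'⟩
  intro i j hij
  by_contra hne
  have hc : G.coeff j = (X - C δ) * G'.coeff j := by rw [hG', coeff_C_mul]
  have hne' : G'.coeff j ≠ 0 := by
    intro h
    apply hne
    rw [h, coeff_zero]
  have hi : i ≤ (G'.coeff j).natDegree := le_natDegree_of_ne_zero hne
  have hdeg : (G.coeff j).natDegree = 1 + (G'.coeff j).natDegree := by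
    rw [hc, natDegree_mul (X_sub_C_ne_zero δ) hne', natDegree_X_sub_C]
  have h3 := hG (G.coeff j).natDegree j (by omega)
  have h4 : G.coeff j ≠ 0 := by
    rw [hc]
    exact mul_ne_zero (X_sub_C_ne_zero δ) hne'
  exact h4 (leadingCoeff_eq_zero.1 h3)

/-- Interpolation along lines in the dual plane. -/
theorem interp {ι : Type*} (ℓ g : ι → L[X]) (m : ℕ) (S : Finset ι)
    (hℓ : ∀ P ∈ S, (ℓ P).natDegree ≤ 1) (hg : ∀ P ∈ S, (g P).natDegree ≤ m)
    (hdvd : ∀ P ∈ S, ∀ w ∈ S, P ≠ w → (ℓ P - ℓ w) ∣ (g P - g w))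
    (hdeg : ∀ P ∈ S, ∀ w ∈ S, P ≠ w → (ℓ P - ℓ w).natDegree = 1)
    (hcop : ∀ P ∈ S, ∀ w ∈ S, ∀ w' ∈ S, P ≠ w → P ≠ w' → w ≠ w' →
      IsCoprime (ℓ P - ℓ w) (ℓ P - ℓ w')) :
    ∃ G : L[X][X], TD m G ∧ ∀ P ∈ S, G.eval (ℓ P) = g P := by
  classical
  induction S using Finset.induction_on with
  | empty => exact ⟨0, TD.zero m, by simp⟩
  | insert P S hP ih =>
    have hPm : P ∈ insert P S := Finset.mem_insert_self P S
    have hSm : ∀ w ∈ S, w ∈ insert P S := fun w hw => Finset.mem_insert_of_mem hw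
    have hPw : ∀ w ∈ S, P ≠ w := fun w hw h => hP (h ▸ hw)
    obtain ⟨G, hG, hGe⟩ := ih (fun w hw => hℓ w (hSm w hw)) (fun w hw => hg w (hSm w hw))
      (fun w hw v hv => hdvd w (hSm w hw) v (hSm v hv))
      (fun w hw v hv => hdeg w (hSm w hw) v (hSm v hv))
      (fun w hw v hv u hu => hcop w (hSm w hw) v (hSm v hv) u (hSm u hu))
    have hdv : ∀ w ∈ S, (ℓ P - ℓ w) ∣ g P - G.eval (ℓ P) := by
      intro w hw
      have h1 := hdvd P hPm w (hSm w hw) (hPw w hw)
      have h2 : (ℓ P - ℓ w) ∣ G.eval (ℓ P) - G.eval (ℓ w) := sub_dvd_eval_sub _ _ _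
      have h3 : g P - G.eval (ℓ P) = (g P - g w) - (G.eval (ℓ P) - G.eval (ℓ w)) := by
        rw [hGe w hw]
        ring
      rw [h3]
      exact dvd_sub h1 h2
    have hprod : (∏ w ∈ S, (ℓ P - ℓ w)) ∣ g P - G.eval (ℓ P) := by
      refine Finset.prod_dvd_of_coprime ?_ hdv
      intro w hw w' hw' hne
      exact hcop P hPm w (hSm w hw) w' (hSm w' hw') (hPw w hw) (hPw w' hw') hne
    obtain ⟨c, hc⟩ := hprod
    have hedeg : (g P - G.eval (ℓ P)).natDegree ≤ m := by
      refine (natDegree_sub_le _ _).trans ?_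
      exact max_le (hg P hPm) (hG.eval_natDegree (hℓ P hPm))
    have hpne : (∏ w ∈ S, (ℓ P - ℓ w)) ≠ 0 := by
      rw [Finset.prod_ne_zero_iff]
      intro w hw h
      have h1 := hdeg P hPm w (hSm w hw) (hPw w hw)
      rw [h, natDegree_zero] at h1
      exact absurd h1 (by norm_num)
    have hpdeg : (∏ w ∈ S, (ℓ P - ℓ w)).natDegree = S.card := by
      rw [natDegree_prod _ _ (fun w hw h => by
        have h1 := hdeg P hPm w (hSm w hw) (hPw w hw)
        rw [h, natDegree_zero] at h1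
        exact absurd h1 (by norm_num))]
      rw [Finset.sum_congr rfl fun w hw => hdeg P hPm w (hSm w hw) (hPw w hw)]
      simp
    have hTD : TD m (C c * ∏ w ∈ S, (X - C (ℓ w)) : L[X][X]) := by
      by_cases hc0 : c = 0
      · rw [hc0, C_0, zero_mul]
        exact TD.zero m
      · have h1 : c.natDegree + S.card ≤ m := by
          rw [hc, natDegree_mul hpne hc0, hpdeg] at hedeg
          omega
        exact (TD.mul (TD.const le_rfl) (TD.prod S ℓ fun w hw => hℓ w (hSm w hw))).mono h1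
    refine ⟨G + C c * ∏ w ∈ S, (X - C (ℓ w)), hG.add hTD, ?_⟩
    intro w hw
    rw [Finset.mem_insert] at hw
    rw [eval_add, eval_mul, eval_C, eval_prod]
    rcases hw with rfl | hw
    · have h1 : ∏ v ∈ S, eval (ℓ w) (X - C (ℓ v) : L[X][X]) = ∏ v ∈ S, (ℓ w - ℓ v) :=
        Finset.prod_congr rfl fun v _ => by simp
      rw [h1]
      linear_combination -hc
    · have h1 : ∏ v ∈ S, eval (ℓ w) (X - C (ℓ v) : L[X][X]) = 0 :=
        Finset.prod_eq_zero hw (by simp)
      rw [h1, mul_zero, add_zero, hGe w hw]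

end TD

/-! ### Tangent functions of an arc -/

section Arc

set_option linter.unusedSectionVars false

variable {L : Type*} [Field L] [DecidableEq L] {ι : Type*} [DecidableEq ι]

/-- The slope of the line through two points. -/
def sl (x y : ι → L) (P w : ι) : L := (y P - y w) / (x P - x w)

/-- The determinant of three points. -/
def det (x y : ι → L) (P w w' : ι) : L :=
  (y P - y w) * (x P - x w') - (y P - y w') * (x P - x w)

/-- `A` is an arc with slopes in `D`. -/
structure IsArc (A : Finset ι) (x y : ι → L) (D : Finset L) : Prop where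
  hx : ∀ P ∈ A, ∀ w ∈ A, P ≠ w → x P ≠ x w
  hD : ∀ P ∈ A, ∀ w ∈ A, P ≠ w → sl x y P w ∈ D
  hdet : ∀ P ∈ A, ∀ w ∈ A, ∀ w' ∈ A, P ≠ w → P ≠ w' → w ≠ w' → det x y P w w' ≠ 0

/-- The tangent directions at `P`. -/
def tan (A : Finset ι) (x y : ι → L) (D : Finset L) (P : ι) : Finset L :=
  D \ ((A.erase P).image (sl x y P))

/-- The normalising constant. -/
noncomputable def cf (A : Finset ι) (x : ι → L) (P : ι) : L := (∏ w ∈ A.erase P, (x P - x w))⁻¹

/-- The tangent function at `P`. -/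
noncomputable def hh (A : Finset ι) (x y : ι → L) (D : Finset L) (P : ι) : L[X] :=
  C (cf A x P) * ∏ μ ∈ tan A x y D P, (X - C μ)

/-- The line dual to the point `P`. -/
noncomputable def ln (x y : ι → L) (P : ι) : L[X] := C (y P) - X * C (x P)

variable {A : Finset ι} {x y : ι → L} {D : Finset L}

theorem sl_comm (P w : ι) : sl x y P w = sl x y w P := by
  unfold sl
  rw [← neg_sub (y w) (y P), ← neg_sub (x w) (x P), neg_div_neg_eq]

theorem sl_sub (hA : IsArc A x y D) {P w w' : ι} (hP : P ∈ A) (hw : w ∈ A) (hw' : w' ∈ A)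
    (h1 : P ≠ w) (h2 : P ≠ w') :
    (sl x y P w - sl x y P w') * ((x P - x w) * (x P - x w')) = det x y P w w' := by
  have e1 : x P - x w ≠ 0 := sub_ne_zero.2 (hA.hx P hP w hw h1)
  have e2 : x P - x w' ≠ 0 := sub_ne_zero.2 (hA.hx P hP w' hw' h2)
  unfold sl det
  field_simp

theorem sl_injOn (hA : IsArc A x y D) {P : ι} (hP : P ∈ A) :
    Set.InjOn (sl x y P) (A.erase P : Finset ι) := by
  intro w hw w' hw' h
  rw [Finset.mem_coe, Finset.mem_erase] at hw hw'
  by_contra hne
  apply hA.hdet P hP w hw.2 w' hw'.2 hw.1.symm hw'.1.symm hne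
  rw [← sl_sub hA hP hw.2 hw'.2 hw.1.symm hw'.1.symm, h, sub_self, zero_mul]

theorem sec_sub (hA : IsArc A x y D) {P : ι} (hP : P ∈ A) :
    (A.erase P).image (sl x y P) ⊆ D := by
  intro s hs
  obtain ⟨w, hw, rfl⟩ := Finset.mem_image.1 hs
  rw [Finset.mem_erase] at hw
  exact hA.hD P hP w hw.2 hw.1.symm

theorem card_tan (hA : IsArc A x y D) {P : ι} (hP : P ∈ A) :
    (tan A x y D P).card + A.card = D.card + 1 := by
  unfold tan
  have h1 := Finset.card_sdiff_add_card_eq_card (sec_sub hA hP)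
  rw [Finset.card_image_of_injOn (sl_injOn hA hP), Finset.card_erase_of_mem hP] at h1
  have h2 : 0 < A.card := Finset.card_pos.2 ⟨P, hP⟩
  omega

theorem ln_natDegree (P : ι) : (ln x y P).natDegree ≤ 1 := by
  unfold ln
  refine (natDegree_sub_le _ _).trans ?_
  rw [natDegree_C]
  refine max_le (by norm_num) ?_
  refine natDegree_mul_le.trans ?_
  rw [natDegree_C, natDegree_X]

theorem ln_sub (hA : IsArc A x y D) {P w : ι} (hP : P ∈ A) (hw : w ∈ A) (h : P ≠ w) :
    ln x y P - ln x y w = C (-(x P - x w)) * (X - C (sl x y P w)) := by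
  have e1 : x P - x w ≠ 0 := sub_ne_zero.2 (hA.hx P hP w hw h)
  have e2 : sl x y P w * (x P - x w) = y P - y w := by
    unfold sl
    field_simp
  have e3 : C (y P) - C (y w) = C (sl x y P w) * (C (x P) - C (x w)) := by
    rw [← C_sub, ← C_sub, ← C_mul, e2]
  unfold ln
  rw [C_neg, C_sub]
  linear_combination e3

/-- The product of all slope differences splits. -/
theorem prod_split (hA : IsArc A x y D) {P w : ι} (hP : P ∈ A) (hw : w ∈ A) (h : P ≠ w) :
    ∏ δ ∈ D.erase (sl x y P w), (sl x y P w - δ) =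
      (∏ μ ∈ tan A x y D P, (sl x y P w - μ)) *
        ∏ v ∈ (A.erase P).erase w, (sl x y P w - sl x y P v) := by
  have hwP : w ∈ A.erase P := Finset.mem_erase.2 ⟨h.symm, hw⟩
  have h1 : ∏ v ∈ (A.erase P).erase w, (sl x y P w - sl x y P v) =
      ∏ δ ∈ ((A.erase P).image (sl x y P)).erase (sl x y P w), (sl x y P w - δ) := by
    have h2 : ((A.erase P).image (sl x y P)).erase (sl x y P w) =
        ((A.erase P).erase w).image (sl x y P) := by
      ext s
      simp only [Finset.mem_erase, Finset.mem_image]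
      constructor
      · rintro ⟨h3, v, hv, rfl⟩
        exact ⟨v, ⟨fun h4 => h3 (by rw [h4]), hv⟩, rfl⟩
      · rintro ⟨v, ⟨h3, hv⟩, rfl⟩
        refine ⟨fun h4 => h3 ?_, v, hv, rfl⟩
        exact sl_injOn hA hP (Finset.mem_coe.2 (Finset.mem_erase.2 hv)) (Finset.mem_coe.2 hwP) h4
    rw [h2, Finset.prod_image]
    intro a ha b hb hab
    exact sl_injOn hA hP (Finset.mem_coe.2 (Finset.mem_of_mem_erase ha))
      (Finset.mem_coe.2 (Finset.mem_of_mem_erase hb)) hab
  rw [h1]
  have hsec := sec_sub hA hP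
  have h3 : D.erase (sl x y P w) = tan A x y D P ∪
      ((A.erase P).image (sl x y P)).erase (sl x y P w) := by
    ext s
    unfold tan
    simp only [Finset.mem_erase, Finset.mem_union, Finset.mem_sdiff]
    constructor
    · rintro ⟨h4, h5⟩
      by_cases h6 : s ∈ (A.erase P).image (sl x y P)
      · exact Or.inr ⟨h4, h6⟩
      · exact Or.inl ⟨h5, h6⟩
    · rintro (⟨h5, h6⟩ | ⟨h4, h6⟩)
      · refine ⟨fun h7 => h6 ?_, h5⟩
        rw [h7]
        exact Finset.mem_image_of_mem _ hwP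
      · exact ⟨h4, hsec h6⟩
  rw [h3, Finset.prod_union]
  unfold tan
  rw [Finset.disjoint_left]
  intro s hs hs'
  exact (Finset.mem_sdiff.1 hs).2 (Finset.mem_of_mem_erase hs')

theorem hh_eval (hA : IsArc A x y D) {P w : ι} (hP : P ∈ A) (hw : w ∈ A) (h : P ≠ w) :
    (hh A x y D P).eval (sl x y P w) * (x P - x w) *
        ∏ v ∈ (A.erase P).erase w, det x y P w v =
      (∏ δ ∈ D.erase (sl x y P w), (sl x y P w - δ)) *
        (x P - x w) ^ ((A.erase P).erase w).card := by
  have hwP : w ∈ A.erase P := Finset.mem_erase.2 ⟨h.symm, hw⟩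
  rw [prod_split hA hP hw h]
  have e0 : x P - x w ≠ 0 := sub_ne_zero.2 (hA.hx P hP w hw h)
  have h1 : ∏ v ∈ (A.erase P).erase w, det x y P w v =
      (∏ v ∈ (A.erase P).erase w, (sl x y P w - sl x y P v)) *
        ((x P - x w) ^ ((A.erase P).erase w).card * ∏ v ∈ (A.erase P).erase w, (x P - x v)) := by
    rw [← Finset.prod_const, ← Finset.prod_mul_distrib, ← Finset.prod_mul_distrib]
    refine Finset.prod_congr rfl fun v hv => ?_
    rw [Finset.mem_erase, Finset.mem_erase] at hv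
    exact (sl_sub hA hP hw hv.2.2 h hv.2.1.symm).symm
  have h2 : (hh A x y D P).eval (sl x y P w) =
      cf A x P * ∏ μ ∈ tan A x y D P, (sl x y P w - μ) := by
    unfold hh
    rw [eval_mul, eval_C, eval_prod]
    congr 1
    exact Finset.prod_congr rfl fun μ _ => by simp
  have h3 : ∏ v ∈ A.erase P, (x P - x v) = (x P - x w) * ∏ v ∈ (A.erase P).erase w, (x P - x v) :=
    (Finset.mul_prod_erase _ _ hwP).symm
  have h4 : ∏ v ∈ (A.erase P).erase w, (x P - x v) ≠ 0 := by
    rw [Finset.prod_ne_zero_iff]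
    intro v hv
    rw [Finset.mem_erase, Finset.mem_erase] at hv
    exact sub_ne_zero.2 (hA.hx P hP v hv.2.2 hv.2.1.symm)
  rw [h1, h2]
  unfold cf
  rw [h3]
  field_simp

theorem hh_compat (hA : IsArc A x y D) {P w : ι} (hP : P ∈ A) (hw : w ∈ A) (h : P ≠ w) :
    (hh A x y D P).eval (sl x y P w) = -(hh A x y D w).eval (sl x y P w) := by
  have h1 := hh_eval hA hP hw h
  have h2 := hh_eval hA hw hP h.symm
  have h3 : (A.erase w).erase P = (A.erase P).erase w := Finset.erase_right_comm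
  have e0 : x P - x w ≠ 0 := sub_ne_zero.2 (hA.hx P hP w hw h)
  rw [← sl_comm P w, h3] at h2
  have h4 : ∏ v ∈ (A.erase P).erase w, det x y w P v =
      (-1) ^ ((A.erase P).erase w).card * ∏ v ∈ (A.erase P).erase w, det x y P w v := by
    rw [← Finset.prod_const, ← Finset.prod_mul_distrib]
    refine Finset.prod_congr rfl fun v _ => ?_
    unfold det
    ring
  have h5 : (x w - x P) ^ ((A.erase P).erase w).card =
      (-1) ^ ((A.erase P).erase w).card * (x P - x w) ^ ((A.erase P).erase w).card := by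
    rw [← mul_pow]
    congr 1
    ring
  have h6 : ∏ v ∈ (A.erase P).erase w, det x y P w v ≠ 0 := by
    rw [Finset.prod_ne_zero_iff]
    intro v hv
    rw [Finset.mem_erase, Finset.mem_erase] at hv
    exact hA.hdet P hP w hw v hv.2.2 h hv.2.1.symm hv.1.symm
  rw [h4, h5] at h2
  have h7 : ((-1 : L) ^ ((A.erase P).erase w).card) ≠ 0 := pow_ne_zero _ (neg_ne_zero.2 one_ne_zero)
  have h8 : (-1 : L) ^ ((A.erase P).erase w).card *
      (((hh A x y D P).eval (sl x y P w) + (hh A x y D w).eval (sl x y P w)) *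
        ((x P - x w) * ∏ v ∈ (A.erase P).erase w, det x y P w v)) = 0 := by
    linear_combination (-1 : L) ^ ((A.erase P).erase w).card * h1 - h2
  have h9 := (mul_eq_zero.1 ((mul_eq_zero.1 h8).resolve_left h7)).resolve_right
    (mul_ne_zero e0 h6)
  linear_combination h9

theorem hh_natDegree (P : ι) : (hh A x y D P).natDegree ≤ (tan A x y D P).card := by
  unfold hh
  refine (natDegree_C_mul_le _ _).trans ?_
  rw [natDegree_prod_of_monic _ _ fun μ _ => monic_X_sub_C μ]
  simp

/-- **Segre's envelope**, elementary form. -/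
theorem envelope (hA : IsArc A x y D) (t : ℕ) (ht : t + A.card = D.card + 1) :
    ∃ G : L[X][X], TD (2 * t) G ∧ ∀ P ∈ A, G.eval (ln x y P) = hh A x y D P ^ 2 := by
  refine interp (ln x y) (fun P => hh A x y D P ^ 2) (2 * t) A (fun P _ => ln_natDegree P)
    ?_ ?_ ?_ ?_
  · intro P hP
    have h1 : (tan A x y D P).card = t := by
      have := card_tan hA hP
      omega
    have h2 : (hh A x y D P ^ 2).natDegree ≤ 2 * (hh A x y D P).natDegree := natDegree_pow_le
    have h3 := hh_natDegree (A := A) (x := x) (y := y) (D := D) P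
    change (hh A x y D P ^ 2).natDegree ≤ 2 * t
    omega
  · intro P hP w hw h
    rw [ln_sub hA hP hw h]
    have e0 : -(x P - x w) ≠ 0 := neg_ne_zero.2 (sub_ne_zero.2 (hA.hx P hP w hw h))
    have hu : IsUnit (C (-(x P - x w)) : L[X]) := isUnit_C.2 (isUnit_iff_ne_zero.2 e0)
    rw [hu.mul_left_dvd, dvd_iff_isRoot, IsRoot]
    change eval _ (hh A x y D P ^ 2 - hh A x y D w ^ 2) = 0
    rw [eval_sub, eval_pow, eval_pow, hh_compat hA hP hw h]
    ring
  · intro P hP w hw h
    have e0 : -(x P - x w) ≠ 0 := neg_ne_zero.2 (sub_ne_zero.2 (hA.hx P hP w hw h))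
    rw [ln_sub hA hP hw h, natDegree_C_mul e0, natDegree_X_sub_C]
  · intro P hP w hw w' hw' h h' hne
    rw [ln_sub hA hP hw h, ln_sub hA hP hw' h']
    have e0 : -(x P - x w) ≠ 0 := neg_ne_zero.2 (sub_ne_zero.2 (hA.hx P hP w hw h))
    have e1 : -(x P - x w') ≠ 0 := neg_ne_zero.2 (sub_ne_zero.2 (hA.hx P hP w' hw' h'))
    have hu0 : IsUnit (C (-(x P - x w)) : L[X]) := isUnit_C.2 (isUnit_iff_ne_zero.2 e0)
    have hu1 : IsUnit (C (-(x P - x w')) : L[X]) := isUnit_C.2 (isUnit_iff_ne_zero.2 e1)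
    rw [isCoprime_mul_unit_left_left hu0, isCoprime_mul_unit_left_right hu1]
    refine isCoprime_X_sub_C_of_isUnit_sub ?_
    rw [isUnit_iff_ne_zero, sub_ne_zero]
    intro hs
    apply hne
    exact sl_injOn hA hP (Finset.mem_coe.2 (Finset.mem_erase.2 ⟨h.symm, hw⟩))
      (Finset.mem_coe.2 (Finset.mem_erase.2 ⟨h'.symm, hw'⟩)) hs

theorem cf_ne_zero (hA : IsArc A x y D) {P : ι} (hP : P ∈ A) : cf A x P ≠ 0 := by
  unfold cf
  refine inv_ne_zero ?_
  rw [Finset.prod_ne_zero_iff]
  intro v hv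
  rw [Finset.mem_erase] at hv
  exact sub_ne_zero.2 (hA.hx P hP v hv.2 hv.1.symm)

theorem hh_root (hA : IsArc A x y D) {P : ι} (hP : P ∈ A) (δ : L) :
    (hh A x y D P).eval δ = 0 ↔ δ ∈ tan A x y D P := by
  unfold hh
  rw [eval_mul, eval_C, eval_prod, mul_eq_zero, Finset.prod_eq_zero_iff]
  constructor
  · rintro (h | ⟨μ, hμ, h⟩)
    · exact absurd h (cf_ne_zero hA hP)
    · rw [eval_sub, eval_X, eval_C, sub_eq_zero] at h
      rw [h]
      exact hμ
  · intro h
    exact Or.inr ⟨δ, h, by simp⟩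

theorem ln_eval (P : ι) (δ : L) : (ln x y P).eval δ = y P - δ * x P := by
  unfold ln
  rw [eval_sub, eval_mul, eval_X, eval_C, eval_C]

theorem ln_ne (hA : IsArc A x y D) {P w : ι} (hP : P ∈ A) (hw : w ∈ A) {δ : L}
    (hδ : δ ∈ tan A x y D P) (h : y P - δ * x P = y w - δ * x w) : P = w := by
  by_contra hne
  have e0 : x P - x w ≠ 0 := sub_ne_zero.2 (hA.hx P hP w hw hne)
  have h1 : sl x y P w = δ := by
    unfold sl
    rw [div_eq_iff e0]
    linear_combination h
  unfold tan at hδ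
  apply (Finset.mem_sdiff.1 hδ).2
  rw [← h1]
  exact Finset.mem_image_of_mem _ (Finset.mem_erase.2 ⟨fun h2 => hne h2.symm, hw⟩)

/-- A direction with more than `2 t` tangents is a tangent direction everywhere. -/
theorem tan_all (hA : IsArc A x y D) (t : ℕ) (ht : t + A.card = D.card + 1) (δ : L)
    (hδ : 2 * t < (A.filter fun P => δ ∈ tan A x y D P).card) :
    ∀ P ∈ A, δ ∈ tan A x y D P := by
  obtain ⟨G, hG, hGe⟩ := envelope hA t ht
  have h0 : G.map (evalRingHom δ) = 0 := by
    refine eq_zero_of_natDegree_lt_card_of_eval_eq_zero' _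
      ((A.filter fun P => δ ∈ tan A x y D P).image fun P => (ln x y P).eval δ) ?_ ?_
    · intro b hb
      obtain ⟨P, hP, rfl⟩ := Finset.mem_image.1 hb
      rw [Finset.mem_filter] at hP
      rw [map_eval, hGe P hP.1, eval_pow, (hh_root hA hP.1 δ).2 hP.2]
      simp
    · rw [Finset.card_image_of_injOn]
      · exact lt_of_le_of_lt (hG.map_natDegree δ) hδ
      · intro P hP w hw h
        rw [Finset.mem_coe, Finset.mem_filter] at hP hw
        change (ln x y P).eval δ = (ln x y w).eval δ at h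
        rw [ln_eval, ln_eval] at h
        exact ln_ne hA hP.1 hw.1 hP.2 h
  intro P hP
  rw [← hh_root hA hP δ]
  have h1 := map_eval (G := G) δ (ln x y P)
  rw [h0, hGe P hP, eval_zero, eval_pow] at h1
  exact pow_eq_zero_iff (two_ne_zero) |>.1 h1.symm

theorem div_eval {m : ℕ} {G : L[X][X]} (hG : TD (m + 1) G) (ℓ q : ι → L[X]) (δ : L)
    (hinj : Set.InjOn (fun P => (ℓ P).eval δ) (A : Set ι)) (hk : m + 1 < A.card)
    (he : ∀ P ∈ A, G.eval (ℓ P) = (X - C δ) * q P) :
    ∃ G' : L[X][X], TD m G' ∧ ∀ P ∈ A, G'.eval (ℓ P) = q P := by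
  have h0 : G.map (evalRingHom δ) = 0 := by
    refine eq_zero_of_natDegree_lt_card_of_eval_eq_zero' _
      (A.image fun P => (ℓ P).eval δ) ?_ ?_
    · intro b hb
      obtain ⟨P, hP, rfl⟩ := Finset.mem_image.1 hb
      rw [map_eval, he P hP]
      simp
    · rw [Finset.card_image_of_injOn hinj]
      exact lt_of_le_of_lt (hG.map_natDegree δ) hk
  obtain ⟨G', hG', h1⟩ := hG.div δ h0
  refine ⟨G', hG', fun P hP => ?_⟩
  have h2 := he P hP
  rw [h1, eval_mul, eval_C] at h2
  exact mul_left_cancel₀ (X_sub_C_ne_zero δ) h2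

/-- No three tangent directions common to all points. -/
theorem no_three (hA : IsArc A x y D) (t : ℕ) (ht : t + A.card = D.card + 1)
    (hk : 2 * t < A.card) (δ₁ δ₂ δ₃ : L) (h12 : δ₁ ≠ δ₂) (h13 : δ₁ ≠ δ₃) (h23 : δ₂ ≠ δ₃)
    (h1 : ∀ P ∈ A, δ₁ ∈ tan A x y D P) (h2 : ∀ P ∈ A, δ₂ ∈ tan A x y D P)
    (h3 : ∀ P ∈ A, δ₃ ∈ tan A x y D P) (B : Finset L) (hB : ∀ P ∈ A, y P - δ₁ * x P ∈ B)
    (κ : L) (hκ : ∀ β ∈ B, ∏ γ ∈ B.erase β, (β - γ) = κ) (hBD : B.card + 1 = D.card) :
    False := by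
  set q : ι → L[X] := fun P => C (cf A x P) *
    ∏ μ ∈ (((tan A x y D P).erase δ₁).erase δ₂).erase δ₃, (X - C μ) with hq
  have hm2 : ∀ P ∈ A, δ₂ ∈ (tan A x y D P).erase δ₁ := fun P hP =>
    Finset.mem_erase.2 ⟨h12.symm, h2 P hP⟩
  have hm3 : ∀ P ∈ A, δ₃ ∈ ((tan A x y D P).erase δ₁).erase δ₂ := fun P hP =>
    Finset.mem_erase.2 ⟨h23.symm, Finset.mem_erase.2 ⟨h13.symm, h3 P hP⟩⟩
  have hhq : ∀ P ∈ A, hh A x y D P = (X - C δ₁) * ((X - C δ₂) * ((X - C δ₃) * q P)) := by
    intro P hP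
    have e1 : ∏ μ ∈ tan A x y D P, (X - C μ) =
        (X - C δ₁) * ((X - C δ₂) * ((X - C δ₃) *
          ∏ μ ∈ (((tan A x y D P).erase δ₁).erase δ₂).erase δ₃, (X - C μ))) := by
      rw [Finset.mul_prod_erase _ (fun μ : L => (X - C μ : L[X])) (hm3 P hP),
        Finset.mul_prod_erase _ (fun μ : L => (X - C μ : L[X])) (hm2 P hP),
        Finset.mul_prod_erase _ (fun μ : L => (X - C μ : L[X])) (h1 P hP)]
    rw [hq]
    unfold hh
    rw [e1]
    ring
  have hAne : A.Nonempty := Finset.card_pos.1 (by omega)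
  have ht3 : 3 ≤ t := by
    obtain ⟨P, hP⟩ := hAne
    have e1 : ({δ₁, δ₂, δ₃} : Finset L) ⊆ tan A x y D P := by
      intro δ hδ
      simp only [Finset.mem_insert, Finset.mem_singleton] at hδ
      rcases hδ with rfl | rfl | rfl
      · exact h1 P hP
      · exact h2 P hP
      · exact h3 P hP
    have e2 := Finset.card_le_card e1
    rw [Finset.card_eq_three.2 ⟨δ₁, δ₂, δ₃, h12, h13, h23, rfl⟩] at e2
    have e3 := card_tan hA hP
    omega
  obtain ⟨s, rfl⟩ : ∃ s, t = s + 3 := ⟨t - 3, by omega⟩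
  have hinj : ∀ δ : L, (∀ P ∈ A, δ ∈ tan A x y D P) →
      Set.InjOn (fun P => (ln x y P).eval δ) (A : Set ι) := by
    intro δ hδ P hP w hw h
    change (ln x y P).eval δ = (ln x y w).eval δ at h
    rw [ln_eval, ln_eval] at h
    exact ln_ne hA (Finset.mem_coe.1 hP) (Finset.mem_coe.1 hw) (hδ P (Finset.mem_coe.1 hP)) h
  obtain ⟨G0, hG0, hGe0⟩ := envelope hA (s + 3) ht
  have e0 : ∀ P ∈ A, G0.eval (ln x y P) = (X - C δ₁) * ((X - C δ₁) * ((X - C δ₂) * ((X - C δ₂) *
      ((X - C δ₃) * ((X - C δ₃) * q P ^ 2))))) := by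
    intro P hP
    rw [hGe0 P hP, hhq P hP]
    ring
  obtain ⟨G1, hG1, hGe1⟩ := div_eval (m := 2 * s + 5) (by
    have : 2 * s + 5 + 1 = 2 * (s + 3) := by ring
    rw [this]
    exact hG0) (ln x y) _ δ₁ (hinj δ₁ h1) (by omega) e0
  obtain ⟨G2, hG2, hGe2⟩ := div_eval (m := 2 * s + 4) hG1 (ln x y) _ δ₁ (hinj δ₁ h1) (by omega)
    hGe1
  obtain ⟨G3, hG3, hGe3⟩ := div_eval (m := 2 * s + 3) hG2 (ln x y) _ δ₂ (hinj δ₂ h2) (by omega)
    hGe2
  obtain ⟨G4, hG4, hGe4⟩ := div_eval (m := 2 * s + 2) hG3 (ln x y) _ δ₂ (hinj δ₂ h2) (by omega)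
    hGe3
  obtain ⟨G5, hG5, hGe5⟩ := div_eval (m := 2 * s + 1) hG4 (ln x y) _ δ₃ (hinj δ₃ h3) (by omega)
    hGe4
  obtain ⟨G6, hG6, hGe6⟩ := div_eval (m := 2 * s) hG5 (ln x y) _ δ₃ (hinj δ₃ h3) (by omega)
    hGe5
  -- the values at `δ₁`
  set b : ι → L := fun P => y P - δ₁ * x P with hb
  have hbinj : Set.InjOn b (A : Set ι) := by
    intro P hP w hw h
    exact ln_ne hA (Finset.mem_coe.1 hP) (Finset.mem_coe.1 hw) (h1 P (Finset.mem_coe.1 hP)) h
  set Q0 : L := ∏ δ ∈ D.erase δ₁, (δ₁ - δ) with hQ0d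
  have hQ0 : Q0 ≠ 0 := by
    rw [hQ0d, Finset.prod_ne_zero_iff]
    intro δ hδ
    exact sub_ne_zero.2 (Finset.ne_of_mem_erase hδ).symm
  have hq1 : ∀ P ∈ A, (q P).eval δ₁ * ((δ₁ - δ₂) * (δ₁ - δ₃)) *
      ∏ w ∈ A.erase P, (b w - b P) = Q0 := by
    intro P hP
    have f1 : (q P).eval δ₁ * ((δ₁ - δ₂) * (δ₁ - δ₃)) =
        cf A x P * ∏ μ ∈ (tan A x y D P).erase δ₁, (δ₁ - μ) := by
      have g1 : ∏ μ ∈ (tan A x y D P).erase δ₁, (δ₁ - μ) = (δ₁ - δ₂) * ((δ₁ - δ₃) *
          ∏ μ ∈ (((tan A x y D P).erase δ₁).erase δ₂).erase δ₃, (δ₁ - μ)) := by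
        rw [Finset.mul_prod_erase _ (fun μ : L => (δ₁ - μ : L)) (hm3 P hP),
          Finset.mul_prod_erase _ (fun μ : L => (δ₁ - μ : L)) (hm2 P hP)]
      have g2 : (q P).eval δ₁ = cf A x P *
          ∏ μ ∈ (((tan A x y D P).erase δ₁).erase δ₂).erase δ₃, (δ₁ - μ) := by
        rw [hq]
        change eval δ₁ (C (cf A x P) * _) = _
        rw [eval_mul, eval_C, eval_prod]
        congr 1
        exact Finset.prod_congr rfl fun μ _ => by simp
      rw [g1, g2]
      ring
    have f2 : ∏ w ∈ A.erase P, (b w - b P) =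
        (∏ w ∈ A.erase P, (δ₁ - sl x y P w)) * ∏ w ∈ A.erase P, (x P - x w) := by
      rw [← Finset.prod_mul_distrib]
      refine Finset.prod_congr rfl fun w hw => ?_
      rw [Finset.mem_erase] at hw
      have g1 : x P - x w ≠ 0 := sub_ne_zero.2 (hA.hx P hP w hw.2 hw.1.symm)
      have g2 : sl x y P w * (x P - x w) = y P - y w := by
        unfold sl
        field_simp
      change (y w - δ₁ * x w) - (y P - δ₁ * x P) = _
      linear_combination g2
    have f3 : Q0 = (∏ μ ∈ (tan A x y D P).erase δ₁, (δ₁ - μ)) *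
        ∏ w ∈ A.erase P, (δ₁ - sl x y P w) := by
      have g1 : ∏ w ∈ A.erase P, (δ₁ - sl x y P w) =
          ∏ δ ∈ (A.erase P).image (sl x y P), (δ₁ - δ) := by
        rw [Finset.prod_image]
        exact sl_injOn hA hP
      rw [g1, hQ0d]
      have hsec := sec_sub hA hP
      have g3 : D.erase δ₁ = (tan A x y D P).erase δ₁ ∪ (A.erase P).image (sl x y P) := by
        have hδ₁ := h1 P hP
        ext s
        unfold tan at hδ₁ ⊢
        simp only [Finset.mem_erase, Finset.mem_union, Finset.mem_sdiff] at hδ₁ ⊢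
        constructor
        · rintro ⟨h4, h5⟩
          by_cases h6 : s ∈ (A.erase P).image (sl x y P)
          · exact Or.inr h6
          · exact Or.inl ⟨h4, h5, h6⟩
        · rintro (⟨h4, h5, h6⟩ | h6)
          · exact ⟨h4, h5⟩
          · refine ⟨fun h7 => hδ₁.2 ?_, hsec h6⟩
            rw [← h7]
            exact h6
      rw [g3, Finset.prod_union]
      rw [Finset.disjoint_left]
      intro s hs hs'
      have g4 := Finset.mem_of_mem_erase hs
      unfold tan at g4
      exact (Finset.mem_sdiff.1 g4).2 hs'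
    have f4 : cf A x P * ∏ w ∈ A.erase P, (x P - x w) = 1 := by
      unfold cf
      refine inv_mul_cancel₀ ?_
      have := cf_ne_zero hA hP
      unfold cf at this
      exact fun h => this (by rw [h, inv_zero])
    rw [f1, f2, f3]
    linear_combination (∏ μ ∈ (tan A x y D P).erase δ₁, (δ₁ - μ)) *
      (∏ w ∈ A.erase P, (δ₁ - sl x y P w)) * f4
  have hB1 : ∀ P ∈ A, (∏ w ∈ A.erase P, (b P - b w)) * ∏ β ∈ B \ A.image b, (b P - β) = κ := by
    intro P hP
    rw [← hκ (b P) (hB P hP)]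
    have g1 : ∏ w ∈ A.erase P, (b P - b w) = ∏ β ∈ (A.erase P).image b, (b P - β) := by
      rw [Finset.prod_image]
      intro u hu v hv huv
      exact hbinj (Finset.mem_coe.2 (Finset.mem_of_mem_erase hu))
        (Finset.mem_coe.2 (Finset.mem_of_mem_erase hv)) huv
    rw [g1, ← Finset.prod_union]
    · refine Finset.prod_congr ?_ fun _ _ => rfl
      ext s
      simp only [Finset.mem_erase, Finset.mem_union, Finset.mem_sdiff, Finset.mem_image]
      constructor
      · rintro (⟨w, ⟨hwP, hw⟩, rfl⟩ | ⟨hs, h4⟩)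
        · exact ⟨fun h => hwP (hbinj (Finset.mem_coe.2 hw) (Finset.mem_coe.2 hP) h), hB w hw⟩
        · exact ⟨fun h => h4 ⟨P, hP, h.symm⟩, hs⟩
      · rintro ⟨hs, hsB⟩
        by_cases h6 : ∃ a ∈ A, b a = s
        · obtain ⟨a, ha, rfl⟩ := h6
          exact Or.inl ⟨a, ⟨fun h => hs (by rw [h]), ha⟩, rfl⟩
        · exact Or.inr ⟨hsB, h6⟩
    · rw [Finset.disjoint_left]
      intro s hs hs'
      obtain ⟨w, hw, rfl⟩ := Finset.mem_image.1 hs
      exact (Finset.mem_sdiff.1 hs').2 (Finset.mem_image_of_mem b (Finset.mem_of_mem_erase hw))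
  set c : L := (δ₁ - δ₂) * (δ₁ - δ₃) with hc
  have hkey : ∀ P ∈ A, Q0 ^ 2 * (∏ β ∈ B \ A.image b, (b P - β)) ^ 2 =
      (c * κ) ^ 2 * ((q P).eval δ₁) ^ 2 := by
    intro P hP
    have g1 := hq1 P hP
    have g2 := hB1 P hP
    have g3 : ∏ w ∈ A.erase P, (b w - b P) =
        (-1) ^ (A.erase P).card * ∏ w ∈ A.erase P, (b P - b w) := by
      rw [← Finset.prod_const, ← Finset.prod_mul_distrib]
      refine Finset.prod_congr rfl fun w _ => ?_
      ring
    rw [g3] at g1
    have g4 : ((-1 : L) ^ (A.erase P).card) ^ 2 = 1 := by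
      rw [← pow_mul, mul_comm, pow_mul]
      simp
    rw [← g1, ← g2]
    linear_combination ((q P).eval δ₁ * c * (∏ w ∈ A.erase P, (b P - b w)) *
      (∏ β ∈ B \ A.image b, (b P - β))) ^ 2 * g4
  -- the contradiction
  have hcardB : (B \ A.image b).card + A.card = B.card := by
    have g1 : A.image b ⊆ B := by
      intro s hs
      obtain ⟨P, hP, rfl⟩ := Finset.mem_image.1 hs
      exact hB P hP
    have g2 := Finset.card_sdiff_add_card_eq_card g1
    rwa [Finset.card_image_of_injOn hbinj] at g2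
  set R : L[X] := ∏ β ∈ B \ A.image b, (X - C β) with hR
  have hRmonic : R.Monic := monic_prod_of_monic _ _ fun β _ => monic_X_sub_C β
  have hRdeg : R.natDegree = (B \ A.image b).card := by
    rw [hR, natDegree_prod_of_monic _ _ fun μ _ => monic_X_sub_C μ]
    simp
  have hLdeg : (C (Q0 ^ 2) * R ^ 2).natDegree = 2 * (B \ A.image b).card := by
    rw [natDegree_C_mul (pow_ne_zero 2 hQ0), hRmonic.natDegree_pow, hRdeg]
  have hRd : (C ((c * κ) ^ 2) * G6.map (evalRingHom δ₁)).natDegree ≤ 2 * s :=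
    (natDegree_C_mul_le _ _).trans (hG6.map_natDegree δ₁)
  have hzero : C (Q0 ^ 2) * R ^ 2 - C ((c * κ) ^ 2) * G6.map (evalRingHom δ₁) = 0 := by
    refine eq_zero_of_natDegree_lt_card_of_eval_eq_zero' _ (A.image b) ?_ ?_
    · intro β hβ
      obtain ⟨P, hP, rfl⟩ := Finset.mem_image.1 hβ
      have g1 : b P = (ln x y P).eval δ₁ := (ln_eval P δ₁).symm
      have g2 : (G6.map (evalRingHom δ₁)).eval (b P) = ((q P).eval δ₁) ^ 2 := by
        rw [g1, map_eval, hGe6 P hP, eval_pow]
      have g3 : R.eval (b P) = ∏ β ∈ B \ A.image b, (b P - β) := by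
        rw [hR, eval_prod]
        exact Finset.prod_congr rfl fun μ _ => by simp
      rw [eval_sub, eval_mul, eval_mul, eval_C, eval_C, eval_pow, g2, g3, hkey P hP, sub_self]
    · rw [Finset.card_image_of_injOn hbinj]
      refine lt_of_le_of_lt (natDegree_sub_le _ _) ?_
      rw [hLdeg, max_lt_iff]
      constructor <;> omega
  have h5 : C (Q0 ^ 2) * R ^ 2 = C ((c * κ) ^ 2) * G6.map (evalRingHom δ₁) := sub_eq_zero.1 hzero
  rw [h5] at hLdeg
  omega

end Arc

/-! ### The affine plane over a prime field -/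

section Plane

variable {p : ℕ} [Fact p.Prime]

/-- The linear functional constant on the lines of a direction: `none` is the horizontal
direction, `some a` the direction with functional `x - a y`. -/
def lin (o : Option (ZMod p)) (P : ZMod p × ZMod p) : ZMod p :=
  match o with
  | none => P.2
  | some a => P.1 - a * P.2

/-- No three points of `A` are collinear over the field with `p` elements. -/
def NoThreeMod (A : Finset (ZMod p × ZMod p)) : Prop :=
  ∀ P ∈ A, ∀ Q ∈ A, ∀ R ∈ A, P ≠ Q → P ≠ R → Q ≠ R →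
    (Q.1 - P.1) * (R.2 - P.2) ≠ (Q.2 - P.2) * (R.1 - P.1)

/-- The big field. -/
abbrev K (p : ℕ) [Fact p.Prime] : Type := AlgebraicClosure (ZMod p)

/-- The embedding. -/
noncomputable def em (p : ℕ) [Fact p.Prime] : ZMod p →+* K p := algebraMap (ZMod p) (K p)

theorem exists_theta : ∃ θ : K p, ∀ a : ZMod p, em p a ≠ θ := by
  by_contra h
  push Not at h
  have hs : Function.Surjective (em p) := h
  have : Finite (K p) := Finite.of_surjective _ hs
  exact not_finite (K p)

theorem theta_indep {θ : K p} (hθ : ∀ a : ZMod p, em p a ≠ θ) {a b : ZMod p}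
    (h : em p a + θ * em p b = 0) : a = 0 ∧ b = 0 := by
  have hb : b = 0 := by
    by_contra hb
    have hb' : em p b ≠ 0 := fun h' => hb ((map_eq_zero (em p)).1 h')
    apply hθ (-a / b)
    rw [map_div₀, map_neg]
    field_simp
    linear_combination -h
  refine ⟨?_, hb⟩
  rw [hb, map_zero, mul_zero, add_zero] at h
  exact (map_eq_zero (em p)).1 h

/-- The slope parameter of a direction. -/
noncomputable def dir (θ : K p) (o : Option (ZMod p)) : K p :=
  match o with
  | none => 0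
  | some a => (em p a + θ)⁻¹

theorem theta_add {θ : K p} (hθ : ∀ a : ZMod p, em p a ≠ θ) (a : ZMod p) : em p a + θ ≠ 0 := by
  intro h
  have := theta_indep hθ (a := a) (b := 1) (by rw [map_one, mul_one]; exact h)
  exact one_ne_zero this.2

theorem dir_inj {θ : K p} (hθ : ∀ a : ZMod p, em p a ≠ θ) : Function.Injective (dir θ) := by
  intro o o' h
  rcases o with _ | a <;> rcases o' with _ | b
  · rfl
  · exact absurd h.symm (inv_ne_zero (theta_add hθ b))
  · exact absurd h (inv_ne_zero (theta_add hθ a))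
  · have h1 : em p a + θ = em p b + θ := inv_injective h
    have h2 : em p a = em p b := add_right_cancel h1
    rw [(em p).injective h2]

/-- The new abscissa. -/
noncomputable def xx (θ : K p) (P : ZMod p × ZMod p) : K p := em p P.1 + θ * em p P.2

/-- The ordinate. -/
noncomputable def yy (P : ZMod p × ZMod p) : K p := em p P.2

theorem sl_eq_dir {θ : K p} (hθ : ∀ a : ZMod p, em p a ≠ θ) {P w : ZMod p × ZMod p}
    (hne : P ≠ w) (o : Option (ZMod p)) :
    sl (xx θ) yy P w = dir θ o ↔ lin o P = lin o w := by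
  have hx : xx θ P - xx θ w ≠ 0 := by
    intro h
    have h1 : em p (P.1 - w.1) + θ * em p (P.2 - w.2) = 0 := by
      rw [map_sub, map_sub]
      unfold xx at h
      linear_combination h
    obtain ⟨h2, h3⟩ := theta_indep hθ h1
    exact hne (Prod.ext (sub_eq_zero.1 h2) (sub_eq_zero.1 h3))
  unfold sl
  rw [div_eq_iff hx]
  rcases o with _ | a
  · change yy P - yy w = 0 * _ ↔ P.2 = w.2
    rw [zero_mul, sub_eq_zero]
    exact (em p).injective.eq_iff
  · change yy P - yy w = (em p a + θ)⁻¹ * _ ↔ P.1 - a * P.2 = w.1 - a * w.2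
    rw [eq_inv_mul_iff_mul_eq₀ (theta_add hθ a)]
    unfold xx yy
    constructor
    · intro h
      apply (em p).injective
      simp only [map_sub, map_mul]
      linear_combination -h
    · intro h
      have h1 := congrArg (em p) h
      simp only [map_sub, map_mul] at h1
      linear_combination -h1

open Classical in
theorem isArc {θ : K p} (hθ : ∀ a : ZMod p, em p a ≠ θ) {A : Finset (ZMod p × ZMod p)}
    (hA : NoThreeMod A) : IsArc A (xx θ) yy (Finset.univ.image (dir θ)) where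
  hx := by
    intro P hP w hw hne h
    have h1 : em p (P.1 - w.1) + θ * em p (P.2 - w.2) = 0 := by
      rw [map_sub, map_sub]
      unfold xx at h
      linear_combination h
    obtain ⟨h2, h3⟩ := theta_indep hθ h1
    exact hne (Prod.ext (sub_eq_zero.1 h2) (sub_eq_zero.1 h3))
  hD := by
    intro P hP w hw hne
    rw [Finset.mem_image]
    by_cases h : P.2 = w.2
    · exact ⟨none, Finset.mem_univ _, ((sl_eq_dir hθ hne none).2 h).symm⟩
    · refine ⟨some ((P.1 - w.1) / (P.2 - w.2)), Finset.mem_univ _,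
        ((sl_eq_dir hθ hne _).2 ?_).symm⟩
      change P.1 - (P.1 - w.1) / (P.2 - w.2) * P.2 = w.1 - (P.1 - w.1) / (P.2 - w.2) * w.2
      have h1 : P.2 - w.2 ≠ 0 := sub_ne_zero.2 h
      field_simp
      ring
  hdet := by
    intro P hP w hw w' hw' h1 h2 h3
    have h4 := hA P hP w hw w' hw' h1 h2 h3
    intro h5
    apply h4
    apply (em p).injective
    unfold det xx yy at h5
    simp only [map_sub, map_mul]
    linear_combination -h5

/-- The number of lines of a direction which meet `A`. -/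
def nl (o : Option (ZMod p)) (A : Finset (ZMod p × ZMod p)) : ℕ := (A.image (lin o)).card

/-- Counting the points which are alone on their line. -/
theorem count_alone {α β : Type*} [DecidableEq α] [DecidableEq β] (A U : Finset α) (f : α → β)
    (hU : ∀ P, P ∈ U ↔ P ∈ A ∧ ∀ w ∈ A, w ≠ P → f w ≠ f P) :
    2 * (A.image f).card ≤ U.card + A.card := by
  have hUA : U ⊆ A := fun P hP => ((hU P).1 hP).1
  have h1 : (A.image f).card ≤ U.card + ((A \ U).image f).card := by
    have h2 : A.image f ⊆ U.image f ∪ (A \ U).image f := by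
      intro b hb
      obtain ⟨P, hP, rfl⟩ := Finset.mem_image.1 hb
      by_cases h : P ∈ U
      · exact Finset.mem_union_left _ (Finset.mem_image_of_mem f h)
      · exact Finset.mem_union_right _ (Finset.mem_image_of_mem f (Finset.mem_sdiff.2 ⟨hP, h⟩))
    refine (Finset.card_le_card h2).trans ((Finset.card_union_le _ _).trans ?_)
    exact Nat.add_le_add_right Finset.card_image_le _
  have h3 : 2 * ((A \ U).image f).card ≤ (A \ U).card := by
    refine Finset.mul_card_image_le_card _ 2 fun b hb => ?_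
    obtain ⟨P, hP, rfl⟩ := Finset.mem_image.1 hb
    rw [Finset.mem_sdiff] at hP
    have h4 : ∃ w ∈ A, w ≠ P ∧ f w = f P := by
      by_contra h
      push Not at h
      exact hP.2 ((hU P).2 ⟨hP.1, h⟩)
    obtain ⟨w, hw, hne, hfw⟩ := h4
    have h5 : w ∉ U := by
      intro h
      rw [hU] at h
      exact h.2 P hP.1 hne.symm hfw.symm
    have h6 : ({w, P} : Finset α) ⊆ (A \ U).filter fun x => f x = f P := by
      intro v hv
      rw [Finset.mem_insert, Finset.mem_singleton] at hv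
      rcases hv with rfl | rfl
      · exact Finset.mem_filter.2 ⟨Finset.mem_sdiff.2 ⟨hw, h5⟩, hfw⟩
      · exact Finset.mem_filter.2 ⟨Finset.mem_sdiff.2 ⟨hP.1, hP.2⟩, rfl⟩
    have h7 := Finset.card_le_card h6
    rwa [Finset.card_pair hne] at h7
  have h8 : (A \ U).card + U.card = A.card :=
    Finset.card_sdiff_add_card_eq_card hUA
  omega

open Classical in
theorem alone_tan {θ : K p} (hθ : ∀ a : ZMod p, em p a ≠ θ) {A : Finset (ZMod p × ZMod p)}
    (P : ZMod p × ZMod p) (o : Option (ZMod p)) :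
    dir θ o ∈ tan A (xx θ) yy (Finset.univ.image (dir θ)) P ↔
      ∀ w ∈ A, w ≠ P → lin o w ≠ lin o P := by
  unfold tan
  rw [Finset.mem_sdiff]
  constructor
  · rintro ⟨_, h⟩ w hw hne heq
    apply h
    refine Finset.mem_image.2 ⟨w, Finset.mem_erase.2 ⟨hne, hw⟩, ?_⟩
    exact (sl_eq_dir hθ hne.symm o).2 heq.symm
  · intro h
    refine ⟨Finset.mem_image_of_mem _ (Finset.mem_univ o), fun h1 => ?_⟩
    obtain ⟨w, hw, h2⟩ := Finset.mem_image.1 h1
    rw [Finset.mem_erase] at hw
    exact h w hw.2 hw.1 ((sl_eq_dir hθ hw.1.symm o).1 h2).symm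

open Classical in
theorem card_dirs {θ : K p} (hθ : ∀ a : ZMod p, em p a ≠ θ) :
    (Finset.univ.image (dir θ)).card = p + 1 := by
  rw [Finset.card_image_of_injective _ (dir_inj hθ), Finset.card_univ, Fintype.card_option,
    ZMod.card]

/-- A direction with many tangents is a tangent direction at every point. -/
theorem heavy_all {A : Finset (ZMod p × ZMod p)} (hA : NoThreeMod A) (o : Option (ZMod p))
    (h : 2 * p + 5 ≤ 2 * nl o A + A.card) (hk : A.card ≤ p + 2) :
    ∀ P ∈ A, ∀ w ∈ A, w ≠ P → lin o w ≠ lin o P := by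
  classical
  obtain ⟨θ, hθ⟩ := exists_theta (p := p)
  have hArc := isArc hθ hA
  obtain ⟨t, ht⟩ : ∃ t, t + A.card = p + 2 := ⟨p + 2 - A.card, by omega⟩
  have h1 := count_alone A (A.filter fun P => dir θ o ∈ tan A (xx θ) yy
    (Finset.univ.image (dir θ)) P) (lin o) (by
      intro P
      rw [Finset.mem_filter, alone_tan hθ P o])
  have h2 := tan_all hArc t (by rw [card_dirs hθ]; exact ht) (dir θ o) (by
    unfold nl at h
    omega)
  intro P hP
  exact (alone_tan hθ P o).1 (h2 P hP)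

/-- The number of points of an arc. -/
theorem card_le {A : Finset (ZMod p × ZMod p)} (hA : NoThreeMod A) : A.card ≤ p + 2 := by
  classical
  obtain ⟨θ, hθ⟩ := exists_theta (p := p)
  have hArc := isArc hθ hA
  rcases A.eq_empty_or_nonempty with h | ⟨P, hP⟩
  · rw [h, Finset.card_empty]
    omega
  · have h1 := card_tan hArc hP
    rw [card_dirs hθ] at h1
    omega

/-- The factor of the classes of a direction. -/
noncomputable def fac (θ : K p) (o : Option (ZMod p)) : K p :=
  match o with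
  | none => 1
  | some a => -(em p a + θ)⁻¹

theorem fac_ne {θ : K p} (hθ : ∀ a : ZMod p, em p a ≠ θ) (o : Option (ZMod p)) :
    fac θ o ≠ 0 := by
  rcases o with _ | a
  · exact one_ne_zero
  · exact neg_ne_zero.2 (inv_ne_zero (theta_add hθ a))

theorem fac_lin {θ : K p} (hθ : ∀ a : ZMod p, em p a ≠ θ) (o : Option (ZMod p))
    (P : ZMod p × ZMod p) : yy P - dir θ o * xx θ P = fac θ o * em p (lin o P) := by
  rcases o with _ | a
  · change yy P - 0 * xx θ P = 1 * em p P.2
    unfold yy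
    ring
  · change yy P - (em p a + θ)⁻¹ * xx θ P = -(em p a + θ)⁻¹ * em p (P.1 - a * P.2)
    have h := theta_add hθ a
    unfold yy xx
    rw [map_sub, map_mul]
    field_simp
    ring

/-- **At most two directions** have many tangents. -/
theorem not_three {A : Finset (ZMod p × ZMod p)} (hA : NoThreeMod A)
    (o₁ o₂ o₃ : Option (ZMod p)) (h12 : o₁ ≠ o₂) (h13 : o₁ ≠ o₃) (h23 : o₂ ≠ o₃)
    (h₁ : 2 * p + 5 ≤ 2 * nl o₁ A + A.card) (h₂ : 2 * p + 5 ≤ 2 * nl o₂ A + A.card)
    (h₃ : 2 * p + 5 ≤ 2 * nl o₃ A + A.card) : False := by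
  classical
  obtain ⟨θ, hθ⟩ := exists_theta (p := p)
  have hArc := isArc hθ hA
  have hk := card_le hA
  obtain ⟨t, ht⟩ : ∃ t, t + A.card = p + 2 := ⟨p + 2 - A.card, by omega⟩
  have hn : nl o₁ A ≤ A.card := Finset.card_image_le
  have hall : ∀ o, 2 * p + 5 ≤ 2 * nl o A + A.card → ∀ P ∈ A,
      dir θ o ∈ tan A (xx θ) yy (Finset.univ.image (dir θ)) P := by
    intro o ho P hP
    exact (alone_tan hθ P o).2 (heavy_all hA o ho hk P hP)
  have hinj : Function.Injective fun a : ZMod p => fac θ o₁ * em p a := by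
    intro a b h
    exact (em p).injective (mul_left_cancel₀ (fac_ne hθ o₁) h)
  refine no_three hArc t (by rw [card_dirs hθ]; exact ht) (by omega) (dir θ o₁) (dir θ o₂)
    (dir θ o₃) (fun h => h12 (dir_inj hθ h)) (fun h => h13 (dir_inj hθ h))
    (fun h => h23 (dir_inj hθ h)) (hall o₁ h₁) (hall o₂ h₂) (hall o₃ h₃)
    (Finset.univ.image fun a : ZMod p => fac θ o₁ * em p a) ?_
    (∏ a ∈ Finset.univ.erase (0 : ZMod p), (fac θ o₁ * em p a)) ?_ ?_
  · intro P _
    rw [fac_lin hθ]
    exact Finset.mem_image_of_mem _ (Finset.mem_univ _)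
  · intro β hβ
    obtain ⟨a, _, rfl⟩ := Finset.mem_image.1 hβ
    have h1 : (Finset.univ.image fun a : ZMod p => fac θ o₁ * em p a).erase
        (fac θ o₁ * em p a) = (Finset.univ.erase a).image fun a : ZMod p => fac θ o₁ * em p a := by
      ext s
      simp only [Finset.mem_erase, Finset.mem_image, Finset.mem_univ, true_and, and_true]
      constructor
      · rintro ⟨hs, b, rfl⟩
        exact ⟨b, fun h => hs (by rw [h]), rfl⟩
      · rintro ⟨b, hb, rfl⟩
        exact ⟨fun h => hb (hinj h), b, rfl⟩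
    rw [h1, Finset.prod_image fun _ _ _ _ h => hinj h]
    refine Finset.prod_bij' (fun u _ => a - u) (fun v _ => a - v) ?_ ?_ ?_ ?_ ?_
    · intro u hu
      rw [Finset.mem_erase] at hu ⊢
      exact ⟨sub_ne_zero.2 hu.1.symm, Finset.mem_univ _⟩
    · intro v hv
      rw [Finset.mem_erase] at hv ⊢
      refine ⟨fun h => hv.1 ?_, Finset.mem_univ _⟩
      linear_combination -h
    · intro u _
      ring
    · intro v _
      ring
    · intro u _
      rw [map_sub]
      ring
  · rw [card_dirs hθ, Finset.card_image_of_injective _ hinj, Finset.card_univ, ZMod.card]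

end Plane

end Pool.Agent.Helper30.ArcA
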