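import Pool.Agent.Helper30.ArcA
import Pool.Agent.Results.MP_958251_co.OneConic

set_option autoImplicit false

/-!
# Lifts of arcs to the integer grid
-/

namespace Pool.Agent.Helper30.ArcB

open Pool.Agent.Helper30.ArcA
open Pool.Agent.Results.MP_958251_co.OneConic (InGrid NoThree diffRes sumRes)

/-- The residue of a lattice point. -/
def res (p : ℕ) (P : ℕ × ℕ) : ZMod p × ZMod p := ((P.1 : ZMod p), (P.2 : ZMod p))

theorem two_of_three {T : Finset (ℕ × ℕ)} (hT : NoThree T) (f : ℕ × ℕ → ℤ)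
    (hf : ∀ P ∈ T, ∀ Q ∈ T, ∀ R ∈ T, f P = f Q → f P = f R →
      ((Q.1 : ℤ) - P.1) * ((R.2 : ℤ) - P.2) = ((Q.2 : ℤ) - P.2) * ((R.1 : ℤ) - P.1)) (t : ℤ) :
    (T.filter fun P => f P = t).card ≤ 2 := by
  by_contra h
  push Not at h
  obtain ⟨P, hP, Q, hQ, R, hR, h1, h2, h3⟩ := Finset.two_lt_card.1 h
  rw [Finset.mem_filter] at hP hQ hR
  exact hT P hP.1 Q hQ.1 R hR.1 h1 h2 h3
    (hf P hP.1 Q hQ.1 R hR.1 (hP.2.trans hQ.2.symm) (hP.2.trans hR.2.symm))

theorem row_two {T : Finset (ℕ × ℕ)} (hT : NoThree T) (t : ℕ) :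
    (T.filter fun P => P.2 = t).card ≤ 2 := by
  have h := two_of_three hT (fun P => (P.2 : ℤ)) (by
    intro P _ Q _ R _ h1 h2
    rw [← h1, ← h2]
    ring) (t : ℤ)
  simpa using h

theorem col_two {T : Finset (ℕ × ℕ)} (hT : NoThree T) (t : ℕ) :
    (T.filter fun P => P.1 = t).card ≤ 2 := by
  have h := two_of_three hT (fun P => (P.1 : ℤ)) (by
    intro P _ Q _ R _ h1 h2
    rw [← h1, ← h2]
    ring) (t : ℤ)
  simpa using h

theorem diag_two {T : Finset (ℕ × ℕ)} (hT : NoThree T) (t : ℤ) :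
    (T.filter fun P => (P.1 : ℤ) - P.2 = t).card ≤ 2 := by
  refine two_of_three hT (fun P => (P.1 : ℤ) - P.2) (fun P _ Q _ R _ h1 h2 => ?_) t
  have e1 : (Q.1 : ℤ) - P.1 = Q.2 - P.2 := by linarith
  have e2 : (R.1 : ℤ) - P.1 = R.2 - P.2 := by linarith
  rw [e1, e2]

variable {p : ℕ} [Fact p.Prime]

theorem p_pos : 0 < p := (Fact.out : p.Prime).pos

theorem cast_inj {a b : ℕ} (h : (a : ZMod p) = (b : ZMod p)) (hq : a / p = b / p) : a = b := by
  rw [ZMod.natCast_eq_natCast_iff] at h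
  have h1 : a % p = b % p := h
  rw [← Nat.div_add_mod a p, ← Nat.div_add_mod b p, h1, hq]

theorem count_res {n : ℕ} (R : Finset (ZMod p)) (S : Finset ℕ) (hS : ∀ y ∈ S, y < n)
    (hR : ∀ y ∈ S, (y : ZMod p) ∈ R) : S.card ≤ (n / p) * R.card + n % p := by
  classical
  have hp := p_pos (p := p)
  have h1 : (S.filter fun y => y / p < n / p).card ≤ (n / p) * R.card := by
    have h2 : ((S.filter fun y => y / p < n / p).image fun y : ℕ => (y / p, (y : ZMod p))).card ≤
        (Finset.range (n / p) ×ˢ R).card := by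
      refine Finset.card_le_card fun z hz => ?_
      obtain ⟨y, hy, rfl⟩ := Finset.mem_image.1 hz
      rw [Finset.mem_filter] at hy
      exact Finset.mem_product.2 ⟨Finset.mem_range.2 hy.2, hR y hy.1⟩
    rw [Finset.card_product, Finset.card_range, Finset.card_image_of_injOn] at h2
    · exact h2
    · intro a _ b _ h
      have h3 : (a / p, (a : ZMod p)) = (b / p, (b : ZMod p)) := h
      rw [Prod.mk.injEq] at h3
      exact cast_inj h3.2 h3.1
  have h2 : (S.filter fun y => ¬ y / p < n / p).card ≤ n % p := by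
    have h3 : (S.filter fun y => ¬ y / p < n / p) ⊆ Finset.Ico (p * (n / p)) n := by
      intro y hy
      rw [Finset.mem_filter] at hy
      rw [Finset.mem_Ico]
      refine ⟨?_, hS y hy.1⟩
      have h4 : n / p ≤ y / p := not_lt.1 hy.2
      calc p * (n / p) ≤ p * (y / p) := Nat.mul_le_mul_left p h4
        _ ≤ y := Nat.mul_div_le y p
    have h4 := Finset.card_le_card h3
    rw [Nat.card_Ico] at h4
    have h5 := Nat.div_add_mod n p
    omega
  have h3 := Finset.card_filter_add_card_filter_not (s := S) fun y => y / p < n / p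
  omega

theorem rows {n : ℕ} {T : Finset (ℕ × ℕ)} (hn : InGrid n T) (hT : NoThree T) :
    T.card ≤ 2 * ((n / p) * nl none (T.image (res p)) + n % p) := by
  classical
  have h1 : T.card ≤ 2 * (T.image Prod.snd).card :=
    Finset.card_le_mul_card_image T 2 fun t _ => row_two hT t
  have h2 := count_res (n := n) ((T.image (res p)).image (lin none)) (T.image Prod.snd)
    (by
      intro y hy
      obtain ⟨P, hP, rfl⟩ := Finset.mem_image.1 hy
      exact (hn P hP).2)
    (by
      intro y hy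
      obtain ⟨P, hP, rfl⟩ := Finset.mem_image.1 hy
      exact Finset.mem_image.2 ⟨res p P, Finset.mem_image_of_mem _ hP, rfl⟩)
  unfold nl
  omega

theorem cols {n : ℕ} {T : Finset (ℕ × ℕ)} (hn : InGrid n T) (hT : NoThree T) :
    T.card ≤ 2 * ((n / p) * nl (some 0) (T.image (res p)) + n % p) := by
  classical
  have h1 : T.card ≤ 2 * (T.image Prod.fst).card :=
    Finset.card_le_mul_card_image T 2 fun t _ => col_two hT t
  have h2 := count_res (n := n) ((T.image (res p)).image (lin (some 0))) (T.image Prod.fst)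
    (by
      intro y hy
      obtain ⟨P, hP, rfl⟩ := Finset.mem_image.1 hy
      exact (hn P hP).1)
    (by
      intro y hy
      obtain ⟨P, hP, rfl⟩ := Finset.mem_image.1 hy
      refine Finset.mem_image.2 ⟨res p P, Finset.mem_image_of_mem _ hP, ?_⟩
      change (P.1 : ZMod p) - 0 * (P.2 : ZMod p) = _
      ring)
  unfold nl
  omega

/-- If both coordinates are injective on the residues then few rows can be used twice. -/
theorem corner {n : ℕ} {T : Finset (ℕ × ℕ)} (hn : InGrid n T) (hn2 : n ≤ 2 * p)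
    (hx : ∀ P ∈ T, ∀ Q ∈ T, (P.1 : ZMod p) = Q.1 → (P.2 : ZMod p) = Q.2)
    (hy : ∀ P ∈ T, ∀ Q ∈ T, (P.2 : ZMod p) = Q.2 → (P.1 : ZMod p) = Q.1) :
    T.card ≤ p + 3 * (n - p) := by
  classical
  have hp := p_pos (p := p)
  have hlt : ∀ a : ℕ, a < p → a / p = 0 := fun a ha => Nat.div_eq_of_lt ha
  have hge : ∀ a : ℕ, p ≤ a → a < n → a / p = 1 := fun a ha ha' => by
    refine Nat.div_eq_of_lt_le ?_ ?_
    · omega
    · omega
  have h00 : (T.filter fun P => P.1 < p ∧ P.2 < p).card ≤ p := by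
    have h1 : ((T.filter fun P => P.1 < p ∧ P.2 < p).image fun P => P.1).card ≤
        (Finset.range p).card := by
      refine Finset.card_le_card fun z hz => ?_
      obtain ⟨P, hP, rfl⟩ := Finset.mem_image.1 hz
      exact Finset.mem_range.2 (Finset.mem_filter.1 hP).2.1
    rw [Finset.card_range, Finset.card_image_of_injOn] at h1
    · exact h1
    · intro P hP Q hQ h
      rw [Finset.mem_coe, Finset.mem_filter] at hP hQ
      change P.1 = Q.1 at h
      refine Prod.ext h (cast_inj (hx P hP.1 Q hQ.1 (by rw [h])) ?_)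
      rw [hlt _ hP.2.2, hlt _ hQ.2.2]
  have h10 : (T.filter fun P => ¬ P.1 < p ∧ P.2 < p).card ≤ n - p := by
    have h1 : ((T.filter fun P => ¬ P.1 < p ∧ P.2 < p).image fun P => P.1).card ≤
        (Finset.Ico p n).card := by
      refine Finset.card_le_card fun z hz => ?_
      obtain ⟨P, hP, rfl⟩ := Finset.mem_image.1 hz
      rw [Finset.mem_filter] at hP
      exact Finset.mem_Ico.2 ⟨not_lt.1 hP.2.1, (hn P hP.1).1⟩
    rw [Nat.card_Ico, Finset.card_image_of_injOn] at h1
    · exact h1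
    · intro P hP Q hQ h
      rw [Finset.mem_coe, Finset.mem_filter] at hP hQ
      change P.1 = Q.1 at h
      refine Prod.ext h (cast_inj (hx P hP.1 Q hQ.1 (by rw [h])) ?_)
      rw [hlt _ hP.2.2, hlt _ hQ.2.2]
  have h11 : (T.filter fun P => ¬ P.1 < p ∧ ¬ P.2 < p).card ≤ n - p := by
    have h1 : ((T.filter fun P => ¬ P.1 < p ∧ ¬ P.2 < p).image fun P => P.1).card ≤
        (Finset.Ico p n).card := by
      refine Finset.card_le_card fun z hz => ?_
      obtain ⟨P, hP, rfl⟩ := Finset.mem_image.1 hz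
      rw [Finset.mem_filter] at hP
      exact Finset.mem_Ico.2 ⟨not_lt.1 hP.2.1, (hn P hP.1).1⟩
    rw [Nat.card_Ico, Finset.card_image_of_injOn] at h1
    · exact h1
    · intro P hP Q hQ h
      rw [Finset.mem_coe, Finset.mem_filter] at hP hQ
      change P.1 = Q.1 at h
      refine Prod.ext h (cast_inj (hx P hP.1 Q hQ.1 (by rw [h])) ?_)
      rw [hge _ (not_lt.1 hP.2.2) (hn P hP.1).2, hge _ (not_lt.1 hQ.2.2) (hn Q hQ.1).2]
  have h01 : (T.filter fun P => P.1 < p ∧ ¬ P.2 < p).card ≤ n - p := by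
    have h1 : ((T.filter fun P => P.1 < p ∧ ¬ P.2 < p).image fun P => P.2).card ≤
        (Finset.Ico p n).card := by
      refine Finset.card_le_card fun z hz => ?_
      obtain ⟨P, hP, rfl⟩ := Finset.mem_image.1 hz
      rw [Finset.mem_filter] at hP
      exact Finset.mem_Ico.2 ⟨not_lt.1 hP.2.2, (hn P hP.1).2⟩
    rw [Nat.card_Ico, Finset.card_image_of_injOn] at h1
    · exact h1
    · intro P hP Q hQ h
      rw [Finset.mem_coe, Finset.mem_filter] at hP hQ
      change P.2 = Q.2 at h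
      refine Prod.ext (cast_inj (hy P hP.1 Q hQ.1 (by rw [h])) ?_) h
      rw [hlt _ hP.2.1, hlt _ hQ.2.1]
  have e1 := Finset.card_filter_add_card_filter_not (s := T) fun P => P.1 < p
  have e2 := Finset.card_filter_add_card_filter_not (s := T.filter fun P => P.1 < p)
    fun P => P.2 < p
  have e3 := Finset.card_filter_add_card_filter_not (s := T.filter fun P => ¬ P.1 < p)
    fun P => P.2 < p
  rw [Finset.filter_filter, Finset.filter_filter] at e2 e3
  omega

theorem lift_cases {a : ZMod p} {m : ℕ} (hm : m < 2 * p) (h : (m : ZMod p) = a) :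
    m = a.val ∨ m = a.val + p := by
  have h1 : a.val = m % p := by rw [← h, ZMod.val_natCast]
  have h2 := Nat.div_add_mod m p
  have h3 : m / p < 2 := Nat.div_lt_of_lt_mul (by omega)
  have h4 : m / p = 0 ∨ m / p = 1 := by
    generalize m / p = q at h3
    omega
  rcases h4 with h4 | h4
  · rw [h4, mul_zero] at h2
    omega
  · rw [h4, mul_one] at h2
    omega

theorem diff_cases {a b : ZMod p × ZMod p} (h : a.1 - a.2 = b.1 - b.2) :
    ((b.1.val : ℤ) - b.2.val = (a.1.val : ℤ) - a.2.val) ∨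
    ((b.1.val : ℤ) - b.2.val = (a.1.val : ℤ) - a.2.val + p) ∨
    ((b.1.val : ℤ) - b.2.val = (a.1.val : ℤ) - a.2.val - p) := by
  have h1 : ((((b.1.val : ℤ) - b.2.val) - ((a.1.val : ℤ) - a.2.val) : ℤ) : ZMod p) = 0 := by
    push_cast
    rw [ZMod.natCast_zmod_val, ZMod.natCast_zmod_val, ZMod.natCast_zmod_val,
      ZMod.natCast_zmod_val, h, sub_self]
  rw [ZMod.intCast_zmod_eq_zero_iff_dvd] at h1
  obtain ⟨c, hc⟩ := h1
  have b1 := ZMod.val_lt a.1
  have b2 := ZMod.val_lt a.2
  have b3 := ZMod.val_lt b.1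
  have b4 := ZMod.val_lt b.2
  have hp : (0 : ℤ) < p := by exact_mod_cast p_pos (p := p)
  have hc1 : c < 2 := by
    by_contra hlt
    push Not at hlt
    have : (p : ℤ) * 2 ≤ p * c := mul_le_mul_of_nonneg_left hlt hp.le
    omega
  have hc2 : -2 < c := by
    by_contra hlt
    push Not at hlt
    have : (p : ℤ) * c ≤ p * (-2) := mul_le_mul_of_nonneg_left hlt hp.le
    omega
  have h3 : c = 0 ∨ c = 1 ∨ c = -1 := by omega
  rcases h3 with rfl | rfl | rfl
  · left
    linarith
  · right; left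
    linarith
  · right; right
    linarith

theorem class_bound {n : ℕ} {T : Finset (ℕ × ℕ)} (hn : InGrid n T) (hT : NoThree T)
    (hn2 : n ≤ 2 * p) (B : Finset (ZMod p × ZMod p)) (S : Finset (ℕ × ℕ)) (hS : S ⊆ T)
    (hres : ∀ P ∈ S, res p P ∈ B) (hcard : B.card ≤ 2)
    (hlin : ∀ a ∈ B, ∀ b ∈ B, a.1 - a.2 = b.1 - b.2) : S.card ≤ 2 + 2 * B.card := by
  classical
  have hp := p_pos (p := p)
  have hone : B.card ≤ 1 → S.card ≤ 4 := by
    intro h1
    have h2 : (S.image fun P => (P.1 / p, P.2 / p)).card ≤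
        (Finset.range 2 ×ˢ Finset.range 2).card := by
      refine Finset.card_le_card fun z hz => ?_
      obtain ⟨P, hP, rfl⟩ := Finset.mem_image.1 hz
      have h3 := hn P (hS hP)
      rw [Finset.mem_product, Finset.mem_range, Finset.mem_range]
      exact ⟨Nat.div_lt_of_lt_mul (by omega), Nat.div_lt_of_lt_mul (by omega)⟩
    rw [Finset.card_product, Finset.card_range, Finset.card_image_of_injOn] at h2
    · exact h2
    · intro P hP Q hQ h
      have h4 : (P.1 / p, P.2 / p) = (Q.1 / p, Q.2 / p) := h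
      rw [Prod.mk.injEq] at h4
      have h5 : res p P = res p Q :=
        Finset.card_le_one.1 h1 _ (hres P (Finset.mem_coe.1 hP)) _ (hres Q (Finset.mem_coe.1 hQ))
      unfold res at h5
      rw [Prod.mk.injEq] at h5
      exact Prod.ext (cast_inj h5.1 h4.1) (cast_inj h5.2 h4.2)
  have h012 : B.card = 0 ∨ B.card = 1 ∨ B.card = 2 := by omega
  rcases h012 with h0 | h0 | h0
  · have h1 : S = ∅ := by
      rw [Finset.eq_empty_iff_forall_notMem]
      intro P hP
      rw [Finset.card_eq_zero] at h0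
      have := hres P hP
      rw [h0] at this
      exact absurd this (Finset.notMem_empty _)
    rw [h1, Finset.card_empty]
    omega
  · have := hone (by omega)
    omega
  · rw [h0]
    obtain ⟨a, b, _, rfl⟩ := Finset.card_eq_two.1 h0
    have hcases : ∀ P ∈ S, ((P.1 = a.1.val ∨ P.1 = a.1.val + p) ∧
        (P.2 = a.2.val ∨ P.2 = a.2.val + p)) ∨ ((P.1 = b.1.val ∨ P.1 = b.1.val + p) ∧
        (P.2 = b.2.val ∨ P.2 = b.2.val + p)) := by
      intro P hP
      have h1 := hres P hP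
      have h2 := hn P (hS hP)
      rw [Finset.mem_insert, Finset.mem_singleton] at h1
      rcases h1 with h1 | h1
      · left
        have h3 : (P.1 : ZMod p) = a.1 := by rw [← h1]; rfl
        have h4 : (P.2 : ZMod p) = a.2 := by rw [← h1]; rfl
        exact ⟨lift_cases (by omega) h3, lift_cases (by omega) h4⟩
      · right
        have h3 : (P.1 : ZMod p) = b.1 := by rw [← h1]; rfl
        have h4 : (P.2 : ZMod p) = b.2 := by rw [← h1]; rfl
        exact ⟨lift_cases (by omega) h3, lift_cases (by omega) h4⟩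
    have hF := diag_two hT
    have hd := diff_cases (hlin a (Finset.mem_insert_self _ _) b
      (Finset.mem_insert_of_mem (Finset.mem_singleton_self _)))
    rcases hd with hd | hd | hd
    · have h1 : S ⊆ (T.filter fun P => (P.1 : ℤ) - P.2 = (a.1.val : ℤ) - a.2.val) ∪
          ((T.filter fun P => (P.1 : ℤ) - P.2 = (a.1.val : ℤ) - a.2.val + p) ∪
          (T.filter fun P => (P.1 : ℤ) - P.2 = (a.1.val : ℤ) - a.2.val - p)) := by
        intro P hP
        rw [Finset.mem_union, Finset.mem_union, Finset.mem_filter, Finset.mem_filter,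
          Finset.mem_filter]
        have h2 := hcases P hP
        have h3 := hS hP
        simp only [h3, true_and]
        rcases h2 with ⟨h2 | h2, h4 | h4⟩ | ⟨h2 | h2, h4 | h4⟩ <;> omega
      have h2 := Finset.card_le_card h1
      have h3 := Finset.card_union_le (T.filter fun P => (P.1 : ℤ) - P.2 = (a.1.val : ℤ) - a.2.val)
        ((T.filter fun P => (P.1 : ℤ) - P.2 = (a.1.val : ℤ) - a.2.val + p) ∪
          (T.filter fun P => (P.1 : ℤ) - P.2 = (a.1.val : ℤ) - a.2.val - p))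
      have h4 := Finset.card_union_le
        (T.filter fun P => (P.1 : ℤ) - P.2 = (a.1.val : ℤ) - a.2.val + p)
          (T.filter fun P => (P.1 : ℤ) - P.2 = (a.1.val : ℤ) - a.2.val - p)
      have h5 := hF ((a.1.val : ℤ) - a.2.val)
      have h6 := hF ((a.1.val : ℤ) - a.2.val + p)
      have h7 := hF ((a.1.val : ℤ) - a.2.val - p)
      omega
    · have h1 : S ⊆ (T.filter fun P => (P.1 : ℤ) - P.2 = (a.1.val : ℤ) - a.2.val) ∪
          ((T.filter fun P => (P.1 : ℤ) - P.2 = (a.1.val : ℤ) - a.2.val + p) ∪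
          {(a.1.val, a.2.val + p), (b.1.val + p, b.2.val)}) := by
        intro P hP
        rw [Finset.mem_union, Finset.mem_union, Finset.mem_filter, Finset.mem_filter,
          Finset.mem_insert, Finset.mem_singleton, Prod.ext_iff, Prod.ext_iff]
        have h2 := hcases P hP
        have h3 := hS hP
        simp only [h3, true_and]
        rcases h2 with ⟨h2 | h2, h4 | h4⟩ | ⟨h2 | h2, h4 | h4⟩ <;> omega
      have h2 := Finset.card_le_card h1
      have h3 := Finset.card_union_le (T.filter fun P => (P.1 : ℤ) - P.2 = (a.1.val : ℤ) - a.2.val)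
        ((T.filter fun P => (P.1 : ℤ) - P.2 = (a.1.val : ℤ) - a.2.val + p) ∪
          {(a.1.val, a.2.val + p), (b.1.val + p, b.2.val)})
      have h4 := Finset.card_union_le
        (T.filter fun P => (P.1 : ℤ) - P.2 = (a.1.val : ℤ) - a.2.val + p)
          {(a.1.val, a.2.val + p), (b.1.val + p, b.2.val)}
      have h5 := hF ((a.1.val : ℤ) - a.2.val)
      have h6 := hF ((a.1.val : ℤ) - a.2.val + p)
      have h7 : ({(a.1.val, a.2.val + p), (b.1.val + p, b.2.val)} : Finset (ℕ × ℕ)).card ≤ 2 :=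
        Finset.card_le_two
      omega
    · have h1 : S ⊆ (T.filter fun P => (P.1 : ℤ) - P.2 = (a.1.val : ℤ) - a.2.val) ∪
          ((T.filter fun P => (P.1 : ℤ) - P.2 = (a.1.val : ℤ) - a.2.val - p) ∪
          {(a.1.val + p, a.2.val), (b.1.val, b.2.val + p)}) := by
        intro P hP
        rw [Finset.mem_union, Finset.mem_union, Finset.mem_filter, Finset.mem_filter,
          Finset.mem_insert, Finset.mem_singleton, Prod.ext_iff, Prod.ext_iff]
        have h2 := hcases P hP
        have h3 := hS hP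
        simp only [h3, true_and]
        rcases h2 with ⟨h2 | h2, h4 | h4⟩ | ⟨h2 | h2, h4 | h4⟩ <;> omega
      have h2 := Finset.card_le_card h1
      have h3 := Finset.card_union_le (T.filter fun P => (P.1 : ℤ) - P.2 = (a.1.val : ℤ) - a.2.val)
        ((T.filter fun P => (P.1 : ℤ) - P.2 = (a.1.val : ℤ) - a.2.val - p) ∪
          {(a.1.val + p, a.2.val), (b.1.val, b.2.val + p)})
      have h4 := Finset.card_union_le
        (T.filter fun P => (P.1 : ℤ) - P.2 = (a.1.val : ℤ) - a.2.val - p)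
          {(a.1.val + p, a.2.val), (b.1.val, b.2.val + p)}
      have h5 := hF ((a.1.val : ℤ) - a.2.val)
      have h6 := hF ((a.1.val : ℤ) - a.2.val - p)
      have h7 : ({(a.1.val + p, a.2.val), (b.1.val, b.2.val + p)} : Finset (ℕ × ℕ)).card ≤ 2 :=
        Finset.card_le_two
      omega

theorem lin_one (P : ZMod p × ZMod p) : lin (some 1) P = P.1 - P.2 := by
  change P.1 - 1 * P.2 = _
  ring

/-- The diagonal count. -/
theorem diag_count {n : ℕ} {T : Finset (ℕ × ℕ)} (hn : InGrid n T) (hT : NoThree T)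
    (hn2 : n ≤ 2 * p) (hA : NoThreeMod (T.image (res p))) :
    T.card ≤ 2 * nl (some 1) (T.image (res p)) + 2 * (T.image (res p)).card := by
  classical
  set A := T.image (res p) with hAd
  set I := A.image (lin (some 1)) with hI
  have h1 : T.card = ∑ ρ ∈ I, (T.filter fun P => lin (some 1) (res p P) = ρ).card :=
    Finset.card_eq_sum_card_fiberwise fun P hP =>
      Finset.mem_image_of_mem _ (Finset.mem_image_of_mem _ hP)
  have h2 : A.card = ∑ ρ ∈ I, (A.filter fun a => lin (some 1) a = ρ).card :=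
    Finset.card_eq_sum_card_fiberwise fun P hP => Finset.mem_image_of_mem _ hP
  have h3 : ∑ ρ ∈ I, (T.filter fun P => lin (some 1) (res p P) = ρ).card ≤
      ∑ ρ ∈ I, (2 + 2 * (A.filter fun a => lin (some 1) a = ρ).card) := by
    refine Finset.sum_le_sum fun ρ _ => ?_
    refine class_bound hn hT hn2 _ _ (Finset.filter_subset _ _) ?_ ?_ ?_
    · intro P hP
      rw [Finset.mem_filter] at hP ⊢
      exact ⟨Finset.mem_image_of_mem _ hP.1, hP.2⟩
    · by_contra h
      push Not at h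
      obtain ⟨P, hP, Q, hQ, R, hR, h1, h2, h3⟩ := Finset.two_lt_card.1 h
      rw [Finset.mem_filter, lin_one] at hP hQ hR
      apply hA P hP.1 Q hQ.1 R hR.1 h1 h2 h3
      have e1 : Q.1 - P.1 = Q.2 - P.2 := by linear_combination hQ.2 - hP.2
      have e2 : R.1 - P.1 = R.2 - P.2 := by linear_combination hR.2 - hP.2
      rw [e1, e2]
    · intro a ha b hb
      rw [Finset.mem_filter, lin_one] at ha hb
      rw [ha.2, hb.2]
  rw [Finset.sum_add_distrib, ← Finset.mul_sum, ← h2, Finset.sum_const, smul_eq_mul] at h3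
  have h4 : nl (some 1) A = I.card := rfl
  rw [h4]
  omega

/-! ### Directions with many tangents -/

omit [Fact p.Prime] in
theorem heavy_of {a k t n : ℕ} (hrow : t ≤ 2 * ((n / p) * a + n % p)) (hak : a ≤ k)
    (hp : 200 ≤ p) (hpn : p ≤ n) (ht : 7 * n < 4 * t) : 2 * p + 5 ≤ 2 * a + k := by
  by_contra hlt
  push Not at hlt
  have h1 := Nat.div_add_mod n p
  have h2 : n % p < p := Nat.mod_lt _ (by omega)
  have h3 : 1 ≤ n / p := (Nat.one_le_div_iff (by omega)).2 hpn
  generalize n / p = N at *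
  generalize n % p = ρ at *
  have h4 : 3 * a ≤ 2 * p + 4 := by omega
  have h5 : N * (3 * a) ≤ N * (2 * p + 4) := Nat.mul_le_mul_left N h4
  have h6 : N * 200 ≤ N * p := Nat.mul_le_mul_left N hp
  have h7 : 1 * p ≤ N * p := Nat.mul_le_mul_right p h3
  have h8 : N * (3 * a) = 3 * (N * a) := by ring
  have h9 : N * (2 * p + 4) = 2 * (N * p) + 4 * N := by ring
  have h10 : p * N = N * p := by ring
  rw [h8, h9] at h5
  rw [h10] at h1
  generalize N * a = y at *
  generalize N * p = w at *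
  omega

theorem nl_zero_inj {A : Finset (ZMod p × ZMod p)} (hA : NoThreeMod A) (o : Option (ZMod p))
    (h : 2 * p + 5 ≤ 2 * nl o A + A.card) : ∀ P ∈ A, ∀ w ∈ A, lin o w = lin o P → w = P := by
  intro P hP w hw h1
  by_contra hne
  exact heavy_all hA o h (card_le hA) P hP w hw hne h1

/-- The bounds for `n ≤ 2 p`. -/
theorem small {n : ℕ} {T : Finset (ℕ × ℕ)} (hn : InGrid n T) (hT : NoThree T)
    (hn2 : n ≤ 2 * p) (hA : NoThreeMod (T.image (res p)))
    (hrow : 2 * p + 5 ≤ 2 * nl none (T.image (res p)) + (T.image (res p)).card)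
    (hcol : 2 * p + 5 ≤ 2 * nl (some 0) (T.image (res p)) + (T.image (res p)).card) :
    T.card ≤ p + 3 * (n - p) ∧ T.card ≤ 3 * p + 4 := by
  classical
  have hri := nl_zero_inj hA none hrow
  have hci := nl_zero_inj hA (some 0) hcol
  have hmem : ∀ P ∈ T, res p P ∈ T.image (res p) := fun P hP => Finset.mem_image_of_mem _ hP
  constructor
  · refine corner hn hn2 (fun P hP Q hQ h => ?_) (fun P hP Q hQ h => ?_)
    · have h1 := hci (res p Q) (hmem Q hQ) (res p P) (hmem P hP) (by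
        change (P.1 : ZMod p) - 0 * (P.2 : ZMod p) = (Q.1 : ZMod p) - 0 * (Q.2 : ZMod p)
        rw [h, zero_mul, zero_mul])
      exact congrArg Prod.snd h1
    · have h1 := hri (res p Q) (hmem Q hQ) (res p P) (hmem P hP) h
      exact congrArg Prod.fst h1
  · have h1 := diag_count hn hT hn2 hA
    have h2 : ¬ 2 * p + 5 ≤ 2 * nl (some 1) (T.image (res p)) + (T.image (res p)).card := by
      intro h
      refine not_three hA none (some 0) (some 1) (by simp) (by simp) ?_ hrow hcol h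
      intro h3
      exact zero_ne_one (Option.some.inj h3)
    have h3 : (T.image (res p)).card ≤ p := by
      have h4 : ((T.image (res p)).image (lin none)).card ≤ Fintype.card (ZMod p) :=
        Finset.card_le_univ _
      rw [ZMod.card, Finset.card_image_of_injOn] at h4
      · exact h4
      · intro P hP w hw h
        exact hri w (Finset.mem_coe.1 hw) P (Finset.mem_coe.1 hP) h
    omega

/-- The moment inequality with both diagonal directions estimated. -/
theorem moment {n : ℕ} {T : Finset (ℕ × ℕ)} (hn : InGrid n T) (hT : NoThree T)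
    (hne : T.Nonempty) (hA : NoThreeMod (T.image (res p)))
    (hrow : 2 * p + 5 ≤ 2 * nl none (T.image (res p)) + (T.image (res p)).card)
    (hcol : 2 * p + 5 ≤ 2 * nl (some 0) (T.image (res p)) + (T.image (res p)).card) :
    ∃ R : ℝ, 0 < R ∧ 2 * R + (T.image (res p)).card = 2 * p + 4 ∧
      2 * (p : ℝ) ^ 2 * (T.card : ℝ) ^ 3 ≤ R ^ 2 * (32 * (n : ℝ) ^ 3 + 8 * (p : ℝ) ^ 2 * T.card) := by
  classical
  have h1 : ¬ 2 * p + 5 ≤ 2 * nl (some 1) (T.image (res p)) + (T.image (res p)).card := by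
    intro h
    refine not_three hA none (some 0) (some 1) (by simp) (by simp) ?_ hrow hcol h
    intro h3
    exact zero_ne_one (Option.some.inj h3)
  have h2 : ¬ 2 * p + 5 ≤ 2 * nl (some (-1)) (T.image (res p)) + (T.image (res p)).card := by
    intro h
    refine not_three hA none (some 0) (some (-1)) (by simp) (by simp) ?_ hrow hcol h
    intro h3
    exact neg_ne_zero.2 one_ne_zero (Option.some.inj h3).symm
  have h3 : (diffRes p T).card = nl (some 1) (T.image (res p)) := by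
    unfold nl diffRes
    rw [Finset.image_image]
    refine congrArg Finset.card (Finset.image_congr fun P _ => ?_)
    change (P.1 : ZMod p) - P.2 = (P.1 : ZMod p) - 1 * P.2
    ring
  have h4 : (sumRes p T).card = nl (some (-1)) (T.image (res p)) := by
    unfold nl sumRes
    rw [Finset.image_image]
    refine congrArg Finset.card (Finset.image_congr fun P _ => ?_)
    change (P.1 : ZMod p) + P.2 = (P.1 : ZMod p) - (-1) * P.2
    ring
  have h5 := Pool.Agent.Results.MP_958251_co.OneConic.result.1 n p T p_pos hn hT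
  have h6 : 0 < (diffRes p T).card := Finset.card_pos.2 (hne.image _)
  have h7 : 0 < (sumRes p T).card := Finset.card_pos.2 (hne.image _)
  have h8 : 2 * ((diffRes p T).card : ℝ) + (T.image (res p)).card ≤ 2 * p + 4 := by
    have : 2 * (diffRes p T).card + (T.image (res p)).card ≤ 2 * p + 4 := by omega
    exact_mod_cast this
  have h9 : 2 * ((sumRes p T).card : ℝ) + (T.image (res p)).card ≤ 2 * p + 4 := by
    have : 2 * (sumRes p T).card + (T.image (res p)).card ≤ 2 * p + 4 := by omega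
    exact_mod_cast this
  have h6' : (0 : ℝ) < (diffRes p T).card := by exact_mod_cast h6
  have h7' : (0 : ℝ) < (sumRes p T).card := by exact_mod_cast h7
  set r : ℝ := ((diffRes p T).card : ℝ) with hr
  set s : ℝ := ((sumRes p T).card : ℝ) with hs
  set k : ℝ := ((T.image (res p)).card : ℝ) with hk
  refine ⟨p + 2 - k / 2, by linarith, by ring, ?_⟩
  set R : ℝ := p + 2 - k / 2 with hR
  have hRr : r ≤ R := by rw [hR]; linarith
  have hRs : s ≤ R := by rw [hR]; linarith
  have hR0 : 0 < R := lt_of_lt_of_le h6' hRr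
  have h10 : 1 / R ^ 2 ≤ 1 / r ^ 2 := by
    apply one_div_le_one_div_of_le (by positivity)
    gcongr
  have h11 : 1 / R ^ 2 ≤ 1 / s ^ 2 := by
    apply one_div_le_one_div_of_le (by positivity)
    gcongr
  have h12 : (p : ℝ) ^ 2 * (T.card : ℝ) ^ 3 * (2 * (1 / R ^ 2)) ≤
      32 * (n : ℝ) ^ 3 + 8 * (p : ℝ) ^ 2 * T.card := by
    have h13 : (p : ℝ) ^ 2 * (T.card : ℝ) ^ 3 * (2 * (1 / R ^ 2)) ≤
        (p : ℝ) ^ 2 * (T.card : ℝ) ^ 3 * (1 / r ^ 2 + 1 / s ^ 2) := by
      gcongr
      linarith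
    have h14 : (0 : ℝ) ≤ n := Nat.cast_nonneg n
    linarith
  calc 2 * (p : ℝ) ^ 2 * (T.card : ℝ) ^ 3 =
      R ^ 2 * ((p : ℝ) ^ 2 * (T.card : ℝ) ^ 3 * (2 * (1 / R ^ 2))) := by field_simp
    _ ≤ R ^ 2 * (32 * (n : ℝ) ^ 3 + 8 * (p : ℝ) ^ 2 * T.card) := by gcongr

/-- The numerical contradiction for the constant `9/5`. -/
theorem numeric_two {n p N ρ k t R : ℝ} (hn : n = N * p + ρ) (hρ0 : 0 ≤ ρ) (hρ : ρ < p)
    (hN : 2 ≤ N) (hp : 200 ≤ p) (hR : 2 * R + k = 2 * p + 4) (hk : t ≤ 2 * (N * k + ρ))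
    (ht : 9 / 5 * n < t) (hR0 : 0 < R)
    (h : 2 * p ^ 2 * t ^ 3 ≤ R ^ 2 * (32 * n ^ 3 + 8 * p ^ 2 * t)) : False := by
  have hp0 : 0 < p := by linarith
  have hN0 : 0 < N := by linarith
  have hw : 0 < N * p := mul_pos hN0 hp0
  have hNp : 200 * N ≤ N * p := by nlinarith
  have h2p : 2 * p ≤ N * p := by nlinarith
  obtain ⟨z, hz⟩ : ∃ z, ρ = z * (N * p) := ⟨ρ / (N * p), by field_simp⟩
  have hz0 : 0 ≤ z := by
    by_contra hlt
    push Not at hlt
    have : z * (N * p) < 0 := mul_neg_of_neg_of_pos hlt hw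
    linarith
  have hz1 : z ≤ 1 / 2 := by
    by_contra hlt
    push Not at hlt
    have : 1 / 2 * (N * p) < z * (N * p) := mul_lt_mul_of_pos_right hlt hw
    linarith
  set w := N * p with hwd
  have hnw : n = w * (1 + z) := by rw [hn, hz]; ring
  have hn0 : 0 < n := by rw [hnw]; positivity
  have ht0 : 0 < t := by linarith
  have hNR : N * R ≤ (56 / 100 + 5 / 100 * z) * w := by
    have h1 : N * R = w + 2 * N - N * k / 2 := by
      rw [hwd]
      linear_combination N / 2 * hR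
    have h2 : w + 2 * N - N * k / 2 ≤ w + 2 * N - t / 4 + ρ / 2 := by linarith
    have h3 : w + 2 * N - t / 4 + ρ / 2 ≤ 56 / 100 * w + 5 / 100 * ρ := by
      rw [hn] at ht
      linarith
    rw [h1]
    refine h2.trans (h3.trans ?_)
    rw [hz]
    exact le_of_eq (by ring)
  have hRp : R ≤ (56 / 100 + 5 / 100 * z) * p := by
    have h1 : N * R ≤ N * ((56 / 100 + 5 / 100 * z) * p) := by
      refine hNR.trans (le_of_eq ?_)
      rw [hwd]
      ring
    exact le_of_mul_le_mul_left h1 hN0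
  set g := 56 / 100 + 5 / 100 * z with hg
  have hg0 : 0 < g := by positivity
  have h1 : p ^ 2 * (2 * t ^ 3) ≤ p ^ 2 * (g ^ 2 * (32 * n ^ 3 + 8 * p ^ 2 * t)) := by
    calc p ^ 2 * (2 * t ^ 3) = 2 * p ^ 2 * t ^ 3 := by ring
      _ ≤ R ^ 2 * (32 * n ^ 3 + 8 * p ^ 2 * t) := h
      _ ≤ (g * p) ^ 2 * (32 * n ^ 3 + 8 * p ^ 2 * t) := by gcongr
      _ = _ := by ring
  have h2 : 2 * t ^ 3 ≤ g ^ 2 * (32 * n ^ 3 + 8 * p ^ 2 * t) :=
    le_of_mul_le_mul_left h1 (by positivity)
  have h3 : 4 * p ^ 2 ≤ w ^ 2 := by nlinarith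
  have h4 : 8 * p ^ 2 * t ≤ 2 * w ^ 2 * t := by nlinarith
  have h5 : 32 * n ^ 3 ≤ 160 / 9 * n ^ 2 * t := by
    have : n ^ 2 * (9 / 5 * n) ≤ n ^ 2 * t := by gcongr
    linarith
  have h6 : 2 * (81 / 25) * n ^ 2 * t ≤ 2 * t ^ 3 := by
    have h7 : (9 / 5 * n) ^ 2 ≤ t ^ 2 := by gcongr
    have h8 : (9 / 5 * n) ^ 2 * t ≤ t ^ 2 * t := by gcongr
    nlinarith
  have h7 : t * (2 * (81 / 25) * n ^ 2) ≤ t * (g ^ 2 * (160 / 9 * n ^ 2 + 2 * w ^ 2)) := by
    calc t * (2 * (81 / 25) * n ^ 2) = 2 * (81 / 25) * n ^ 2 * t := by ring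
      _ ≤ 2 * t ^ 3 := h6
      _ ≤ g ^ 2 * (32 * n ^ 3 + 8 * p ^ 2 * t) := h2
      _ ≤ g ^ 2 * (160 / 9 * n ^ 2 * t + 2 * w ^ 2 * t) := by gcongr
      _ = _ := by ring
  have h8 : 2 * (81 / 25) * n ^ 2 ≤ g ^ 2 * (160 / 9 * n ^ 2 + 2 * w ^ 2) :=
    le_of_mul_le_mul_left h7 ht0
  rw [hnw] at h8
  have h9 : w ^ 2 * (2 * (81 / 25) * (1 + z) ^ 2) ≤
      w ^ 2 * (g ^ 2 * (160 / 9 * (1 + z) ^ 2 + 2)) := by
    refine le_trans (le_of_eq (by ring)) (h8.trans (le_of_eq (by ring)))
  have h10 : 2 * (81 / 25) * (1 + z) ^ 2 ≤ g ^ 2 * (160 / 9 * (1 + z) ^ 2 + 2) :=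
    le_of_mul_le_mul_left h9 (by positivity)
  have h11 : g ^ 2 ≤ 3136 / 10000 + 573 / 10000 * z := by
    rw [hg]
    nlinarith
  have h12 : g ^ 2 * (160 / 9 * (1 + z) ^ 2 + 2) ≤
      (3136 / 10000 + 573 / 10000 * z) * (160 / 9 * (1 + z) ^ 2 + 2) := by gcongr
  have h13 : z ^ 2 ≤ z / 2 := by nlinarith
  have h14 : z ^ 3 ≤ z / 4 := by nlinarith
  nlinarith

/-- The numerical contradiction for the constant `7/4`. -/
theorem numeric_three {n p N ρ k t R : ℝ} (hn : n = N * p + ρ) (hρ0 : 0 ≤ ρ) (hρ : ρ < p)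
    (hN : 0 < N) (hp : 200 ≤ p) (hR : 2 * R + k = 2 * p + 4) (hk : t ≤ 2 * (N * k + ρ))
    (ht : 7 / 4 * n < t) (hR0 : 0 < R) (h50 : 50 * p ≤ n)
    (h : 2 * p ^ 2 * t ^ 3 ≤ R ^ 2 * (32 * n ^ 3 + 8 * p ^ 2 * t)) : False := by
  have hp0 : 0 < p := by linarith
  have hw : 0 < N * p := mul_pos hN hp0
  have hNp : 200 * N ≤ N * p := by nlinarith
  have hn0 : 0 < n := by linarith
  have ht0 : 0 < t := by linarith
  have hw49 : 49 * p ≤ N * p := by linarith
  have hNR : N * R ≤ N * (574 / 1000 * p) := by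
    have h1 : N * R = N * p + 2 * N - N * k / 2 := by linear_combination N / 2 * hR
    rw [h1]
    have h4 : N * (574 / 1000 * p) = 574 / 1000 * (N * p) := by ring
    rw [h4]
    rw [hn] at ht
    linarith
  have hRp : R ≤ 574 / 1000 * p := le_of_mul_le_mul_left hNR hN
  have h1 : p ^ 2 * (2 * t ^ 3) ≤ p ^ 2 * ((574 / 1000) ^ 2 * (32 * n ^ 3 + 8 * p ^ 2 * t)) := by
    calc p ^ 2 * (2 * t ^ 3) = 2 * p ^ 2 * t ^ 3 := by ring
      _ ≤ R ^ 2 * (32 * n ^ 3 + 8 * p ^ 2 * t) := h
      _ ≤ (574 / 1000 * p) ^ 2 * (32 * n ^ 3 + 8 * p ^ 2 * t) := by gcongr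
      _ = _ := by ring
  have h2 : 2 * t ^ 3 ≤ (574 / 1000) ^ 2 * (32 * n ^ 3 + 8 * p ^ 2 * t) :=
    le_of_mul_le_mul_left h1 (by positivity)
  have h3 : 2500 * p ^ 2 ≤ n ^ 2 := by nlinarith
  have h4 : 8 * p ^ 2 * t ≤ 8 / 2500 * n ^ 2 * t := by nlinarith
  have h5 : 32 * n ^ 3 ≤ 128 / 7 * n ^ 2 * t := by
    have : n ^ 2 * (7 / 4 * n) ≤ n ^ 2 * t := by gcongr
    linarith
  have h6 : 2 * (49 / 16) * n ^ 2 * t ≤ 2 * t ^ 3 := by
    have h7 : (7 / 4 * n) ^ 2 ≤ t ^ 2 := by gcongr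
    have h8 : (7 / 4 * n) ^ 2 * t ≤ t ^ 2 * t := by gcongr
    nlinarith
  have h7 : 0 < n ^ 2 * t := by positivity
  nlinarith

end Pool.Agent.Helper30.ArcB
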