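import Pool.Agent.Helper30.Main

/-!
# From the rooted inequality to the mean subtree order
-/

namespace Pool.Agent.Helper30

open SimpleGraph Finset

section complete

variable {V : Type*} [Fintype V] [DecidableEq V]

theorem isTreeOn_bot (v : V) : IsTreeOn (⊥ : SimpleGraph V) (({v} : Finset V) : Set V) := by
  refine ⟨⟨v, by simp⟩, isAcyclic_bot, fun _ _ h => absurd h (by simp), ?_⟩
  intro a ha b hb
  simp only [coe_singleton, Set.mem_singleton_iff] at ha hb
  rw [ha, hb]

theorem cnt_singleton (G : SimpleGraph V) (v : V) : cnt G {v} = 1 := by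
  refine le_antisymm (cnt_singleton_le G v) ?_
  unfold cnt
  rw [Nat.one_le_iff_ne_zero, Finset.card_ne_zero]
  exact ⟨⊥, mem_trees.2 ⟨bot_le, isTreeOn_bot v⟩⟩

theorem deg_top (r : V) {C : Finset V} (h : r ∉ C) : deg (⊤ : SimpleGraph V) r C = C.card := by
  classical
  unfold deg
  refine congrArg Finset.card ?_
  ext y
  simp only [mem_filter, top_adj]
  constructor
  · exact fun hy => hy.1
  · intro hy
    refine ⟨hy, ?_⟩
    rintro rfl
    exact h hy

theorem mul_gam (k : ℕ) (hk : 1 ≤ k) : k * gam (k - 1) = k ^ (k - 1) := by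
  unfold gam
  have e : k - 1 + 1 = k := by omega
  rw [e]
  rcases Nat.lt_or_ge k 2 with h | h
  · have : k = 1 := by omega
    subst this; rfl
  · have e2 : k - 1 = (k - 1 - 1) + 1 := by omega
    conv_rhs => rw [e2, pow_succ]
    ring

/-- Cayley's formula, in the form `cnt ⊤ S = gam (|S| - 1)`. -/
theorem cnt_top : ∀ m : ℕ, ∀ S : Finset V, S.card = m + 1 → cnt (⊤ : SimpleGraph V) S = gam m := by
  intro m
  induction m using Nat.strong_induction_on with
  | _ m ih =>
  intro S hS
  obtain ⟨r, hr⟩ : S.Nonempty := Finset.card_pos.1 (by omega)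
  have hA : (S.erase r).card = m := by rw [Finset.card_erase_of_mem hr, hS]; rfl
  rcases Nat.eq_zero_or_pos m with h0 | hm
  · subst h0
    obtain ⟨v, hv⟩ := Finset.card_eq_one.1 hS
    rw [hv, cnt_singleton]; rfl
  have hrec := branch_recursion (⊤ : SimpleGraph V) hr
  rw [hA] at hrec
  set f : ℕ → ℕ := fun k => k * (k * gam (k - 1)) * gam (m - k) with hf
  have hterm : ∀ C ∈ (S.erase r).powerset,
      C.card * deg (⊤ : SimpleGraph V) r C * cnt (⊤ : SimpleGraph V) C *
        cnt (⊤ : SimpleGraph V) (S \ C) = f C.card := by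
    intro C hC
    rw [mem_powerset] at hC
    have hrC : r ∉ C := fun h => (Finset.mem_erase.1 (hC h)).1 rfl
    have hCS : C ⊆ S := hC.trans (Finset.erase_subset _ _)
    have hCm : C.card ≤ m := by rw [← hA]; exact Finset.card_le_card hC
    rcases Nat.eq_zero_or_pos C.card with h0 | hpos
    · rw [h0]; simp [hf]
    · have h1 : cnt (⊤ : SimpleGraph V) C = gam (C.card - 1) :=
        ih (C.card - 1) (by omega) C (by omega)
      have h2 : cnt (⊤ : SimpleGraph V) (S \ C) = gam (m - C.card) :=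
        ih (m - C.card) (by omega) (S \ C) (by
          rw [Finset.card_sdiff_of_subset hCS, hS]; omega)
      rw [h1, h2, deg_top r hrC, hf]
      ring
  rw [Finset.sum_congr rfl hterm, Finset.sum_powerset_apply_card, hA,
    Finset.sum_range_succ'] at hrec
  have hz : (m.choose 0) • f 0 = 0 := by simp [hf]
  rw [hz, add_zero] at hrec
  obtain ⟨n, rfl⟩ : ∃ n, m = n + 1 := ⟨m - 1, by omega⟩
  have habel := abel n
  have h3 : ∑ i ∈ range (n + 1), (n + 1).choose (i + 1) • f (i + 1) =
      (n + 1) * ∑ i ∈ range (n + 1), n.choose i * (i + 1) ^ i * gam (n - i) := by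
    rw [Finset.mul_sum]
    refine Finset.sum_congr rfl (fun i _ => ?_)
    have e1 : (n + 1) * n.choose i = (n + 1).choose (i + 1) * (i + 1) :=
      Nat.add_one_mul_choose_eq n i
    have e2 := mul_gam (i + 1) (by omega)
    rw [Nat.add_sub_cancel] at e2
    have e3 : n + 1 - (i + 1) = n - i := by omega
    simp only [hf, smul_eq_mul, Nat.add_sub_cancel, e3]
    rw [e2]
    calc (n + 1).choose (i + 1) * ((i + 1) * (i + 1) ^ i * gam (n - i))
        = ((n + 1).choose (i + 1) * (i + 1)) * ((i + 1) ^ i * gam (n - i)) := by ring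
      _ = ((n + 1) * n.choose i) * ((i + 1) ^ i * gam (n - i)) := by rw [e1]
      _ = _ := by ring
  rw [h3, habel] at hrec
  exact Nat.eq_of_mul_eq_mul_left (by omega) hrec

/-- Unrooted version of the inequality. -/
theorem unrooted_ineq (G : SimpleGraph V) (a : ℕ) (ha : 1 ≤ a) (S : Finset V)
    (hS : S.card = a + 1) :
    ((a : ℝ) + 1) * cnt G S ≤ (EE a * a) * ∑ v ∈ S, (cnt G (S.erase v) : ℝ) := by
  have h1 : ∀ r ∈ S, (cnt G S : ℝ) ≤ EE a * ∑ v ∈ S.erase r, (cnt G (S.erase v) : ℝ) := by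
    intro r hr
    exact root_ineq G a ha S r hr (by rw [Finset.card_erase_of_mem hr, hS]; rfl)
  have h2 := Finset.sum_le_sum h1
  rw [Finset.sum_const, hS, nsmul_eq_mul, ← Finset.mul_sum] at h2
  push_cast at h2
  refine h2.trans (le_of_eq ?_)
  rw [mul_assoc]
  congr 1
  have h3 : ∑ r ∈ S, ∑ v ∈ S.erase r, (cnt G (S.erase v) : ℝ) =
      ∑ v ∈ S, ∑ r ∈ S.erase v, (cnt G (S.erase v) : ℝ) := by
    apply Finset.sum_comm'
    intro x y
    simp only [mem_erase]
    constructor
    · rintro ⟨h1, h2, h3⟩; exact ⟨⟨fun h => h2 h.symm, h1⟩, h3⟩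
    · rintro ⟨⟨h1, h2⟩, h3⟩; exact ⟨h2, fun h => h1 h.symm, h3⟩
  rw [h3, Finset.mul_sum]
  refine Finset.sum_congr rfl (fun v hv => ?_)
  rw [Finset.sum_const, Finset.card_erase_of_mem hv, hS, nsmul_eq_mul, Nat.add_sub_cancel]

theorem unrooted_eq_top (a : ℕ) (ha : 1 ≤ a) (S : Finset V) (hS : S.card = a + 1) :
    ((a : ℝ) + 1) * cnt (⊤ : SimpleGraph V) S =
      (EE a * a) * ∑ v ∈ S, (cnt (⊤ : SimpleGraph V) (S.erase v) : ℝ) := by
  have h1 : ∀ v ∈ S, (cnt (⊤ : SimpleGraph V) (S.erase v) : ℝ) = gam (a - 1) := by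
    intro v hv
    rw [cnt_top (a - 1) (S.erase v) (by rw [Finset.card_erase_of_mem hv, hS]; omega)]
  rw [cnt_top a S hS, Finset.sum_congr rfl h1, Finset.sum_const, hS, nsmul_eq_mul,
    ← EE_eq_gam ha]
  push_cast
  ring

/-- Number of subtrees of order `k`. -/
noncomputable def sub (G : SimpleGraph V) (k : ℕ) : ℕ :=
  ∑ S ∈ Finset.powersetCard k (Finset.univ : Finset V), cnt G S

theorem double_count (f : Finset V → ℝ) (a : ℕ) :
    ∑ S ∈ Finset.powersetCard (a + 1) (Finset.univ : Finset V), ∑ v ∈ S, f (S.erase v) =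
      ((Fintype.card V - a : ℕ) : ℝ) *
        ∑ T ∈ Finset.powersetCard a (Finset.univ : Finset V), f T := by
  have h1 : ∑ S ∈ Finset.powersetCard (a + 1) (Finset.univ : Finset V), ∑ v ∈ S, f (S.erase v) =
      ∑ T ∈ Finset.powersetCard a (Finset.univ : Finset V), ∑ v ∈ Tᶜ, f T := by
    rw [Finset.sum_sigma', Finset.sum_sigma']
    refine Finset.sum_bij' (fun x _ => ⟨x.1.erase x.2, x.2⟩) (fun x _ => ⟨insert x.2 x.1, x.2⟩)
      ?_ ?_ ?_ ?_ ?_
    · rintro ⟨S, v⟩ hx
      rw [mem_sigma, mem_powersetCard] at hx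
      obtain ⟨⟨_, h2⟩, h3⟩ := hx
      rw [mem_sigma, mem_powersetCard]
      refine ⟨⟨Finset.subset_univ _, ?_⟩, ?_⟩
      · show (S.erase v).card = a
        rw [Finset.card_erase_of_mem h3, h2]; rfl
      · show v ∈ (S.erase v)ᶜ
        rw [mem_compl]
        exact Finset.notMem_erase v S
    · rintro ⟨T, v⟩ hx
      rw [mem_sigma, mem_powersetCard] at hx
      obtain ⟨⟨_, h2⟩, h3⟩ := hx
      rw [mem_compl] at h3
      rw [mem_sigma, mem_powersetCard]
      refine ⟨⟨Finset.subset_univ _, ?_⟩, mem_insert_self _ _⟩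
      show (insert v T).card = a + 1
      rw [Finset.card_insert_of_notMem h3, h2]
    · rintro ⟨S, v⟩ hx
      rw [mem_sigma] at hx
      have : insert v (S.erase v) = S := Finset.insert_erase hx.2
      simp only [this]
    · rintro ⟨T, v⟩ hx
      rw [mem_sigma, mem_compl] at hx
      have : (insert v T).erase v = T := Finset.erase_insert hx.2
      simp only [this]
    · rintro ⟨S, v⟩ _
      rfl
  rw [h1, Finset.mul_sum]
  refine Finset.sum_congr rfl (fun T hT => ?_)
  rw [mem_powersetCard] at hT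
  rw [Finset.sum_const, Finset.card_compl, hT.2, nsmul_eq_mul]

theorem sub_succ_le (G : SimpleGraph V) (a : ℕ) (ha : 1 ≤ a) :
    ((a : ℝ) + 1) * sub G (a + 1) ≤
      (EE a * a) * (((Fintype.card V - a : ℕ) : ℝ) * sub G a) := by
  have h : ∀ S ∈ Finset.powersetCard (a + 1) (Finset.univ : Finset V),
      ((a : ℝ) + 1) * cnt G S ≤ (EE a * a) * ∑ v ∈ S, (cnt G (S.erase v) : ℝ) := by
    intro S hS
    rw [mem_powersetCard] at hS
    exact unrooted_ineq G a ha S hS.2
  have h2 := Finset.sum_le_sum h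
  rw [← Finset.mul_sum, ← Finset.mul_sum, double_count (fun T => (cnt G T : ℝ)) a] at h2
  unfold sub
  push_cast
  exact h2

theorem sub_succ_top (a : ℕ) (ha : 1 ≤ a) :
    ((a : ℝ) + 1) * sub (⊤ : SimpleGraph V) (a + 1) =
      (EE a * a) * (((Fintype.card V - a : ℕ) : ℝ) * sub (⊤ : SimpleGraph V) a) := by
  have h : ∀ S ∈ Finset.powersetCard (a + 1) (Finset.univ : Finset V),
      ((a : ℝ) + 1) * cnt (⊤ : SimpleGraph V) S =
        (EE a * a) * ∑ v ∈ S, (cnt (⊤ : SimpleGraph V) (S.erase v) : ℝ) := by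
    intro S hS
    rw [mem_powersetCard] at hS
    exact unrooted_eq_top a ha S hS.2
  have h2 := Finset.sum_congr rfl h
  rw [← Finset.mul_sum, ← Finset.mul_sum,
    double_count (fun T => (cnt (⊤ : SimpleGraph V) T : ℝ)) a] at h2
  unfold sub
  push_cast
  exact h2

theorem sub_zero_eq (G : SimpleGraph V) : sub G 0 = 0 := by
  unfold sub
  rw [Finset.powersetCard_zero, Finset.sum_singleton]
  unfold cnt
  rw [Finset.card_eq_zero, Finset.eq_empty_iff_forall_notMem]
  intro H hH
  rw [mem_trees] at hH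
  obtain ⟨x, hx⟩ := hH.2.nonempty
  simp at hx

theorem sub_top_pos {k : ℕ} (h1 : 1 ≤ k) (h2 : k ≤ Fintype.card V) :
    0 < sub (⊤ : SimpleGraph V) k := by
  unfold sub
  obtain ⟨S, hS, hSk⟩ := Finset.exists_subset_card_eq (s := (Finset.univ : Finset V)) (n := k)
    (by rwa [Finset.card_univ])
  have h3 : cnt (⊤ : SimpleGraph V) S ≤
      ∑ S ∈ Finset.powersetCard k (Finset.univ : Finset V), cnt (⊤ : SimpleGraph V) S :=
    Finset.single_le_sum (f := fun S => cnt (⊤ : SimpleGraph V) S) (fun _ _ => Nat.zero_le _)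
      (mem_powersetCard.2 ⟨hS, hSk⟩)
  refine lt_of_lt_of_le ?_ h3
  rw [cnt_top (k - 1) S (by omega)]
  exact gam_pos _

theorem sub_eq_zero_of_gt (G : SimpleGraph V) {k : ℕ} (h : Fintype.card V < k) : sub G k = 0 := by
  unfold sub
  rw [Finset.powersetCard_eq_empty.2 (by rwa [Finset.card_univ]), Finset.sum_empty]

/-- Consecutive ratio comparison. -/
theorem ratio_succ (G : SimpleGraph V) (a : ℕ) (ha : 1 ≤ a) :
    (sub G (a + 1) : ℝ) * sub (⊤ : SimpleGraph V) a ≤ sub G a * sub (⊤ : SimpleGraph V) (a + 1) := by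
  have h1 := sub_succ_le G a ha
  have h2 := sub_succ_top (V := V) a ha
  have h3 : (0 : ℝ) ≤ sub (⊤ : SimpleGraph V) a := by positivity
  have ha' : (0 : ℝ) < (a : ℝ) + 1 := by positivity
  have h4 := mul_le_mul_of_nonneg_right h1 h3
  have h5 : ((a : ℝ) + 1) * ((sub G (a + 1) : ℝ) * sub (⊤ : SimpleGraph V) a) ≤
      ((a : ℝ) + 1) * (sub G a * sub (⊤ : SimpleGraph V) (a + 1)) := by
    calc ((a : ℝ) + 1) * ((sub G (a + 1) : ℝ) * sub (⊤ : SimpleGraph V) a)
        = ((a : ℝ) + 1) * (sub G (a + 1) : ℝ) * sub (⊤ : SimpleGraph V) a := by ring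
      _ ≤ _ := h4
      _ = sub G a * ((EE a * a) * (((Fintype.card V - a : ℕ) : ℝ) *
            sub (⊤ : SimpleGraph V) a)) := by ring
      _ = sub G a * (((a : ℝ) + 1) * sub (⊤ : SimpleGraph V) (a + 1)) := by rw [h2]
      _ = _ := by ring
  exact le_of_mul_le_mul_left h5 ha'

theorem ratio_mono (G : SimpleGraph V) {j k : ℕ} (hj : 1 ≤ j) (hjk : j ≤ k) :
    (sub G k : ℝ) * sub (⊤ : SimpleGraph V) j ≤ sub G j * sub (⊤ : SimpleGraph V) k := by
  induction k, hjk using Nat.le_induction with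
  | base => exact le_refl _
  | succ k hk ih =>
    rcases Nat.lt_or_ge (Fintype.card V) (k + 1) with h | h
    · rw [sub_eq_zero_of_gt G h]
      simp only [Nat.cast_zero, zero_mul]
      positivity
    · have h1 := ratio_succ G k (hj.trans hk)
      have hpos : (0 : ℝ) < sub (⊤ : SimpleGraph V) k := by
        exact_mod_cast sub_top_pos (hj.trans hk) (by omega)
      have hj0 : (0 : ℝ) ≤ sub (⊤ : SimpleGraph V) j := by positivity
      have hk0 : (0 : ℝ) ≤ sub (⊤ : SimpleGraph V) (k + 1) := by positivity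
      have h2 := mul_le_mul_of_nonneg_right h1 hj0
      have h3 := mul_le_mul_of_nonneg_right ih hk0
      have h4 : (sub (⊤ : SimpleGraph V) k : ℝ) *
          ((sub G (k + 1) : ℝ) * sub (⊤ : SimpleGraph V) j) ≤
          sub (⊤ : SimpleGraph V) k * (sub G j * sub (⊤ : SimpleGraph V) (k + 1)) := by
        nlinarith [h2, h3]
      exact le_of_mul_le_mul_left h4 hpos

theorem ratio_all (G : SimpleGraph V) {j k : ℕ} (hjk : j ≤ k) :
    (sub G k : ℝ) * sub (⊤ : SimpleGraph V) j ≤ sub G j * sub (⊤ : SimpleGraph V) k := by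
  rcases Nat.eq_zero_or_pos j with h | h
  · subst h
    rw [sub_zero_eq, sub_zero_eq]; simp
  · exact ratio_mono G h hjk

end complete

/-- A Chebyshev-type inequality. -/
theorem cheb (N : ℕ) (x y : ℕ → ℝ) (h : ∀ j k, j ≤ k → x k * y j ≤ x j * y k) :
    (∑ k ∈ range N, (k : ℝ) * x k) * ∑ k ∈ range N, y k ≤
      (∑ k ∈ range N, (k : ℝ) * y k) * ∑ k ∈ range N, x k := by
  have key : (∑ k ∈ range N, (k : ℝ) * x k) * (∑ k ∈ range N, y k) -
      (∑ k ∈ range N, (k : ℝ) * y k) * (∑ k ∈ range N, x k) =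
      ∑ k ∈ range N, ∑ j ∈ range N, (k : ℝ) * (x k * y j - x j * y k) := by
    rw [Finset.sum_mul_sum, Finset.sum_mul_sum, ← Finset.sum_sub_distrib]
    refine Finset.sum_congr rfl (fun k _ => ?_)
    rw [← Finset.sum_sub_distrib]
    refine Finset.sum_congr rfl (fun j _ => ?_)
    ring
  have key2 : ∑ k ∈ range N, ∑ j ∈ range N, (k : ℝ) * (x k * y j - x j * y k) =
      ∑ k ∈ range N, ∑ j ∈ range N, (j : ℝ) * (x j * y k - x k * y j) := by
    rw [Finset.sum_comm]
  have key3 : 2 * ∑ k ∈ range N, ∑ j ∈ range N, (k : ℝ) * (x k * y j - x j * y k) =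
      ∑ k ∈ range N, ∑ j ∈ range N, ((k : ℝ) - j) * (x k * y j - x j * y k) := by
    calc 2 * ∑ k ∈ range N, ∑ j ∈ range N, (k : ℝ) * (x k * y j - x j * y k)
        = ∑ k ∈ range N, ∑ j ∈ range N, (k : ℝ) * (x k * y j - x j * y k) +
          ∑ k ∈ range N, ∑ j ∈ range N, (k : ℝ) * (x k * y j - x j * y k) := by ring
      _ = ∑ k ∈ range N, ∑ j ∈ range N, (k : ℝ) * (x k * y j - x j * y k) +
          ∑ k ∈ range N, ∑ j ∈ range N, (j : ℝ) * (x j * y k - x k * y j) := by
          conv_lhs => rw [key2]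
          rw [key2]
      _ = _ := by
          rw [← Finset.sum_add_distrib]
          refine Finset.sum_congr rfl (fun k _ => ?_)
          rw [← Finset.sum_add_distrib]
          refine Finset.sum_congr rfl (fun j _ => ?_)
          ring
  have key4 : ∑ k ∈ range N, ∑ j ∈ range N, ((k : ℝ) - j) * (x k * y j - x j * y k) ≤ 0 := by
    apply Finset.sum_nonpos
    intro k _
    apply Finset.sum_nonpos
    intro j _
    rcases le_total j k with hjk | hjk
    · have h1 := h j k hjk
      have h2 : (j : ℝ) ≤ k := by exact_mod_cast hjk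
      nlinarith
    · have h1 := h k j hjk
      have h2 : (k : ℝ) ≤ j := by exact_mod_cast hjk
      nlinarith
  linarith

/-- Comparison of the means. -/
theorem mean_le {V : Type*} [Fintype V] [DecidableEq V] (G : SimpleGraph V) (n : ℕ)
    (hn : Fintype.card V = n) :
    (∑ k ∈ range (n + 1), (k : ℝ) * (sub G k : ℝ)) / (∑ k ∈ range (n + 1), (sub G k : ℝ)) ≤
      (∑ k ∈ range (n + 1), (k : ℝ) * (sub (⊤ : SimpleGraph V) k : ℝ)) /
        (∑ k ∈ range (n + 1), (sub (⊤ : SimpleGraph V) k : ℝ)) := by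
  have hc := cheb (n + 1) (fun k => (sub G k : ℝ)) (fun k => (sub (⊤ : SimpleGraph V) k : ℝ))
    (fun j k hjk => ratio_all G hjk)
  rcases Nat.eq_zero_or_pos n with h0 | hpos
  · subst h0
    simp
  · have hs1 : ∀ K : SimpleGraph V, 0 < sub K 1 := by
      intro K
      unfold sub
      obtain ⟨S, hS, hSk⟩ := Finset.exists_subset_card_eq (s := (Finset.univ : Finset V)) (n := 1)
        (by rw [Finset.card_univ, hn]; exact hpos)
      have h3 : cnt K S ≤
          ∑ S ∈ Finset.powersetCard 1 (Finset.univ : Finset V), cnt K S :=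
        Finset.single_le_sum (f := fun S => cnt K S) (fun _ _ => Nat.zero_le _)
          (mem_powersetCard.2 ⟨hS, hSk⟩)
      refine lt_of_lt_of_le ?_ h3
      obtain ⟨v, rfl⟩ := Finset.card_eq_one.1 hSk
      rw [cnt_singleton]
      exact Nat.one_pos
    have hpos' : ∀ K : SimpleGraph V, 0 < ∑ k ∈ range (n + 1), (sub K k : ℝ) := by
      intro K
      have h1 : (sub K 1 : ℝ) ≤ ∑ k ∈ range (n + 1), (sub K k : ℝ) :=
        Finset.single_le_sum (f := fun k => (sub K k : ℝ)) (fun _ _ => Nat.cast_nonneg _)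
          (mem_range.2 (by omega))
      have h2 : (0 : ℝ) < sub K 1 := by exact_mod_cast hs1 K
      linarith
    rw [div_le_div_iff₀ (hpos' G) (hpos' ⊤)]
    exact hc

/-! ### Link with `SimpleGraph.Subgraph` -/

section link

variable {V : Type*}

theorem isTreeOn_of_coe {G : SimpleGraph V} {H : G.Subgraph} (h : H.coe.IsTree) :
    IsTreeOn H.spanningCoe H.verts := by
  classical
  obtain ⟨⟨b, hb⟩⟩ := h.1.nonempty
  -- retraction onto the vertex set
  let f : V → H.verts := fun w => if hw : w ∈ H.verts then ⟨w, hw⟩ else ⟨b, hb⟩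
  have hf : ∀ w (hw : w ∈ H.verts), f w = ⟨w, hw⟩ := fun w hw => dif_pos hw
  refine ⟨⟨b, hb⟩, ?_, ?_, ?_⟩
  · rw [isAcyclic_iff_forall_adj_isBridge]
    intro u v huv
    rw [isBridge_iff]
    intro hreach
    have huv' : H.Adj u v := huv
    have hu := H.edge_vert huv'
    have hv := H.edge_vert huv'.symm
    have hadj : H.coe.Adj ⟨u, hu⟩ ⟨v, hv⟩ := huv'
    have hbr := (isAcyclic_iff_forall_adj_isBridge.1 h.2) hadj
    rw [isBridge_iff] at hbr
    apply hbr
    have := reachable_map (B := H.coe.deleteEdges {s(⟨u, hu⟩, ⟨v, hv⟩)}) f ?_ hreach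
    · rwa [hf u hu, hf v hv] at this
    · intro a c hac
      right
      rw [deleteEdges_adj] at hac
      obtain ⟨hac, hne⟩ := hac
      have hac' : H.Adj a c := hac
      have ha := H.edge_vert hac'
      have hc := H.edge_vert hac'.symm
      rw [hf a ha, hf c hc, deleteEdges_adj]
      refine ⟨hac', ?_⟩
      intro hmem
      apply hne
      simp only [Set.mem_singleton_iff, Sym2.eq_iff, Subtype.mk.injEq] at hmem ⊢
      exact hmem
  · intro u v huv
    have huv' : H.Adj u v := huv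
    exact H.edge_vert huv'
  · intro u hu v hv
    have := h.1.preconnected ⟨u, hu⟩ ⟨v, hv⟩
    exact reachable_map (A := H.coe) (B := H.spanningCoe) (fun w => (w : V))
      (fun a c hac => Or.inr hac) this

theorem coe_isTree_of {G : SimpleGraph V} {H : G.Subgraph} (h : IsTreeOn H.spanningCoe H.verts) :
    H.coe.IsTree := by
  classical
  obtain ⟨b, hb⟩ := h.nonempty
  let f : V → H.verts := fun w => if hw : w ∈ H.verts then ⟨w, hw⟩ else ⟨b, hb⟩
  have hf : ∀ w (hw : w ∈ H.verts), f w = ⟨w, hw⟩ := fun w hw => dif_pos hw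
  have hne : Nonempty H.verts := ⟨⟨b, hb⟩⟩
  refine ⟨⟨?_⟩, ?_⟩
  · rintro ⟨u, hu⟩ ⟨v, hv⟩
    have := reachable_map (A := H.spanningCoe) (B := H.coe) f ?_ (h.conn hu hv)
    · rwa [hf u hu, hf v hv] at this
    · intro a c hac
      have hac' : H.Adj a c := hac
      have ha := H.edge_vert hac'
      have hc := H.edge_vert hac'.symm
      right
      rw [hf a ha, hf c hc]
      exact hac'
  · refine IsAcyclic.comap (G' := H.spanningCoe) ⟨fun w => (w : V), fun {a c} hac => hac⟩ ?_ h.acyc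
    intro a c hac
    exact Subtype.ext hac

theorem ncard_subgraphs [Fintype V] [DecidableEq V] (G : SimpleGraph V) (k : ℕ) :
    Set.ncard {H : G.Subgraph | H.coe.IsTree ∧ H.verts.ncard = k} = sub G k := by
  classical
  unfold sub cnt
  rw [← Finset.card_sigma, ← Set.ncard_coe_finset]
  refine Set.ncard_congr (fun H _ => ⟨H.verts.toFinset, H.spanningCoe⟩) ?_ ?_ ?_
  · rintro H ⟨h1, h2⟩
    rw [Finset.mem_coe, mem_sigma, mem_powersetCard]
    refine ⟨⟨Finset.subset_univ _, ?_⟩, ?_⟩
    · show H.verts.toFinset.card = k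
      rw [← h2, Set.ncard_eq_toFinset_card']
    · show H.spanningCoe ∈ trees G H.verts.toFinset
      rw [mem_trees]
      refine ⟨H.spanningCoe_le, ?_⟩
      rw [Set.coe_toFinset]
      exact isTreeOn_of_coe h1
  · rintro H H' _ _ heq
    simp only [Sigma.mk.injEq] at heq
    obtain ⟨h1, h2⟩ := heq
    have h3 : H.spanningCoe = H'.spanningCoe := eq_of_heq h2
    have h4 : H.verts = H'.verts := by
      rwa [Set.toFinset_inj] at h1
    refine Subgraph.ext h4 ?_
    have := congrArg SimpleGraph.Adj h3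
    exact this
  · rintro ⟨S, K⟩ hSK
    rw [Finset.mem_coe, mem_sigma, mem_powersetCard] at hSK
    obtain ⟨⟨_, hcard⟩, hK⟩ := hSK
    rw [mem_trees] at hK
    obtain ⟨hle, hK⟩ := hK
    let H : G.Subgraph :=
      { verts := (S : Set V)
        Adj := K.Adj
        adj_sub := fun {a b} h => hle h
        edge_vert := fun {a b} h => hK.supp h
        symm := K.symm }
    have hsp : H.spanningCoe = K := rfl
    refine ⟨H, ⟨coe_isTree_of (by rw [hsp]; exact hK), ?_⟩, ?_⟩
    · show (S : Set V).ncard = k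
      rw [Set.ncard_coe_finset]
      exact hcard
    · refine Sigma.ext ?_ (heq_of_eq hsp)
      ext x
      simp [H]

end link

end Pool.Agent.Helper30
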