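import Pool.Agent.Helper30.Abel

/-!
# The splitting probabilities
-/

namespace Pool.Agent.Helper30

open Finset

/-- `gE m = (1 + 1/m)^m`. -/
noncomputable def gE (m : ℕ) : ℝ := (((m : ℝ) + 1) / m) ^ m

/-- `EE j = (1 + 1/j)^(j-1)`. -/
noncomputable def EE (j : ℕ) : ℝ := (((j : ℝ) + 1) / j) ^ (j - 1)

theorem EE_pos {j : ℕ} (hj : 1 ≤ j) : 0 < EE j := by
  unfold EE
  have : (0 : ℝ) < j := by exact_mod_cast hj
  positivity

theorem gE_pos {j : ℕ} (hj : 1 ≤ j) : 0 < gE j := by
  unfold gE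
  have : (0 : ℝ) < j := by exact_mod_cast hj
  positivity

theorem EE_mul {j : ℕ} (hj : 1 ≤ j) : EE j * ((j : ℝ) + 1) = gE j * j := by
  unfold EE gE
  have hj' : (0 : ℝ) < j := by exact_mod_cast hj
  obtain ⟨i, rfl⟩ : ∃ i, j = i + 1 := ⟨j - 1, by omega⟩
  rw [Nat.add_sub_cancel, pow_succ]
  field_simp

theorem EE_le_gE {j : ℕ} (hj : 1 ≤ j) : EE j ≤ gE j := by
  have h := EE_mul hj
  have h1 := EE_pos hj
  have hj' : (0 : ℝ) < j := by exact_mod_cast hj
  nlinarith

theorem gE_le_succ {m : ℕ} (hm : 1 ≤ m) : gE m ≤ gE (m + 1) := by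
  unfold gE
  have hm' : (0 : ℝ) < m := by exact_mod_cast hm
  push_cast
  have hx : ((m : ℝ) + 1 + 1) / (m + 1) =
      (1 + (-(1 / ((m : ℝ) + 1) ^ 2))) * (((m : ℝ) + 1) / m) := by
    field_simp
    ring
  rw [hx, mul_pow, pow_succ (((m : ℝ) + 1) / m) m]
  have hb : 1 + ((m + 1 : ℕ) : ℝ) * (-(1 / ((m : ℝ) + 1) ^ 2)) ≤
      (1 + (-(1 / ((m : ℝ) + 1) ^ 2))) ^ (m + 1) := by
    apply one_add_mul_le_pow
    have : 1 / ((m : ℝ) + 1) ^ 2 ≤ 1 := by
      rw [div_le_one (by positivity)]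
      nlinarith
    linarith
  have hb' : (m : ℝ) / (m + 1) ≤ (1 + (-(1 / ((m : ℝ) + 1) ^ 2))) ^ (m + 1) := by
    refine le_trans (le_of_eq ?_) hb
    push_cast
    field_simp
    ring
  have hpos : (0 : ℝ) < (((m : ℝ) + 1) / m) ^ m := by positivity
  calc (((m : ℝ) + 1) / m) ^ m
      = ((m : ℝ) / (m + 1)) * ((((m : ℝ) + 1) / m) ^ m * (((m : ℝ) + 1) / m)) := by
        field_simp
    _ ≤ _ := by
        apply mul_le_mul_of_nonneg_right hb'
        positivity

theorem gE_mono {m n : ℕ} (hm : 1 ≤ m) (h : m ≤ n) : gE m ≤ gE n := by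
  induction n, h using Nat.le_induction with
  | base => exact le_refl _
  | succ n hn ih => exact ih.trans (gE_le_succ (hm.trans hn))

/-- `KK a = a/(a-1) * EE a`. -/
noncomputable def KK (a : ℕ) : ℝ := (a : ℝ) / (a - 1) * EE a

theorem gE_le_KK {a : ℕ} (ha : 2 ≤ a) : gE a ≤ KK a := by
  unfold KK
  have h := EE_mul (show 1 ≤ a by omega)
  have ha' : (2 : ℝ) ≤ a := by exact_mod_cast ha
  have h1 := gE_pos (show 1 ≤ a by omega)
  have h2 : EE a = gE a * a / (a + 1) := by
    rw [eq_div_iff (by positivity)]; exact h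
  rw [h2, div_mul_div_comm, le_div_iff₀ (by nlinarith)]
  nlinarith [mul_pos h1 (by positivity : (0 : ℝ) < a)]

theorem KK_pos {a : ℕ} (ha : 2 ≤ a) : 0 < KK a :=
  lt_of_lt_of_le (gE_pos (by omega)) (gE_le_KK ha)

theorem EE_eq_gam {j : ℕ} (hj : 1 ≤ j) : EE j * (j * gam (j - 1)) = gam j := by
  unfold EE gam
  have hj' : (0 : ℝ) < j := by exact_mod_cast hj
  have e : j - 1 + 1 = j := by omega
  rw [e]
  rcases Nat.lt_or_ge j 2 with h | h
  · have : j = 1 := by omega
    subst this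
    norm_num
  · obtain ⟨i, rfl⟩ : ∃ i, j = i + 2 := ⟨j - 2, by omega⟩
    have e2 : i + 2 - 1 - 1 = i := by omega
    have e3 : i + 2 - 1 = i + 1 := by omega
    rw [e2, e3]
    push_cast
    rw [div_pow, pow_succ ((i : ℝ) + 2) i]
    field_simp

/-- The law of the size (minus one) of a marked component. -/
noncomputable def qq (n i : ℕ) : ℝ :=
  (n.choose i : ℝ) * ((i : ℝ) + 1) ^ i * gam (n - i) / gam (n + 1)

theorem sum_qq (n : ℕ) : ∑ i ∈ range (n + 1), qq n i = 1 := by
  unfold qq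
  rw [← Finset.sum_div, div_eq_one_iff_eq (by exact_mod_cast (gam_pos _).ne')]
  rw [← abel n]
  push_cast
  rfl

theorem qq_pos {n i : ℕ} (h : i ≤ n) : 0 < qq n i := by
  unfold qq
  have h1 : (0 : ℝ) < n.choose i := by exact_mod_cast Nat.choose_pos h
  have h2 : (0 : ℝ) < gam (n - i) := by exact_mod_cast gam_pos _
  have h3 : (0 : ℝ) < gam (n + 1) := by exact_mod_cast gam_pos _
  positivity

theorem KK_mul (n : ℕ) : KK (n + 2) * ((n + 1 : ℝ) * gam (n + 1)) = gam (n + 2) := by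
  have h := EE_eq_gam (show 1 ≤ n + 2 by omega)
  rw [← h]
  unfold KK
  have e : n + 2 - 1 = n + 1 := by omega
  rw [e]
  push_cast
  have : (n : ℝ) + 2 - 1 = n + 1 := by ring
  rw [this]
  field_simp

theorem qq_F1 {n i : ℕ} (h : i ≤ n) : qq n i * EE (n + 1 - i) = qq (n + 1) i * KK (n + 2) := by
  have h1 := EE_eq_gam (show 1 ≤ n + 1 - i by omega)
  have h2 := KK_mul n
  have e1 : n + 1 - i - 1 = n - i := by omega
  rw [e1] at h1
  have hc : ((n + 1 : ℕ).choose i : ℝ) * ((n + 1 - i : ℕ) : ℝ) = (n + 1 : ℝ) * n.choose i := by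
    have := Nat.choose_mul_succ_eq n i
    have h := congrArg (Nat.cast (R := ℝ)) this
    push_cast at h ⊢
    linarith
  have hg1 : (0 : ℝ) < gam (n + 1) := by exact_mod_cast gam_pos _
  have hg2 : (0 : ℝ) < gam (n + 2) := by exact_mod_cast gam_pos _
  unfold qq
  rw [← h1]
  have e3 : gam (n + 1 + 1) = gam (n + 2) := rfl
  rw [e3, ← h2]
  have hK : KK (n + 2) ≠ 0 := (KK_pos (by omega)).ne'
  field_simp
  linear_combination (-(EE (n + 1 - i)) * gam (n - i)) * hc

theorem qq_F2 {n i : ℕ} (h : i ≤ n) : qq n i * gE (i + 1) = qq (n + 1) (i + 1) * KK (n + 2) := by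
  have h2 := KK_mul n
  have hc : ((n + 1 : ℕ).choose (i + 1) : ℝ) * ((i : ℝ) + 1) = (n + 1 : ℝ) * n.choose i := by
    have := Nat.add_one_mul_choose_eq n i
    have h := congrArg (Nat.cast (R := ℝ)) this
    push_cast at h ⊢
    linarith
  have hg1 : (0 : ℝ) < gam (n + 1) := by exact_mod_cast gam_pos _
  unfold qq gE
  have e3 : gam (n + 1 + 1) = gam (n + 2) := rfl
  have e4 : n + 1 - (i + 1) = n - i := by omega
  rw [e3, ← h2, e4]
  have hK : KK (n + 2) ≠ 0 := (KK_pos (by omega)).ne'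
  push_cast
  rw [div_pow, pow_succ ((i : ℝ) + 1) i]
  field_simp
  linear_combination (-(gam (n - i) : ℝ)) * hc

/-- Existence of the splitting probabilities. -/
theorem exists_split {a : ℕ} (ha : 2 ≤ a) : ∃ p : ℕ → ℝ, p 1 = 0 ∧ p a = 1 ∧
    (∀ k, 1 ≤ k → k ≤ a → 0 ≤ p k ∧ p k ≤ 1) ∧
    ∀ c, 1 ≤ c → c < a →
      ((c : ℝ) + 1) * p (c + 1) * EE c + c * (1 - p c) * EE (a - c) = c * KK a := by
  obtain ⟨n, rfl⟩ : ∃ n, a = n + 2 := ⟨a - 2, by omega⟩
  -- comparison of the two laws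
  have hK := KK_pos (show 2 ≤ n + 2 by omega)
  have hle1 : ∀ i, i ≤ n → qq (n + 1) i ≤ qq n i := by
    intro i hi
    have h1 := qq_F1 hi
    have h2 : EE (n + 1 - i) ≤ KK (n + 2) :=
      (EE_le_gE (by omega)).trans ((gE_mono (by omega) (by omega : n + 1 - i ≤ n + 2)).trans
        (gE_le_KK (by omega)))
    have h3 := qq_pos hi
    have h4 := EE_pos (show 1 ≤ n + 1 - i by omega)
    have h5 : qq (n + 1) i * KK (n + 2) ≤ qq n i * KK (n + 2) := by
      rw [← h1]; exact mul_le_mul_of_nonneg_left h2 h3.le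
    exact le_of_mul_le_mul_right h5 hK
  have hle2 : ∀ i, i ≤ n → qq (n + 1) (i + 1) ≤ qq n i := by
    intro i hi
    have h1 := qq_F2 hi
    have h2 : gE (i + 1) ≤ KK (n + 2) :=
      (gE_mono (by omega) (by omega : i + 1 ≤ n + 2)).trans (gE_le_KK (by omega))
    have h3 := qq_pos hi
    have h5 : qq (n + 1) (i + 1) * KK (n + 2) ≤ qq n i * KK (n + 2) := by
      rw [← h1]; exact mul_le_mul_of_nonneg_left h2 h3.le
    exact le_of_mul_le_mul_right h5 hK
  let Q : ℕ → ℕ → ℝ := fun m j => ∑ i ∈ range j, qq m i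
  let p : ℕ → ℝ := fun k => (Q n (k - 1) - Q (n + 1) (k - 1)) / qq (n + 1) (k - 1)
  have hpq : ∀ k, 1 ≤ k → k ≤ n + 2 →
      p k * qq (n + 1) (k - 1) = Q n (k - 1) - Q (n + 1) (k - 1) := by
    intro k h1 h2
    have := qq_pos (show k - 1 ≤ n + 1 by omega)
    simp only [p]
    field_simp
  have htot : Q n (n + 1) = 1 := sum_qq n
  have htot' : Q (n + 1) (n + 2) = 1 := sum_qq (n + 1)
  refine ⟨p, ?_, ?_, ?_, ?_⟩
  · simp [p, Q]
  · have h1 := hpq (n + 2) (by omega) le_rfl
    have e : n + 2 - 1 = n + 1 := by omega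
    rw [e, htot] at h1
    have h2 : Q (n + 1) (n + 2) = Q (n + 1) (n + 1) + qq (n + 1) (n + 1) :=
      Finset.sum_range_succ _ _
    have h3 := qq_pos (show n + 1 ≤ n + 1 from le_rfl)
    have h4 : p (n + 2) * qq (n + 1) (n + 1) = 1 * qq (n + 1) (n + 1) := by
      rw [h1]; linarith
    exact mul_right_cancel₀ h3.ne' h4
  · intro k hk1 hk2
    have hpos := qq_pos (show k - 1 ≤ n + 1 by omega)
    have hk := hpq k hk1 hk2
    constructor
    · have : 0 ≤ p k * qq (n + 1) (k - 1) := by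
        rw [hk, sub_nonneg]
        apply Finset.sum_le_sum
        intro i hi
        rw [mem_range] at hi
        exact hle1 i (by omega)
      exact nonneg_of_mul_nonneg_left this hpos
    · have hmain : Q n (k - 1) ≤ Q (n + 1) (k - 1) + qq (n + 1) (k - 1) := by
        -- compare the upper tails
        have e1 : Q (n + 1) (k - 1) + qq (n + 1) (k - 1) = Q (n + 1) k := by
          have : k = (k - 1) + 1 := by omega
          conv_rhs => rw [this]
          exact (Finset.sum_range_succ _ _).symm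
        rw [e1]
        have h1 : Q n (k - 1) + ∑ i ∈ Finset.Ico (k - 1) (n + 1), qq n i = 1 := by
          rw [← htot]
          exact Finset.sum_range_add_sum_Ico _ (by omega)
        have h2 : Q (n + 1) k + ∑ i ∈ Finset.Ico k (n + 2), qq (n + 1) i = 1 := by
          rw [← htot']
          exact Finset.sum_range_add_sum_Ico _ (by omega)
        have h3 : ∑ i ∈ Finset.Ico k (n + 2), qq (n + 1) i =
            ∑ i ∈ Finset.Ico (k - 1) (n + 1), qq (n + 1) (i + 1) := by
          rw [Finset.sum_Ico_add' (fun i => qq (n + 1) i) (k - 1) (n + 1) 1]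
          have : k - 1 + 1 = k := by omega
          rw [this]
        have h4 : ∑ i ∈ Finset.Ico (k - 1) (n + 1), qq (n + 1) (i + 1) ≤
            ∑ i ∈ Finset.Ico (k - 1) (n + 1), qq n i := by
          apply Finset.sum_le_sum
          intro i hi
          rw [Finset.mem_Ico] at hi
          exact hle2 i (by omega)
        linarith
      have : p k * qq (n + 1) (k - 1) ≤ 1 * qq (n + 1) (k - 1) := by
        rw [hk]; linarith
      exact le_of_mul_le_mul_right this hpos
  · intro c hc1 hc2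
    have hq := qq_pos (show c - 1 ≤ n by omega)
    have hk1 := hpq c hc1 (by omega)
    have hk2 := hpq (c + 1) (by omega) (by omega)
    have hF1 := qq_F1 (show c - 1 ≤ n by omega)
    have hF2 := qq_F2 (show c - 1 ≤ n by omega)
    have e1 : n + 1 - (c - 1) = n + 2 - c := by omega
    have e2 : c - 1 + 1 = c := by omega
    rw [e1] at hF1
    rw [e2] at hF2
    rw [Nat.add_sub_cancel] at hk2
    have hQ1 : Q n c = Q n (c - 1) + qq n (c - 1) := by
      have : c = (c - 1) + 1 := by omega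
      conv_lhs => rw [this]
      exact Finset.sum_range_succ _ _
    have hQ2 : Q (n + 1) c = Q (n + 1) (c - 1) + qq (n + 1) (c - 1) := by
      have : c = (c - 1) + 1 := by omega
      conv_lhs => rw [this]
      exact Finset.sum_range_succ _ _
    have hsum : p (c + 1) * qq (n + 1) c + (1 - p c) * qq (n + 1) (c - 1) = qq n (c - 1) := by
      have : (1 - p c) * qq (n + 1) (c - 1) = qq (n + 1) (c - 1) - p c * qq (n + 1) (c - 1) := by
        ring
      rw [this, hk1, hk2, hQ1, hQ2]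
      ring
    have hE := EE_mul hc1
    -- multiply by `qq n (c-1)`
    have hfin : (((c : ℝ) + 1) * p (c + 1) * EE c + c * (1 - p c) * EE (n + 2 - c)) *
        qq n (c - 1) = (c * KK (n + 2)) * qq n (c - 1) := by
      have : ((c : ℝ) + 1) * p (c + 1) * EE c = c * p (c + 1) * gE c := by
        linear_combination p (c + 1) * hE
      rw [this]
      linear_combination (c * p (c + 1)) * hF2 + (c * (1 - p c)) * hF1 +
        (c * KK (n + 2)) * hsum
    exact mul_right_cancel₀ hq.ne' hfin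

end Pool.Agent.Helper30
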