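import Pool.Agent.Helper30.TreeRec
import Pool.Agent.Helper30.Split

/-!
# The rooted leaf-deletion inequality
-/

namespace Pool.Agent.Helper30

open SimpleGraph Finset

section reindex

variable {V : Type*} [DecidableEq V]

theorem reindex_erase (A : Finset V) (g : V → Finset V → ℝ) :
    ∑ C ∈ A.powerset, ∑ v ∈ C, g v (C.erase v) =
      ∑ v ∈ A, ∑ C ∈ (A.erase v).powerset, g v C := by
  have h1 : ∑ C ∈ A.powerset, ∑ v ∈ C, g v (C.erase v) =
      ∑ v ∈ A, ∑ C ∈ A.powerset.filter (fun C => v ∈ C), g v (C.erase v) := by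
    apply Finset.sum_comm'
    intro C v
    rw [mem_powerset, mem_filter, mem_powerset]
    constructor
    · rintro ⟨h1, h2⟩; exact ⟨⟨h1, h2⟩, h1 h2⟩
    · rintro ⟨⟨h1, h2⟩, _⟩; exact ⟨h1, h2⟩
  rw [h1]
  refine Finset.sum_congr rfl (fun v hv => ?_)
  refine Finset.sum_bij' (fun C _ => C.erase v) (fun C _ => insert v C) ?_ ?_ ?_ ?_ ?_
  · intro C hC
    rw [mem_filter, mem_powerset] at hC
    rw [mem_powerset]
    exact Finset.erase_subset_erase v hC.1
  · intro C hC
    rw [mem_powerset] at hC
    rw [mem_filter, mem_powerset]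
    refine ⟨?_, mem_insert_self _ _⟩
    rw [Finset.insert_subset_iff]
    exact ⟨hv, hC.trans (Finset.erase_subset _ _)⟩
  · intro C hC
    rw [mem_filter] at hC
    exact Finset.insert_erase hC.2
  · intro C hC
    rw [mem_powerset] at hC
    exact Finset.erase_insert (fun h => (Finset.mem_erase.1 (hC h)).1 rfl)
  · intro C _
    rfl

theorem reindex_sdiff (A : Finset V) (g : V → Finset V → ℝ) :
    ∑ C ∈ A.powerset, ∑ v ∈ A \ C, g v C =
      ∑ v ∈ A, ∑ C ∈ (A.erase v).powerset, g v C := by
  apply Finset.sum_comm'
  intro C v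
  rw [mem_powerset, mem_sdiff, mem_powerset]
  constructor
  · rintro ⟨h1, h2, h3⟩
    refine ⟨fun x hx => Finset.mem_erase.2 ⟨?_, h1 hx⟩, h2⟩
    rintro rfl
    exact h3 hx
  · rintro ⟨h1, h2⟩
    exact ⟨h1.trans (Finset.erase_subset _ _), h2, fun h => (Finset.mem_erase.1 (h1 h)).1 rfl⟩

end reindex

variable {V : Type*} [Fintype V] [DecidableEq V]

theorem cnt_singleton_le (G : SimpleGraph V) (v : V) : cnt G {v} ≤ 1 := by
  classical
  unfold cnt
  rw [Finset.card_le_one]
  intro H hH H' hH'
  rw [mem_trees] at hH hH'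
  have key : ∀ {K : SimpleGraph V}, IsTreeOn K (({v} : Finset V) : Set V) → K = ⊥ := by
    intro K hK
    ext a b
    simp only [bot_adj, iff_false]
    intro hab
    have h1 := hK.supp hab
    have h2 := hK.supp hab.symm
    simp only [coe_singleton, Set.mem_singleton_iff] at h1 h2
    exact hab.ne (h1.trans h2.symm)
  rw [key hH.2, key hH'.2]

theorem deg_empty (G : SimpleGraph V) (r : V) : deg G r ∅ = 0 := by
  classical
  simp [deg]

theorem deg_le_card (G : SimpleGraph V) (r : V) (C : Finset V) : deg G r C ≤ C.card := by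
  classical
  exact Finset.card_filter_le _ _

open Classical in
/-- The weight of a branch: number of trees on `C` times the number of neighbours of the root. -/
noncomputable def hh (G : SimpleGraph V) (r : V) (C : Finset V) : ℝ := deg G r C * cnt G C

theorem hh_nonneg (G : SimpleGraph V) (r : V) (C : Finset V) : 0 ≤ hh G r C := by
  unfold hh; positivity

theorem hh_empty (G : SimpleGraph V) (r : V) : hh G r ∅ = 0 := by
  unfold hh; rw [deg_empty]; simp

/-- The branch recursion over the reals. -/
theorem branch_recursion_real (G : SimpleGraph V) {S : Finset V} {r : V} (hr : r ∈ S) :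
    ((S.erase r).card : ℝ) * cnt G S =
      ∑ C ∈ (S.erase r).powerset, (C.card : ℝ) * hh G r C * cnt G (S \ C) := by
  have := congrArg (Nat.cast (R := ℝ)) (branch_recursion G hr)
  push_cast at this
  rw [this]
  refine Finset.sum_congr rfl (fun C _ => ?_)
  unfold hh
  ring

/-- **Rooted leaf-deletion inequality.** -/
theorem root_ineq (G : SimpleGraph V) : ∀ a : ℕ, 1 ≤ a → ∀ (S : Finset V) (r : V), r ∈ S →
    (S.erase r).card = a →
    (cnt G S : ℝ) ≤ EE a * ∑ v ∈ S.erase r, (cnt G (S.erase v) : ℝ) := by
  classical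
  intro a
  induction a using Nat.strong_induction_on with
  | _ a ih =>
  intro ha S r hr hcard
  have hrec := branch_recursion_real G hr
  rw [hcard] at hrec
  rcases Nat.lt_or_ge a 2 with ha2 | ha2
  · -- the case `a = 1`
    have ha1 : a = 1 := by omega
    subst ha1
    obtain ⟨v, hv⟩ := Finset.card_eq_one.1 hcard
    rw [hv] at hrec ⊢
    rw [Finset.sum_singleton]
    have hp : ({v} : Finset V).powerset = {∅, {v}} := by
      ext C
      simp only [mem_powerset, Finset.subset_singleton_iff, mem_insert, mem_singleton]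
    rw [hp, Finset.sum_pair (by simp)] at hrec
    rw [hh_empty] at hrec
    have hEE : EE 1 = 1 := by simp [EE]
    rw [hEE, one_mul]
    have hS : S \ {v} = S.erase v := Finset.sdiff_singleton_eq_erase v S
    rw [hS] at hrec
    have h1 : hh G r {v} ≤ 1 := by
      unfold hh
      have e1 : (deg G r {v} : ℝ) ≤ 1 := by
        exact_mod_cast (deg_le_card G r {v}).trans (by simp)
      have e2 : (cnt G {v} : ℝ) ≤ 1 := by exact_mod_cast cnt_singleton_le G v
      have e3 : (0 : ℝ) ≤ deg G r {v} := by positivity
      have e4 : (0 : ℝ) ≤ cnt G {v} := by positivity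
      nlinarith
    have h2 : (0 : ℝ) ≤ cnt G (S.erase v) := by positivity
    simp only [Finset.card_singleton, Nat.cast_one, one_mul, mul_zero, zero_mul, zero_add] at hrec
    rw [hrec]
    nlinarith
  · -- the main case
    obtain ⟨p, hp1, hpa, hp01, hpc⟩ := exists_split ha2
    set A := S.erase r with hA
    have hrA : r ∉ A := Finset.notMem_erase r S
    have hAS : A ⊆ S := Finset.erase_subset r S
    -- induction hypothesis for branches
    have IH1 : ∀ C, C ⊆ A → 2 ≤ C.card →
        hh G r C ≤ EE (C.card - 1) * ∑ v ∈ C, hh G r (C.erase v) := by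
      intro C hC hC2
      have hCa : C.card ≤ a := by rw [← hcard]; exact Finset.card_le_card hC
      have h1 : hh G r C = ∑ y ∈ C.filter (fun y => G.Adj r y), (cnt G C : ℝ) := by
        rw [Finset.sum_const, nsmul_eq_mul]; rfl
      have h2 : ∑ v ∈ C, hh G r (C.erase v) =
          ∑ y ∈ C.filter (fun y => G.Adj r y), ∑ v ∈ C.erase y, (cnt G (C.erase v) : ℝ) := by
        have h3 : ∀ v ∈ C, hh G r (C.erase v) =
            ∑ y ∈ (C.erase v).filter (fun y => G.Adj r y), (cnt G (C.erase v) : ℝ) := by
          intro v _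
          rw [Finset.sum_const, nsmul_eq_mul]; rfl
        rw [Finset.sum_congr rfl h3]
        apply Finset.sum_comm'
        intro v y
        simp only [mem_filter, mem_erase]
        constructor
        · rintro ⟨h1, ⟨h2, h3⟩, h4⟩
          exact ⟨⟨fun h => h2 h.symm, h1⟩, h3, h4⟩
        · rintro ⟨⟨h1, h2⟩, h3, h4⟩
          exact ⟨h2, ⟨fun h => h1 h.symm, h3⟩, h4⟩
      rw [h1, h2, Finset.mul_sum]
      apply Finset.sum_le_sum
      intro y hy
      rw [mem_filter] at hy
      have hcy : (C.erase y).card = C.card - 1 := Finset.card_erase_of_mem hy.1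
      exact ih (C.card - 1) (by omega) (by omega) C y hy.1 hcy
    -- induction hypothesis for the rest
    have IH2 : ∀ C, C ⊆ A → 1 ≤ C.card → C.card < a →
        (cnt G (S \ C) : ℝ) ≤ EE (a - C.card) * ∑ v ∈ A \ C, (cnt G ((S \ C).erase v) : ℝ) := by
      intro C hC hC1 hC2
      have hrC : r ∈ S \ C := mem_sdiff.2 ⟨hr, fun h => hrA (hC h)⟩
      have he : (S \ C).erase r = A \ C := by
        rw [hA]
        ext x
        simp only [mem_erase, mem_sdiff]
        tauto
      have hcc : ((S \ C).erase r).card = a - C.card := by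
        rw [he, Finset.card_sdiff_of_subset hC, hcard]
      have := ih (a - C.card) (by omega) (by omega) (S \ C) r hrC hcc
      rwa [he] at this
    -- the termwise bound
    have hterm : ∀ C ∈ A.powerset, (C.card : ℝ) * hh G r C * cnt G (S \ C) ≤
        ∑ v ∈ C, ((((C.erase v).card : ℝ) + 1) * p ((C.erase v).card + 1) *
          EE (C.erase v).card) * (hh G r (C.erase v) * cnt G ((S.erase v) \ (C.erase v))) +
        ∑ v ∈ A \ C, ((C.card : ℝ) * (1 - p C.card) * EE (a - C.card)) *
          (hh G r C * cnt G ((S.erase v) \ C)) := by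
      intro C hC
      rw [mem_powerset] at hC
      have hCa : C.card ≤ a := by rw [← hcard]; exact Finset.card_le_card hC
      rcases Nat.eq_zero_or_pos C.card with h0 | hpos
      · rw [Finset.card_eq_zero] at h0
        subst h0
        simp
      -- rewrite the sums
      have e1 : ∑ v ∈ C, ((((C.erase v).card : ℝ) + 1) * p ((C.erase v).card + 1) *
          EE (C.erase v).card) * (hh G r (C.erase v) * cnt G ((S.erase v) \ (C.erase v))) =
          (C.card : ℝ) * p C.card *
            (EE (C.card - 1) * ∑ v ∈ C, hh G r (C.erase v)) * cnt G (S \ C) := by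
        rw [Finset.mul_sum, Finset.mul_sum, Finset.sum_mul]
        refine Finset.sum_congr rfl (fun v hv => ?_)
        have c1 : (C.erase v).card = C.card - 1 := Finset.card_erase_of_mem hv
        have c2 : (C.card - 1 : ℕ) + 1 = C.card := by omega
        have c3 : (((C.card - 1 : ℕ) : ℝ)) + 1 = C.card := by exact_mod_cast c2
        have c4 : (S.erase v) \ (C.erase v) = S \ C := by
          ext x
          simp only [mem_sdiff, mem_erase]
          constructor
          · rintro ⟨⟨h1, h2⟩, h3⟩
            exact ⟨h2, fun h => h3 ⟨h1, h⟩⟩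
          · rintro ⟨h1, h2⟩
            refine ⟨⟨?_, h1⟩, fun h => h2 h.2⟩
            rintro rfl
            exact h2 hv
        rw [c1, c2, c3, c4]
        ring
      have e2 : ∑ v ∈ A \ C, ((C.card : ℝ) * (1 - p C.card) * EE (a - C.card)) *
          (hh G r C * cnt G ((S.erase v) \ C)) =
          (C.card : ℝ) * (1 - p C.card) * hh G r C *
            (EE (a - C.card) * ∑ v ∈ A \ C, (cnt G ((S \ C).erase v) : ℝ)) := by
        rw [Finset.mul_sum, Finset.mul_sum]
        refine Finset.sum_congr rfl (fun v hv => ?_)
        have c4 : (S.erase v) \ C = (S \ C).erase v := by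
          ext x
          simp only [mem_sdiff, mem_erase]
          tauto
        rw [c4]
        ring
      rw [e1, e2]
      have hh0 := hh_nonneg G r C
      have hcn : (0 : ℝ) ≤ cnt G (S \ C) := by positivity
      have hk0 : (0 : ℝ) ≤ C.card := by positivity
      obtain ⟨hpk0, hpk1⟩ := hp01 C.card hpos hCa
      -- first part
      have f1 : (C.card : ℝ) * p C.card * hh G r C * cnt G (S \ C) ≤
          (C.card : ℝ) * p C.card *
            (EE (C.card - 1) * ∑ v ∈ C, hh G r (C.erase v)) * cnt G (S \ C) := by
        rcases Nat.lt_or_ge C.card 2 with hlt | hge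
        · have : C.card = 1 := by omega
          rw [this, hp1]
          simp
        · apply mul_le_mul_of_nonneg_right _ hcn
          exact mul_le_mul_of_nonneg_left (IH1 C hC hge) (mul_nonneg hk0 hpk0)
      have f2 : (C.card : ℝ) * (1 - p C.card) * hh G r C * cnt G (S \ C) ≤
          (C.card : ℝ) * (1 - p C.card) * hh G r C *
            (EE (a - C.card) * ∑ v ∈ A \ C, (cnt G ((S \ C).erase v) : ℝ)) := by
        rcases Nat.lt_or_ge C.card a with hlt | hge
        · exact mul_le_mul_of_nonneg_left (IH2 C hC hpos hlt)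
            (mul_nonneg (mul_nonneg hk0 (by linarith)) hh0)
        · have : C.card = a := by omega
          rw [this, hpa]
          simp
      linarith [f1, f2]
    -- sum up
    have hsum := Finset.sum_le_sum hterm
    rw [← hrec, Finset.sum_add_distrib] at hsum
    rw [reindex_erase A (fun v C => (((C.card : ℝ) + 1) * p (C.card + 1) * EE C.card) *
      (hh G r C * cnt G ((S.erase v) \ C)))] at hsum
    rw [reindex_sdiff A (fun v C => ((C.card : ℝ) * (1 - p C.card) * EE (a - C.card)) *
      (hh G r C * cnt G ((S.erase v) \ C)))] at hsum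
    rw [← Finset.sum_add_distrib] at hsum
    have hfin : ∀ v ∈ A, (∑ C ∈ (A.erase v).powerset,
        (((C.card : ℝ) + 1) * p (C.card + 1) * EE C.card) * (hh G r C * cnt G ((S.erase v) \ C)) +
        ∑ C ∈ (A.erase v).powerset, ((C.card : ℝ) * (1 - p C.card) * EE (a - C.card)) *
          (hh G r C * cnt G ((S.erase v) \ C))) =
        KK a * (((a : ℝ) - 1) * cnt G (S.erase v)) := by
      intro v hv
      have hrv : r ≠ v := fun h => hrA (h ▸ hv)
      have hr' : r ∈ S.erase v := mem_erase.2 ⟨hrv, hr⟩
      have hrec' := branch_recursion_real G hr'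
      have e1 : (S.erase v).erase r = A.erase v := by
        rw [hA, Finset.erase_right_comm]
      have e2 : (A.erase v).card = a - 1 := by
        rw [Finset.card_erase_of_mem hv, hcard]
      have e3 : (((a - 1 : ℕ) : ℝ)) = (a : ℝ) - 1 := by
        rw [Nat.cast_sub (by omega)]; simp
      rw [e1, e2, e3] at hrec'
      rw [hrec', Finset.mul_sum, ← Finset.sum_add_distrib]
      refine Finset.sum_congr rfl (fun C hC => ?_)
      rw [mem_powerset] at hC
      have hCa : C.card ≤ a - 1 := by rw [← e2]; exact Finset.card_le_card hC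
      rcases Nat.eq_zero_or_pos C.card with h0 | hpos
      · rw [Finset.card_eq_zero] at h0
        subst h0
        rw [hh_empty]
        simp
      · have := hpc C.card hpos (by omega)
        linear_combination (hh G r C * cnt G ((S.erase v) \ C)) * this
    rw [Finset.sum_congr rfl hfin, ← Finset.mul_sum, ← Finset.mul_sum] at hsum
    have ha' : (2 : ℝ) ≤ a := by exact_mod_cast ha2
    have hK : KK a * (((a : ℝ) - 1) * ∑ v ∈ A, (cnt G (S.erase v) : ℝ)) =
        a * (EE a * ∑ v ∈ A, (cnt G (S.erase v) : ℝ)) := by
      unfold KK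
      have : (a : ℝ) - 1 ≠ 0 := by linarith
      field_simp
    rw [hK] at hsum
    exact le_of_mul_le_mul_left hsum (by linarith)

end Pool.Agent.Helper30
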