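import Mathlib

/-!
# Trees on a vertex set and the branch recursion

`IsTreeOn H S` says that the graph `H` (on the whole vertex type) is a tree with vertex set `S`.
`cnt G S` is the number of subgraphs of `G` which are trees with vertex set `S`.
The main result is the recursion `branch_recursion` obtained by splitting a tree at a root.
-/

namespace Pool.Agent.Helper30

open SimpleGraph Finset

variable {V : Type*}

/-- The graph `H` restricted to the edges inside `C` (all vertices are kept). -/
def res (H : SimpleGraph V) (C : Set V) : SimpleGraph V where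
  Adj u v := H.Adj u v ∧ u ∈ C ∧ v ∈ C
  symm := ⟨fun _ _ h => ⟨h.1.symm, h.2.2, h.2.1⟩⟩
  loopless := ⟨fun _ h => h.1.ne rfl⟩

theorem res_adj {H : SimpleGraph V} {C : Set V} {u v : V} :
    (res H C).Adj u v ↔ H.Adj u v ∧ u ∈ C ∧ v ∈ C := Iff.rfl

theorem res_le (H : SimpleGraph V) (C : Set V) : res H C ≤ H := fun _ _ h => h.1

theorem res_mono (H : SimpleGraph V) {C D : Set V} (h : C ⊆ D) : res H C ≤ res H D :=
  fun _ _ hh => ⟨hh.1, h hh.2.1, h hh.2.2⟩

/-- `H` is a tree with vertex set `S` (vertices outside `S` are isolated in `H`). -/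
structure IsTreeOn (H : SimpleGraph V) (S : Set V) : Prop where
  nonempty : S.Nonempty
  acyc : H.IsAcyclic
  supp : ∀ ⦃u v⦄, H.Adj u v → u ∈ S
  conn : ∀ ⦃u⦄, u ∈ S → ∀ ⦃v⦄, v ∈ S → H.Reachable u v

/-- Reachability transfers along maps sending edges to edges or to equalities. -/
theorem reachable_map {W : Type*} {A : SimpleGraph V} {B : SimpleGraph W} (f : V → W)
    (h : ∀ ⦃u v⦄, A.Adj u v → f u = f v ∨ B.Adj (f u) (f v)) {u v : V} (huv : A.Reachable u v) :
    B.Reachable (f u) (f v) := by
  obtain ⟨p⟩ := huv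
  induction p with
  | nil => exact Reachable.refl _
  | cons h' _ ih =>
    rcases h h' with h1 | h1
    · rw [h1]; exact ih
    · exact h1.reachable.trans ih

/-- A property preserved along edges is preserved by reachability. -/
theorem reachable_invariant {A : SimpleGraph V} (P : V → Prop)
    (h : ∀ ⦃u v⦄, A.Adj u v → P u → P v) {u v : V} (huv : A.Reachable u v) (hu : P u) : P v := by
  obtain ⟨p⟩ := huv
  induction p with
  | nil => exact hu
  | cons h' _ ih => exact ih (h h' hu)

/-- The branch at `y` of `H` with root `r`. -/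
def branch (H : SimpleGraph V) (r y : V) : Set V := {x | (res H {r}ᶜ).Reachable y x}

theorem self_mem_branch (H : SimpleGraph V) (r y : V) : y ∈ branch H r y := Reachable.refl _

section split

variable {H : SimpleGraph V} {S : Set V} {r y : V}

theorem ne_of_reachable_res {H : SimpleGraph V} {C : Set V} {u v : V}
    (h : (res H C).Reachable u v) (hu : u ∈ C) : v ∈ C :=
  reachable_invariant (A := res H C) (fun v => v ∈ C) (fun _ _ h _ => h.2.2) h hu

theorem branch_subset (hH : IsTreeOn H S) (hy : H.Adj r y) : branch H r y ⊆ S \ {r} := by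
  intro x hx
  refine ⟨?_, ?_⟩
  · exact reachable_invariant (A := res H {r}ᶜ) (fun v => v ∈ S)
      (fun _ _ h _ => hH.supp h.1.symm) hx (hH.supp hy.symm)
  · exact ne_of_reachable_res hx hy.ne.symm

/-- Two neighbours of `r` with a common vertex in their branches are equal. -/
theorem branch_unique (hH : H.IsAcyclic) {y' x : V} (hy : H.Adj r y) (hy' : H.Adj r y')
    (hx : x ∈ branch H r y) (hx' : x ∈ branch H r y') : y = y' := by
  by_contra hne
  have hb := (isAcyclic_iff_forall_adj_isBridge.1 hH) hy'
  rw [isBridge_iff] at hb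
  apply hb
  have h1 : (H.deleteEdges {s(r, y')}).Adj r y := by
    rw [deleteEdges_adj]
    refine ⟨hy, ?_⟩
    simp only [Set.mem_singleton_iff, Sym2.eq_iff]
    rintro (⟨-, h⟩ | ⟨h, -⟩)
    · exact hne h
    · exact hy'.ne h
  have h2 : res H {r}ᶜ ≤ H.deleteEdges {s(r, y')} := by
    intro u v huv
    rw [deleteEdges_adj]
    refine ⟨huv.1, ?_⟩
    simp only [Set.mem_singleton_iff, Sym2.eq_iff]
    rintro (⟨h, -⟩ | ⟨-, h⟩)
    · exact huv.2.1 h
    · exact huv.2.2 h
  exact h1.reachable.trans ((Reachable.trans hx (Reachable.symm hx')).mono h2)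

/-- A walk avoiding `r` gives reachability in `res H {r}ᶜ`. -/
theorem reachable_of_walk_avoid {a b : V} (q : H.Walk a b) (hq : r ∉ q.support) :
    (res H {r}ᶜ).Reachable a b := by
  induction q with
  | nil => exact Reachable.refl _
  | cons h p ih =>
    rw [Walk.support_cons, List.mem_cons, not_or] at hq
    refine Reachable.trans ?_ (ih hq.2)
    refine Adj.reachable ⟨h, fun hc => hq.1 hc.symm, fun hc => ?_⟩
    rw [Set.mem_singleton_iff] at hc
    subst hc
    exact hq.2 p.start_mem_support

theorem exists_branch (hH : IsTreeOn H S) (hr : r ∈ S) {x : V} (hx : x ∈ S) (hxr : x ≠ r) :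
    ∃ y, H.Adj r y ∧ x ∈ branch H r y := by
  obtain ⟨p, hp⟩ := (hH.conn hr hx).exists_isPath
  cases p with
  | nil => exact absurd rfl hxr
  | cons h q =>
    rw [Walk.cons_isPath_iff] at hp
    exact ⟨_, h, reachable_of_walk_avoid q hp.2⟩


/-- The part of the tree in the branch at `y` is a tree. -/
theorem isTreeOn_res_branch (hH : IsTreeOn H S) :
    IsTreeOn (res H (branch H r y)) (branch H r y) := by
  refine ⟨⟨y, self_mem_branch H r y⟩, hH.acyc.anti (res_le _ _), fun u v h => h.2.1, ?_⟩
  have key : ∀ x ∈ branch H r y, (res H (branch H r y)).Reachable y x := by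
    intro x hx
    refine reachable_invariant (A := res H {r}ᶜ)
      (fun v => v ∈ branch H r y ∧ (res H (branch H r y)).Reachable y v) ?_ hx
      ⟨self_mem_branch H r y, Reachable.refl _⟩ |>.2
    rintro u v huv ⟨hu, hyu⟩
    have hv : v ∈ branch H r y := Reachable.trans hu huv.reachable
    exact ⟨hv, hyu.trans (Adj.reachable ⟨huv.1, hu, hv⟩)⟩
  intro u hu v hv
  exact (key u hu).symm.trans (key v hv)

/-- The part of the tree outside the branch at `y` is a tree. -/
theorem isTreeOn_res_compl (hH : IsTreeOn H S) (hr : r ∈ S) (hy : H.Adj r y) :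
    IsTreeOn (res H (S \ branch H r y)) (S \ branch H r y) := by
  have hrB : ∀ y', H.Adj r y' → r ∉ branch H r y' := fun y' hy' hc =>
    (branch_subset hH hy' hc).2 rfl
  have hrD : r ∈ S \ branch H r y := ⟨hr, hrB y hy⟩
  refine ⟨⟨r, hrD⟩, hH.acyc.anti (res_le _ _), fun u v h => h.2.1, ?_⟩
  have key : ∀ x ∈ S \ branch H r y, (res H (S \ branch H r y)).Reachable r x := by
    rintro x ⟨hxS, hxB⟩
    by_cases hxr : x = r
    · rw [hxr]
    obtain ⟨y', hy', hxy'⟩ := exists_branch hH hr hxS hxr
    have hsub : ∀ z ∈ branch H r y', z ∈ S \ branch H r y := by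
      intro z hz
      refine ⟨(branch_subset hH hy' hz).1, fun hzB => hxB ?_⟩
      rw [branch_unique hH.acyc hy hy' hzB hz]
      exact hxy'
    have h1 : (res H (S \ branch H r y)).Adj r y' :=
      ⟨hy', hrD, hsub _ (self_mem_branch H r y')⟩
    refine h1.reachable.trans ?_
    have h2 := (isTreeOn_res_branch (r := r) (y := y') hH).conn (self_mem_branch H r y') hxy'
    exact h2.mono (res_mono H hsub)
  intro u hu v hv
  exact (key u hu).symm.trans (key v hv)

theorem eq_sup (hH : IsTreeOn H S) (hr : r ∈ S) (hy : H.Adj r y) :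
    H = res H (branch H r y) ⊔ res H (S \ branch H r y) ⊔ edge r y := by
  have hrB : ∀ y', H.Adj r y' → r ∉ branch H r y' := fun y' hy' hc =>
    (branch_subset hH hy' hc).2 rfl
  have hcase : ∀ v, H.Adj r v → v ∈ branch H r y → v = y := fun v hv hvB =>
    (branch_unique hH.acyc hy hv hvB (self_mem_branch H r v)).symm
  ext u v
  simp only [sup_adj, res_adj, edge_adj]
  constructor
  · intro huv
    have huS := hH.supp huv
    have hvS := hH.supp huv.symm
    by_cases hu : u = r
    · subst hu
      by_cases hvB : v ∈ branch H u y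
      · right
        exact ⟨Or.inl ⟨rfl, hcase v huv hvB⟩, huv.ne⟩
      · left; right
        exact ⟨huv, ⟨huS, hrB y hy⟩, ⟨hvS, hvB⟩⟩
    by_cases hv : v = r
    · subst hv
      by_cases huB : u ∈ branch H v y
      · right
        exact ⟨Or.inr ⟨hcase u huv.symm huB, rfl⟩, huv.ne⟩
      · left; right
        exact ⟨huv, ⟨huS, huB⟩, ⟨hvS, hrB y hy⟩⟩
    have hadj : (res H {r}ᶜ).Adj u v := ⟨huv, hu, hv⟩
    by_cases huB : u ∈ branch H r y
    · left; left
      exact ⟨huv, huB, Reachable.trans huB hadj.reachable⟩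
    · left; right
      refine ⟨huv, ⟨huS, huB⟩, ⟨hvS, fun hvB => huB ?_⟩⟩
      exact Reachable.trans hvB hadj.symm.reachable
  · rintro ((h | h) | ⟨(⟨rfl, rfl⟩ | ⟨rfl, rfl⟩), -⟩)
    · exact h.1
    · exact h.1
    · exact hy
    · exact hy.symm

end split

/-! ### Gluing two trees -/

section glue

variable {H1 H2 : SimpleGraph V} {C D : Set V} {r y : V}

theorem isAcyclic_sup_of_disjoint (h1 : IsTreeOn H1 C) (h2 : IsTreeOn H2 D) (hCD : Disjoint C D) :
    (H1 ⊔ H2).IsAcyclic := by
  classical
  rw [isAcyclic_iff_forall_adj_isBridge]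
  -- it suffices to treat edges of the first graph
  have key : ∀ {A B : SimpleGraph V} {X Y : Set V}, IsTreeOn A X → IsTreeOn B Y →
      Disjoint X Y → ∀ ⦃u v⦄, A.Adj u v → ¬ ((A ⊔ B).deleteEdges {s(u, v)}).Reachable u v := by
    intro A B X Y hA hB hXY u v huv hreach
    have hb := (isAcyclic_iff_forall_adj_isBridge.1 hA.acyc) huv
    rw [isBridge_iff] at hb
    apply hb
    have huX := hA.supp huv
    have hvX := hA.supp huv.symm
    have := reachable_map (B := A.deleteEdges {s(u, v)}) (fun w => if w ∈ X then w else u) ?_ hreach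
    · simpa only [if_pos huX, if_pos hvX] using this
    · intro a b hab
      rw [deleteEdges_adj, sup_adj] at hab
      obtain ⟨hab | hab, hne⟩ := hab
      · right
        have haX := hA.supp hab
        have hbX := hA.supp hab.symm
        simp only [if_pos haX, if_pos hbX]
        rw [deleteEdges_adj]
        exact ⟨hab, hne⟩
      · left
        have haX : a ∉ X := fun h => Set.disjoint_left.1 hXY h (hB.supp hab)
        have hbX : b ∉ X := fun h => Set.disjoint_left.1 hXY h (hB.supp hab.symm)
        simp only [if_neg haX, if_neg hbX]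
  intro u v huv
  rw [isBridge_iff]
  rcases huv with huv | huv
  · exact key h1 h2 hCD huv
  · rw [sup_comm]
    exact key h2 h1 hCD.symm huv

theorem isTreeOn_glue (h1 : IsTreeOn H1 C) (h2 : IsTreeOn H2 D) (hCD : Disjoint C D)
    (hy : y ∈ C) (hr : r ∈ D) : IsTreeOn (H1 ⊔ H2 ⊔ edge r y) (C ∪ D) := by
  have hne : r ≠ y := fun h => Set.disjoint_left.1 hCD hy (h ▸ hr)
  have hry : (H1 ⊔ H2 ⊔ edge r y).Adj r y := by
    rw [sup_adj, edge_adj]
    exact Or.inr ⟨Or.inl ⟨rfl, rfl⟩, hne⟩
  refine ⟨⟨y, Or.inl hy⟩, ?_, ?_, ?_⟩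
  · refine IsAcyclic.sup_edge_of_not_reachable ?_ (isAcyclic_sup_of_disjoint h1 h2 hCD)
    intro hreach
    have : y ∈ D := reachable_invariant (A := H1 ⊔ H2) (fun v => v ∈ D) ?_ hreach hr
    · exact Set.disjoint_left.1 hCD hy this
    · intro u v huv hu
      rcases huv with huv | huv
      · exact absurd hu (Set.disjoint_left.1 hCD (h1.supp huv))
      · exact h2.supp huv.symm
  · intro u v huv
    simp only [sup_adj, edge_adj] at huv
    rcases huv with (h | h) | ⟨(⟨rfl, rfl⟩ | ⟨rfl, rfl⟩), -⟩
    · exact Or.inl (h1.supp h)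
    · exact Or.inr (h2.supp h)
    · exact Or.inr hr
    · exact Or.inl hy
  · have key : ∀ u ∈ C ∪ D, (H1 ⊔ H2 ⊔ edge r y).Reachable r u := by
      rintro u (hu | hu)
      · refine hry.reachable.trans ((h1.conn hy hu).mono ?_)
        exact le_sup_left.trans le_sup_left
      · exact (h2.conn hr hu).mono (le_sup_right.trans le_sup_left)
    intro u hu v hv
    exact (key u hu).symm.trans (key v hv)

theorem branch_glue (h1 : IsTreeOn H1 C) (h2 : IsTreeOn H2 D) (hCD : Disjoint C D)
    (hy : y ∈ C) (hr : r ∈ D) : branch (H1 ⊔ H2 ⊔ edge r y) r y = C := by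
  have hrC : r ∉ C := fun h => Set.disjoint_left.1 hCD h hr
  ext x
  constructor
  · intro hx
    refine reachable_invariant (A := res (H1 ⊔ H2 ⊔ edge r y) {r}ᶜ) (fun v => v ∈ C) ?_ hx hy
    rintro u v ⟨huv, hu, hv⟩ huC
    simp only [sup_adj, edge_adj] at huv
    rcases huv with (h | h) | ⟨(⟨rfl, rfl⟩ | ⟨rfl, rfl⟩), -⟩
    · exact h1.supp h.symm
    · exact absurd (h2.supp h) (Set.disjoint_left.1 hCD huC)
    · exact hy
    · exact absurd rfl hv
  · intro hx
    refine (h1.conn hy hx).mono ?_
    intro u v huv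
    refine ⟨Or.inl (Or.inl huv), ?_, ?_⟩
    · intro h
      exact hrC ((Set.mem_singleton_iff.1 h) ▸ h1.supp huv)
    · intro h
      exact hrC ((Set.mem_singleton_iff.1 h) ▸ h1.supp huv.symm)

theorem res_glue_left (h1 : IsTreeOn H1 C) (h2 : IsTreeOn H2 D) (hCD : Disjoint C D)
    (hr : r ∈ D) : res (H1 ⊔ H2 ⊔ edge r y) C = H1 := by
  ext u v
  simp only [res_adj, sup_adj, edge_adj]
  constructor
  · rintro ⟨(h | h) | ⟨(⟨rfl, rfl⟩ | ⟨rfl, rfl⟩), -⟩, hu, hv⟩
    · exact h
    · exact absurd (h2.supp h) (Set.disjoint_left.1 hCD hu)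
    · exact absurd hr (Set.disjoint_left.1 hCD hu)
    · exact absurd hr (Set.disjoint_left.1 hCD hv)
  · intro h
    exact ⟨Or.inl (Or.inl h), h1.supp h, h1.supp h.symm⟩

theorem res_glue_right (h1 : IsTreeOn H1 C) (h2 : IsTreeOn H2 D) (hCD : Disjoint C D)
    (hy : y ∈ C) : res (H1 ⊔ H2 ⊔ edge r y) D = H2 := by
  ext u v
  simp only [res_adj, sup_adj, edge_adj]
  constructor
  · rintro ⟨(h | h) | ⟨(⟨rfl, rfl⟩ | ⟨rfl, rfl⟩), -⟩, hu, hv⟩
    · exact absurd hu (Set.disjoint_left.1 hCD (h1.supp h))
    · exact h
    · exact absurd hv (Set.disjoint_left.1 hCD hy)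
    · exact absurd hu (Set.disjoint_left.1 hCD hy)
  · intro h
    exact ⟨Or.inl (Or.inr h), h2.supp h, h2.supp h.symm⟩

end glue

/-! ### Counting -/

section count

variable [Fintype V] [DecidableEq V]

open Classical in
/-- The finite set of subgraphs of `G` (as graphs on `V`) that are trees with vertex set `S`. -/
noncomputable def trees (G : SimpleGraph V) (S : Finset V) : Finset (SimpleGraph V) :=
  Finset.univ.filter (fun H => H ≤ G ∧ IsTreeOn H (S : Set V))

theorem mem_trees {G : SimpleGraph V} {S : Finset V} {H : SimpleGraph V} :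
    H ∈ trees G S ↔ H ≤ G ∧ IsTreeOn H (S : Set V) := by
  classical
  simp [trees]

/-- The number of subtrees of `G` with vertex set `S`. -/
noncomputable def cnt (G : SimpleGraph V) (S : Finset V) : ℕ := (trees G S).card

open Classical in
/-- The number of neighbours of `r` in `C`. -/
noncomputable def deg (G : SimpleGraph V) (r : V) (C : Finset V) : ℕ :=
  (C.filter (fun y => G.Adj r y)).card

open Classical in
/-- The branch as a finite set. -/
noncomputable def branchF (H : SimpleGraph V) (r y : V) : Finset V :=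
  Finset.univ.filter (fun x => x ∈ branch H r y)

theorem coe_branchF (H : SimpleGraph V) (r y : V) : (branchF H r y : Set V) = branch H r y := by
  classical
  ext x; simp [branchF]

theorem mem_branchF {H : SimpleGraph V} {r y x : V} : x ∈ branchF H r y ↔ x ∈ branch H r y := by
  classical
  simp [branchF]

open Classical in
/-- The sizes of the branches at `r` add up to the number of vertices other than `r`. -/
theorem sum_card_branchF {G : SimpleGraph V} {S : Finset V} {H : SimpleGraph V} {r : V}
    (hH : H ∈ trees G S) (hr : r ∈ S) :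
    ∑ y ∈ Finset.univ.filter (fun y => H.Adj r y), (branchF H r y).card = (S.erase r).card := by
  rw [mem_trees] at hH
  obtain ⟨-, hH⟩ := hH
  rw [← Finset.card_biUnion]
  · congr 1
    ext x
    rw [Finset.mem_biUnion, Finset.mem_erase]
    constructor
    · rintro ⟨y, hy, hx⟩
      rw [Finset.mem_filter] at hy
      rw [mem_branchF] at hx
      have := branch_subset hH hy.2 hx
      exact ⟨this.2, this.1⟩
    · rintro ⟨hxr, hxS⟩
      obtain ⟨y, hy, hx⟩ := exists_branch hH hr hxS hxr
      exact ⟨y, Finset.mem_filter.2 ⟨Finset.mem_univ _, hy⟩, mem_branchF.2 hx⟩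
  · intro y hy y' hy' hne
    rw [Function.onFun, Finset.disjoint_left]
    intro x hx hx'
    rw [mem_branchF] at hx hx'
    have h1 := (Finset.mem_filter.1 (Finset.mem_coe.1 hy)).2
    have h2 := (Finset.mem_filter.1 (Finset.mem_coe.1 hy')).2
    exact hne (branch_unique hH.acyc h1 h2 hx hx')

open Classical in
/-- The number of trees on `S` with root neighbour `y` and branch `C` at `y`. -/
theorem card_filter_branch (G : SimpleGraph V) {S C : Finset V} {r y : V} (hr : r ∈ S)
    (hC : C ⊆ S.erase r) :
    ((trees G S).filter (fun H => H.Adj r y ∧ branchF H r y = C)).card =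
      if y ∈ C ∧ G.Adj r y then cnt G C * cnt G (S \ C) else 0 := by
  have hrC : r ∉ C := fun h => (Finset.mem_erase.1 (hC h)).1 rfl
  have hCS : C ⊆ S := fun x hx => (Finset.mem_erase.1 (hC hx)).2
  split_ifs with hyC
  · obtain ⟨hyC, hry⟩ := hyC
    have hdisj : Disjoint (C : Set V) ((S \ C : Finset V) : Set V) := by
      rw [Set.disjoint_left]
      intro x hx hx'
      exact (Finset.mem_sdiff.1 (Finset.mem_coe.1 hx')).2 (Finset.mem_coe.1 hx)
    have hrD : r ∈ ((S \ C : Finset V) : Set V) := Finset.mem_coe.2 (Finset.mem_sdiff.2 ⟨hr, hrC⟩)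
    have hyC' : y ∈ (C : Set V) := Finset.mem_coe.2 hyC
    unfold cnt
    rw [← Finset.card_product]
    refine Finset.card_bij' (fun H _ => (res H (C : Set V), res H ((S \ C : Finset V) : Set V)))
      (fun p _ => p.1 ⊔ p.2 ⊔ edge r y) ?_ ?_ ?_ ?_
    · intro H hH
      rw [Finset.mem_filter, mem_trees] at hH
      obtain ⟨⟨hHG, hH⟩, hadj, hB⟩ := hH
      have hB' : branch H r y = (C : Set V) := by rw [← hB, coe_branchF]
      rw [Finset.mem_product, mem_trees, mem_trees]
      refine ⟨⟨(res_le _ _).trans hHG, ?_⟩, ⟨(res_le _ _).trans hHG, ?_⟩⟩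
      · have := isTreeOn_res_branch (r := r) (y := y) hH
        rwa [hB'] at this
      · have := isTreeOn_res_compl hH (Finset.mem_coe.2 hr) hadj
        rw [hB'] at this
        rwa [Finset.coe_sdiff]
    · rintro ⟨H1, H2⟩ hH
      rw [Finset.mem_product, mem_trees, mem_trees] at hH
      obtain ⟨⟨hG1, h1⟩, ⟨hG2, h2⟩⟩ := hH
      rw [Finset.mem_filter, mem_trees]
      refine ⟨⟨?_, ?_⟩, ?_, ?_⟩
      · refine sup_le (sup_le hG1 hG2) ?_
        intro u v huv
        rw [edge_adj] at huv
        rcases huv with ⟨(⟨rfl, rfl⟩ | ⟨rfl, rfl⟩), -⟩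
        · exact hry
        · exact hry.symm
      · have := isTreeOn_glue h1 h2 hdisj hyC' hrD
        rw [← Finset.coe_union, Finset.union_sdiff_of_subset hCS] at this
        exact this
      · show (H1 ⊔ H2 ⊔ edge r y).Adj r y
        rw [sup_adj, edge_adj]
        exact Or.inr ⟨Or.inl ⟨rfl, rfl⟩, hry.ne⟩
      · apply Finset.coe_injective
        rw [coe_branchF]
        exact branch_glue h1 h2 hdisj hyC' hrD
    · intro H hH
      rw [Finset.mem_filter, mem_trees] at hH
      obtain ⟨⟨hHG, hH⟩, hadj, hB⟩ := hH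
      have hB' : branch H r y = (C : Set V) := by rw [← hB, coe_branchF]
      have := eq_sup hH (Finset.mem_coe.2 hr) hadj
      rw [hB', ← Finset.coe_sdiff] at this
      exact this.symm
    · rintro ⟨H1, H2⟩ hH
      rw [Finset.mem_product, mem_trees, mem_trees] at hH
      obtain ⟨⟨hG1, h1⟩, ⟨hG2, h2⟩⟩ := hH
      exact Prod.ext (res_glue_left h1 h2 hdisj hrD) (res_glue_right h1 h2 hdisj hyC')
  · rw [Finset.card_eq_zero, Finset.filter_eq_empty_iff]
    rintro H hH ⟨hadj, hB⟩
    rw [mem_trees] at hH
    apply hyC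
    refine ⟨?_, hH.1 hadj⟩
    rw [← hB, mem_branchF]
    exact self_mem_branch H r y

/-- **Branch recursion.** -/
theorem branch_recursion (G : SimpleGraph V) {S : Finset V} {r : V} (hr : r ∈ S) :
    (S.erase r).card * cnt G S =
      ∑ C ∈ (S.erase r).powerset, C.card * deg G r C * cnt G C * cnt G (S \ C) := by
  classical
  calc (S.erase r).card * cnt G S = ∑ H ∈ trees G S, (S.erase r).card := by
        rw [Finset.sum_const, smul_eq_mul, mul_comm]; rfl
    _ = ∑ H ∈ trees G S, ∑ y ∈ Finset.univ.filter (fun y => H.Adj r y), (branchF H r y).card := by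
        refine Finset.sum_congr rfl (fun H hH => ?_)
        rw [sum_card_branchF hH hr]
    _ = ∑ H ∈ trees G S, ∑ y : V, ∑ C ∈ (S.erase r).powerset,
          if H.Adj r y ∧ branchF H r y = C then C.card else 0 := by
        refine Finset.sum_congr rfl (fun H hH => ?_)
        rw [Finset.sum_filter]
        refine Finset.sum_congr rfl (fun y _ => ?_)
        rw [mem_trees] at hH
        split_ifs with hadj
        · rw [Finset.sum_eq_single (branchF H r y)]
          · rw [if_pos ⟨hadj, rfl⟩]
          · intro C _ hne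
            rw [if_neg]
            rintro ⟨_, h⟩
            exact hne h.symm
          · intro hnot
            exfalso
            apply hnot
            rw [Finset.mem_powerset]
            intro x hx
            rw [mem_branchF] at hx
            have := branch_subset hH.2 hadj hx
            exact Finset.mem_erase.2 ⟨this.2, this.1⟩
        · symm
          apply Finset.sum_eq_zero
          intro C _
          rw [if_neg]
          rintro ⟨h, _⟩
          exact hadj h
    _ = ∑ C ∈ (S.erase r).powerset, ∑ y : V, ∑ H ∈ trees G S,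
          if H.Adj r y ∧ branchF H r y = C then C.card else 0 := by
        rw [Finset.sum_comm]
        rw [Finset.sum_congr rfl (fun y _ => Finset.sum_comm)]
        rw [Finset.sum_comm]
    _ = ∑ C ∈ (S.erase r).powerset, C.card * deg G r C * cnt G C * cnt G (S \ C) := by
        refine Finset.sum_congr rfl (fun C hC => ?_)
        rw [Finset.mem_powerset] at hC
        have h1 : ∀ y : V, (∑ H ∈ trees G S,
            if H.Adj r y ∧ branchF H r y = C then C.card else 0) =
            if y ∈ C ∧ G.Adj r y then C.card * (cnt G C * cnt G (S \ C)) else 0 := by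
          intro y
          rw [← Finset.sum_filter, Finset.sum_const, card_filter_branch G hr hC, smul_eq_mul]
          split_ifs <;> ring
        rw [Finset.sum_congr rfl (fun y _ => h1 y), ← Finset.sum_filter, Finset.sum_const]
        have h2 : (Finset.univ.filter (fun y => y ∈ C ∧ G.Adj r y)) =
            C.filter (fun y => G.Adj r y) := by
          ext y; simp
        rw [h2, smul_eq_mul]
        unfold deg
        ring

end count

end Pool.Agent.Helper30
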